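import Mathlib

/-!
Definitions for the critical case of the theorem on families of quadratically parametrised varieties:
the equations, over the residue field of characteristic two, satisfied by the reduction of a family.
-/

set_option autoImplicit false

namespace MP2619.KC

/-- the form `D(a; b) = ∑ a_i² b_i` (the polar form of the Fermat cubic in characteristic two) -/
def Dh {κ : Type*} [Field κ] {n : ℕ} (a b : Fin n → κ) : κ := ∑ i, a i ^ 2 * b i

/-- The reduction of a family of quadratic parametrisations `s² x + s β(v) + G(v)`. -/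
structure Sys {κ : Type*} [Field κ] {N r : ℕ} (x : Fin (N + 1) → κ)
    (β : (Fin r → κ) →ₗ[κ] (Fin (N + 1) → κ)) (G : (Fin r → κ) → (Fin (N + 1) → κ))
    (Γ : (Fin r → κ) → (Fin r → κ) → (Fin (N + 1) → κ)) : Prop where
  x0 : x 0 = 1
  hP : ∀ w, Dh w x = 0 → w = w 0 • x
  nz : ∀ v, v ≠ 0 → Dh (β v) x ≠ 0
  hG : ∀ v w (s : κ), G (v + s • w) = G v + s • Γ v w + s ^ 2 • G w
  hΓc : ∀ v w, Γ v w = Γ w v
  hΓa : ∀ v w w', Γ v (w + w') = Γ v w + Γ v w'
  h0 : Dh x x = 0
  h1 : ∀ v, Dh x (β v) = 0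
  h2 : ∀ v, Dh x (G v) = Dh (β v) x
  h3 : ∀ v w, Dh (β v) (β w) = 0
  h4 : ∀ v, Dh (G v) x = Dh (β v) (G v)
  h5 : ∀ v, Dh (G v) (β v) = 0
  h6 : ∀ v, Dh (G v) (G v) = 0

/-- The family `X` is `2`-independent: the squarefree monomials are linearly independent over the
subfield of squares. -/
def Ind2 {κ : Type*} [Field κ] {r : ℕ} (X : Fin r → κ) : Prop :=
  ∀ c : Finset (Fin r) → κ, ∑ S, c S ^ 2 * ∏ i ∈ S, X i = 0 → ∀ S, c S = 0

end MP2619.KC
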