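import Pool.Agent.Lib.MP_2619d0_ag.KC.Defs
import Pool.Agent.Lib.MP_2619d0_ag.T.B1

/-!
Definitions: a place at which the cubic form is a generic perturbation of the Fermat cubic.
-/

set_option autoImplicit false

namespace MP2619.KC

open MvPolynomial Pool.Agent.Lib.MP_2619d0_ag.T

/-- reduction of a vector -/
noncomputable def rv {M : Type*} [Field M] (O : ValuationSubring M) {n : ℕ} (z : Fin n → O) :
    Fin n → IsLocalRing.ResidueField O := fun i => IsLocalRing.residue O (z i)

/-- inclusion of a vector -/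
def iv {M : Type*} [Field M] (O : ValuationSubring M) {n : ℕ} (z : Fin n → O) : Fin n → M :=
  fun i => (z i : M)

/-- The coefficients `c` of the cubic form are `δ + π g`, where `π² = 2` and the residues of the
`g i j l` (`i ≤ j ≤ l`) are algebraically independent constants; `x` is a point of the cubic which
reduces to the generic point of the Fermat cubic over the field `k0` of constants. -/
structure Plc {M : Type*} [Field M] (O : ValuationSubring M) {m : ℕ}
    (c g : Fin (m + 1 + 1) → Fin (m + 1 + 1) → Fin (m + 1 + 1) → O) (π : O)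
    (x : Fin (m + 1 + 1) → O) (k0 : Subfield (IsLocalRing.ResidueField O)) : Prop where
  two : (2 : IsLocalRing.ResidueField O) = 0
  inf : Infinite (IsLocalRing.ResidueField O)
  piq : π ^ 2 = 2
  cg : ∀ i j l, c i j l = (if i = j ∧ j = l then 1 else 0) + π * g i j l
  g0 : ∀ i j l, ¬ (i ≤ j ∧ j ≤ l) → g i j l = 0
  x0 : x 0 = 1
  x1 : IsLocalRing.residue O (x 1) ≠ 0
  hP : ∀ w : Fin (m + 1 + 1) → IsLocalRing.ResidueField O,
    ∑ i, w i ^ 2 * IsLocalRing.residue O (x i) = 0 →
      w = w 0 • fun i => IsLocalRing.residue O (x i)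
  k4 : ∀ a : IsLocalRing.ResidueField O, a ^ 4 = a → a ∈ k0
  gk : ∀ i j l, IsLocalRing.residue O (g i j l) ∈ k0
  gen : ∀ s : Fin (m + 1 + 1) → Fin (m + 1 + 1) → Fin (m + 1 + 1) → IsLocalRing.ResidueField O,
    (∀ i j l, s i j l ^ 16 = s i j l) →
      ∑ i, ∑ j, ∑ l, s i j l * IsLocalRing.residue O (g i j l) = 0 →
        ∀ i j l, i ≤ j → j ≤ l → s i j l = 0
  lin : ∀ a : Fin (m + 1 + 1) → IsLocalRing.ResidueField O, (∀ i, a i ∈ k0) →
    Dh (fun i => IsLocalRing.residue O (x i)) a = 0 → ∀ i, a i = 0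
  cub : ∀ h : Fin (m + 1 + 1) → Fin (m + 1 + 1) → Fin (m + 1 + 1) → IsLocalRing.ResidueField O,
    (∀ i j l, h i j l ∈ k0) →
      Fc h (fun i => IsLocalRing.residue O (x i) ^ 2) = 0 →
        ∃ e : IsLocalRing.ResidueField O, ∀ z : Fin (m + 1 + 1) → IsLocalRing.ResidueField O,
          Fc h z = e * ∑ i, z i ^ 3
  der : ∀ j : Fin m, ∃ D : Derivation ℤ (IsLocalRing.ResidueField O) (IsLocalRing.ResidueField O),
    (∀ i : Fin m, D (IsLocalRing.residue O (x i.succ.succ)) = if i = j then 1 else 0) ∧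
      ∀ a ∈ k0, D a = 0

end MP2619.KC
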