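import Pool.Agent.Lib.MP_2619d0_ag.KC.Defs

/-! Row R1: consequences of the equations. -/

set_option autoImplicit false

namespace MP2619.KC

variable {κ : Type*} [Field κ] {N r n : ℕ}

theorem Dh_add_left (h2 : (2 : κ) = 0) (a b c : Fin n → κ) : Dh (a + b) c = Dh a c + Dh b c := by
  unfold Dh
  rw [← Finset.sum_add_distrib]
  refine Finset.sum_congr rfl fun i _ => ?_
  rw [Pi.add_apply]
  linear_combination (a i * b i * c i) * h2

theorem Dh_add_right (a b c : Fin n → κ) : Dh a (b + c) = Dh a b + Dh a c := by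
  unfold Dh
  rw [← Finset.sum_add_distrib]
  refine Finset.sum_congr rfl fun i _ => ?_
  rw [Pi.add_apply]
  ring

theorem Dh_smul_left (s : κ) (a c : Fin n → κ) : Dh (s • a) c = s ^ 2 * Dh a c := by
  unfold Dh
  rw [Finset.mul_sum]
  refine Finset.sum_congr rfl fun i _ => ?_
  rw [Pi.smul_apply, smul_eq_mul]
  ring

theorem Dh_smul_right (s : κ) (a c : Fin n → κ) : Dh a (s • c) = s * Dh a c := by
  unfold Dh
  rw [Finset.mul_sum]
  refine Finset.sum_congr rfl fun i _ => ?_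
  rw [Pi.smul_apply, smul_eq_mul]
  ring

theorem Dh_zero_left (c : Fin n → κ) : Dh (0 : Fin n → κ) c = 0 := by
  unfold Dh
  simp

theorem Dh_zero_right (c : Fin n → κ) : Dh c (0 : Fin n → κ) = 0 := by
  unfold Dh
  simp

theorem R1_coef [Infinite κ] (a0 a1 a2 a3 a4 a5 a6 : κ)
    (h : ∀ s : κ, a0 + s * a1 + s ^ 2 * a2 + s ^ 3 * a3 + s ^ 4 * a4 + s ^ 5 * a5 + s ^ 6 * a6 = 0) :
    a0 = 0 ∧ a1 = 0 ∧ a2 = 0 ∧ a3 = 0 ∧ a4 = 0 ∧ a5 = 0 ∧ a6 = 0 := by
  have hP : (Polynomial.C a0 + Polynomial.X * Polynomial.C a1 +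
      Polynomial.X ^ 2 * Polynomial.C a2 + Polynomial.X ^ 3 * Polynomial.C a3 +
      Polynomial.X ^ 4 * Polynomial.C a4 + Polynomial.X ^ 5 * Polynomial.C a5 +
      Polynomial.X ^ 6 * Polynomial.C a6 : Polynomial κ) = 0 := by
    apply Polynomial.funext
    intro s
    simp only [Polynomial.eval_add, Polynomial.eval_mul, Polynomial.eval_C, Polynomial.eval_pow,
      Polynomial.eval_X, Polynomial.eval_zero]
    exact h s
  have key : ∀ n, (Polynomial.C a0 + Polynomial.X * Polynomial.C a1 +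
      Polynomial.X ^ 2 * Polynomial.C a2 + Polynomial.X ^ 3 * Polynomial.C a3 +
      Polynomial.X ^ 4 * Polynomial.C a4 + Polynomial.X ^ 5 * Polynomial.C a5 +
      Polynomial.X ^ 6 * Polynomial.C a6 : Polynomial κ).coeff n = 0 := by
    intro n
    rw [hP, Polynomial.coeff_zero]
  simp only [Polynomial.coeff_add, Polynomial.coeff_mul_C, Polynomial.coeff_X_pow,
    Polynomial.coeff_X, Polynomial.coeff_C] at key
  have e0 := key 0
  have e1 := key 1
  have e2 := key 2
  have e3 := key 3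
  have e4 := key 4
  have e5 := key 5
  have e6 := key 6
  norm_num at e0 e1 e2 e3 e4 e5 e6
  exact ⟨e0, e1, e2, e3, e4, e5, e6⟩

theorem R1_cons [Infinite κ] (h2 : (2 : κ) = 0) {x : Fin (N + 1) → κ}
    {β : (Fin r → κ) →ₗ[κ] (Fin (N + 1) → κ)} {G : (Fin r → κ) → (Fin (N + 1) → κ)}
    {Γ : (Fin r → κ) → (Fin r → κ) → (Fin (N + 1) → κ)} (h : Sys x β G Γ) :
    (∀ v w, Dh x (Γ v w) = 0) ∧
    (∀ v w, Dh (G v) (β w) = 0) ∧
    (∀ u v w, Dh (Γ v w) (β u) = 0) ∧
    (∀ v w, Dh (Γ v w) x = Dh (β v) (G w) + Dh (β w) (G v)) ∧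
    (∀ u v w, Dh (β u) (Γ v w) = 0) ∧
    (∀ v w, Dh (G v) (G w) = Dh (Γ v w) (G v)) ∧
    (∀ u v w, Dh (G u) (Γ v w) = 0) ∧
    (∀ u t v w, Dh (Γ u t) (Γ v w) = 0) := by
  have hGa : ∀ v w, G (v + w) = G v + Γ v w + G w := by
    intro v w
    have h1 := h.hG v w 1
    rw [one_smul, one_smul, one_pow, one_smul] at h1
    exact h1
  have A1 : ∀ v w, Dh x (Γ v w) = 0 := by
    intro v w
    have e := h.h2 (v + w)
    rw [hGa, map_add, Dh_add_right, Dh_add_right, Dh_add_left h2, h.h2, h.h2] at e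
    linear_combination e
  -- coefficients of `h5`
  have A2' : ∀ v w, Dh (G v) (β w) = 0 := by
    intro v w
    have e : ∀ s : κ, Dh (G v) (β v) + s * Dh (G v) (β w) + s ^ 2 * Dh (Γ v w) (β v) +
        s ^ 3 * Dh (Γ v w) (β w) + s ^ 4 * Dh (G w) (β v) + s ^ 5 * Dh (G w) (β w) +
        s ^ 6 * 0 = 0 := by
      intro s
      have e := h.h5 (v + s • w)
      rw [h.hG, map_add, map_smul, Dh_add_right, Dh_smul_right, Dh_add_left h2, Dh_add_left h2,
        Dh_add_left h2, Dh_add_left h2, Dh_smul_left, Dh_smul_left, Dh_smul_left,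
        Dh_smul_left] at e
      linear_combination e
    exact (R1_coef _ _ _ _ _ _ _ e).2.1
  have A3 : ∀ u v w, Dh (Γ v w) (β u) = 0 := by
    intro u v w
    have e := A2' (v + w) u
    rw [hGa, Dh_add_left h2, Dh_add_left h2, A2', A2'] at e
    linear_combination e
  have A4 : ∀ v w, Dh (Γ v w) x = Dh (β v) (G w) + Dh (β w) (G v) := by
    intro v w
    have e : ∀ s : κ, (Dh (G v) x - Dh (β v) (G v)) + s * (- Dh (β v) (Γ v w)) +
        s ^ 2 * (Dh (Γ v w) x - Dh (β v) (G w) - Dh (β w) (G v)) +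
        s ^ 3 * (- Dh (β w) (Γ v w)) + s ^ 4 * (Dh (G w) x - Dh (β w) (G w)) + s ^ 5 * 0 +
        s ^ 6 * 0 = 0 := by
      intro s
      have e := h.h4 (v + s • w)
      rw [h.hG, map_add, map_smul, Dh_add_left h2, Dh_add_left h2, Dh_add_left h2,
        Dh_add_right, Dh_add_right, Dh_add_right, Dh_add_right] at e
      simp only [Dh_smul_right, Dh_smul_left] at e
      linear_combination e
    linear_combination (R1_coef _ _ _ _ _ _ _ e).2.2.1
  have A5 : ∀ u v w, Dh (β u) (Γ v w) = 0 := by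
    intro u v w
    have e := A4 u (v + w)
    rw [h.hΓa, hGa, map_add, Dh_add_left h2, Dh_add_left h2, Dh_add_right, Dh_add_right,
      A4, A4] at e
    linear_combination - e
  have A6 : ∀ v w, Dh (G v) (G w) = Dh (Γ v w) (G v) := by
    intro v w
    have e : ∀ s : κ, Dh (G v) (G v) + s * Dh (G v) (Γ v w) +
        s ^ 2 * (Dh (G v) (G w) + Dh (Γ v w) (G v)) +
        s ^ 3 * Dh (Γ v w) (Γ v w) + s ^ 4 * (Dh (Γ v w) (G w) + Dh (G w) (G v)) +
        s ^ 5 * Dh (G w) (Γ v w) + s ^ 6 * Dh (G w) (G w) = 0 := by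
      intro s
      have e := h.h6 (v + s • w)
      rw [h.hG] at e
      simp only [Dh_add_left h2, Dh_add_right, Dh_smul_right, Dh_smul_left] at e
      linear_combination e
    linear_combination (R1_coef _ _ _ _ _ _ _ e).2.2.1 - Dh (Γ v w) (G v) * h2
  have A7 : ∀ u v w, Dh (G u) (Γ v w) = 0 := by
    intro u v w
    have e := A6 u (v + w)
    rw [h.hΓa, hGa, Dh_add_left h2, Dh_add_right, Dh_add_right, A6, A6] at e
    linear_combination e
  refine ⟨A1, A2', A3, A4, A5, A6, A7, ?_⟩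
  intro u t v w
  have e := A7 (u + t) v w
  rw [hGa, Dh_add_left h2, Dh_add_left h2, A7, A7] at e
  linear_combination e

end MP2619.KC
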