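import Pool.Agent.Lib.MP_2619d0_ag.K.K2

/-! Row R9: the generic point of the Fermat cubic. -/

set_option autoImplicit false

namespace MP2619.KC

open MvPolynomial

variable {k κ : Type*} [Field k] [Field κ] {m : ℕ}

theorem R9_char (h2 : (2 : κ) = 0) (ρ : MvPolynomial (Fin m) k →+* κ) : (2 : k) = 0 := by
  have h : (ρ.comp C) (2 : k) = (ρ.comp C) 0 := by
    rw [map_ofNat, h2, map_zero]
  exact (ρ.comp C).injective h

/-- `1 + ∑ X_i ^ 3` is not a cube -/
theorem R9_notcube (h2 : (2 : k) = 0) (hm : 1 ≤ m) (Q : MvPolynomial (Fin m) k)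
    (hQ : Q ^ 3 = 1 + ∑ i, X i ^ 3) : False := by
  classical
  have h2P : (2 : MvPolynomial (Fin m) k) = 0 := by
    have e : (C (2 : k) : MvPolynomial (Fin m) k) = 2 := map_ofNat C 2
    rw [← e, h2, map_zero]
  let i0 : Fin m := ⟨0, hm⟩
  have hd : Q ^ 2 * pderiv i0 Q = X i0 ^ 2 := by
    have h := congrArg (pderiv i0) hQ
    rw [map_add, map_sum] at h
    have h1 : pderiv i0 (1 : MvPolynomial (Fin m) k) = 0 := by
      simp
    have h3 : ∀ j : Fin m, pderiv i0 ((X j : MvPolynomial (Fin m) k) ^ 3) =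
        if j = i0 then 3 * X i0 ^ 2 else 0 := by
      intro j
      rw [Derivation.leibniz_pow, pderiv_X]
      by_cases hj : j = i0
      · subst hj
        simp [nsmul_eq_mul]
      · rw [Pi.single_apply, if_neg hj, if_neg hj]
        simp
    rw [h1, zero_add] at h
    simp only [h3] at h
    rw [Finset.sum_ite_eq' Finset.univ i0, if_pos (Finset.mem_univ _),
      Derivation.leibniz_pow] at h
    simp only [smul_eq_mul, nsmul_eq_mul] at h
    have h4 : (3 : MvPolynomial (Fin m) k) = 1 := by
      linear_combination h2P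
    have h5 : ((3 : ℕ) : MvPolynomial (Fin m) k) = 1 := by
      rw [← h4]; norm_num
    rw [h5, h4, one_mul, one_mul] at h
    exact h
  have hdvd : Q ^ 2 ∣ (X i0 : MvPolynomial (Fin m) k) ^ 2 := ⟨_, hd.symm⟩
  have hdvd1 : Q ∣ (X i0 : MvPolynomial (Fin m) k) := (IsIntegrallyClosed.pow_dvd_pow_iff (by norm_num)).1 hdvd
  have hprime : Prime (X i0 : MvPolynomial (Fin m) k) := by
    exact MvPolynomial.X_prime
  obtain ⟨R, hR⟩ := hdvd1
  rcases hprime.irreducible.isUnit_or_isUnit hR with hu | hu
  · obtain ⟨c, hc, hcQ⟩ := MvPolynomial.isUnit_iff_eq_C_of_isReduced.1 hu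
    have h := congrArg (coeff (Finsupp.single i0 3)) hQ
    rw [hcQ, ← C_pow, coeff_C, coeff_add, coeff_sum] at h
    have hne : ¬ (0 = Finsupp.single i0 3) := by
      intro h'
      have := congrArg (fun f => f i0) h'
      simp at this
    rw [if_neg hne, coeff_one, if_neg hne, zero_add] at h
    have h3 : ∀ j : Fin m, coeff (Finsupp.single i0 3) ((X j : MvPolynomial (Fin m) k) ^ 3) =
        if j = i0 then 1 else 0 := by
      intro j
      rw [coeff_X_pow]
      by_cases hj : j = i0
      · subst hj; simp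
      · rw [if_neg, if_neg hj]
        intro h'
        have := congrArg (fun f => f i0) h'
        simp [hj] at this
    simp only [h3] at h
    rw [Finset.sum_ite_eq' Finset.univ i0, if_pos (Finset.mem_univ _)] at h
    exact zero_ne_one h
  · obtain ⟨c, hc, hcR⟩ := MvPolynomial.isUnit_iff_eq_C_of_isReduced.1 hu
    have h := congrArg (fun f => eval (fun _ => (0 : k)) f) hQ
    have h' := congrArg (fun f => eval (fun _ => (0 : k)) f) hR
    simp only [map_pow, map_add, map_sum, map_one, eval_X, map_mul, hcR, eval_C] at h h'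
    have h6 : eval (fun _ => (0 : k)) Q = 0 := by
      rcases mul_eq_zero.1 h'.symm with h7 | h7
      · exact h7
      · exact absurd h7 hc.ne_zero
    rw [h6] at h
    simp at h

/-- the second coordinate has degree three over the others -/
theorem R9_deg (h2 : (2 : κ) = 0) (hm : 1 ≤ m) (ρ : MvPolynomial (Fin m) k →+* κ)
    (hρ : Function.Injective ρ) (x : Fin (m + 1 + 1) → κ) (x0 : x 0 = 1)
    (hx : ∀ i : Fin m, x i.succ.succ = ρ (X i)) (hsum : ∑ i, x i ^ 3 = 0)
    (a b c : MvPolynomial (Fin m) k) (h : ρ a + ρ b * x 1 + ρ c * x 1 ^ 2 = 0) :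
    a = 0 ∧ b = 0 ∧ c = 0 := by
  classical
  let P : MvPolynomial (Fin m) k := 1 + ∑ i, X i ^ 3
  have hk2 : (2 : k) = 0 := R9_char h2 ρ
  have hx1 : x 1 ^ 3 = ρ P := by
    rw [Fin.sum_univ_succ, Fin.sum_univ_succ, x0] at hsum
    simp only [hx] at hsum
    have h1 : ρ P = 1 + ∑ i : Fin m, ρ (X i) ^ 3 := by
      simp [P]
    rw [h1]
    have h3 : x (Fin.succ 0) = x 1 := rfl
    rw [h3] at hsum
    linear_combination hsum - (1 + ∑ i : Fin m, ρ (X i) ^ 3) * h2
  let K := FractionRing (MvPolynomial (Fin m) k)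
  let φ : K →+* κ := IsFractionRing.lift (K := K) hρ
  have hφ : ∀ f, φ (algebraMap _ K f) = ρ f := fun f => IsFractionRing.lift_algebraMap hρ f
  let _ : Algebra K κ := φ.toAlgebra
  have hirr : Irreducible (Polynomial.X ^ 3 - Polynomial.C (algebraMap _ K P)) := by
    apply X_pow_sub_C_irreducible_of_prime Nat.prime_three
    intro y hy
    have hint : IsIntegral (MvPolynomial (Fin m) k) (y ^ 3) := by
      rw [hy]
      exact isIntegral_algebraMap
    obtain ⟨Q, hQ⟩ := IsIntegrallyClosed.exists_algebraMap_eq_of_isIntegral_pow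
      (R := MvPolynomial (Fin m) k) (K := K) (by norm_num : 0 < 3) hint
    apply R9_notcube hk2 hm Q
    apply IsFractionRing.injective (MvPolynomial (Fin m) k) K
    rw [map_pow, hQ, hy]
  have hroot : Polynomial.aeval (x 1)
      (Polynomial.X ^ 3 - Polynomial.C (algebraMap _ K P)) = 0 := by
    rw [map_sub, map_pow, Polynomial.aeval_X, Polynomial.aeval_C, hx1]
    change ρ P - φ (algebraMap _ K P) = 0
    rw [hφ, sub_self]
  have hmin : minpoly K (x 1) = Polynomial.X ^ 3 - Polynomial.C (algebraMap _ K P) :=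
    (minpoly.eq_of_irreducible_of_monic hirr hroot
      (Polynomial.monic_X_pow_sub_C _ (by norm_num))).symm
  let g : Polynomial K := Polynomial.C (algebraMap _ K a) +
    Polynomial.C (algebraMap _ K b) * Polynomial.X +
    Polynomial.C (algebraMap _ K c) * Polynomial.X ^ 2
  have hg : Polynomial.aeval (x 1) g = 0 := by
    simp only [g, map_add, map_mul, map_pow, Polynomial.aeval_X, Polynomial.aeval_C]
    change φ (algebraMap _ K a) + φ (algebraMap _ K b) * x 1 +
      φ (algebraMap _ K c) * x 1 ^ 2 = 0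
    rw [hφ, hφ, hφ, h]
  have hg0 : g = 0 := by
    have hdvd := minpoly.dvd K (x 1) hg
    by_contra hne
    have hle := Polynomial.degree_le_of_dvd hdvd hne
    rw [hmin, Polynomial.degree_X_pow_sub_C (by norm_num)] at hle
    have hlt : g.degree < ((3 : ℕ) : WithBot ℕ) := by
      have : g.degree ≤ ((2 : ℕ) : WithBot ℕ) := by
        have e : g = Polynomial.C (algebraMap _ K c) * Polynomial.X ^ 2 +
          Polynomial.C (algebraMap _ K b) * Polynomial.X + Polynomial.C (algebraMap _ K a) := by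
          simp only [g]; ring
        rw [e]
        exact Polynomial.degree_quadratic_le
      exact lt_of_le_of_lt this (by exact_mod_cast (by norm_num : 2 < 3))
    exact absurd hle (not_le.2 hlt)
  have hinj := IsFractionRing.injective (MvPolynomial (Fin m) k) K
  have c0 := congrArg (fun f => Polynomial.coeff f 0) hg0
  have c1 := congrArg (fun f => Polynomial.coeff f 1) hg0
  have c2 := congrArg (fun f => Polynomial.coeff f 2) hg0
  simp [g, Polynomial.coeff_X, Polynomial.coeff_C, Polynomial.coeff_X_pow] at c0 c1 c2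
  exact ⟨c0, c1, c2⟩

/-- the squares of the coordinates are linearly independent over the constants -/
theorem R9_lin (h2 : (2 : κ) = 0) (hm : 1 ≤ m) (ρ : MvPolynomial (Fin m) k →+* κ)
    (hρ : Function.Injective ρ) (x : Fin (m + 1 + 1) → κ) (x0 : x 0 = 1)
    (hx : ∀ i : Fin m, x i.succ.succ = ρ (X i)) (hsum : ∑ i, x i ^ 3 = 0)
    (a : Fin (m + 1 + 1) → k) (h : ∑ i, x i ^ 2 * ρ (C (a i)) = 0) : a = 0 := by
  classical
  rw [Fin.sum_univ_succ, Fin.sum_univ_succ, x0] at h
  have e1 : (Fin.succ 0 : Fin (m + 1 + 1)) = 1 := rfl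
  rw [e1] at h
  simp only [hx] at h
  have h1 := R9_deg h2 hm ρ hρ x x0 hx hsum
    (C (a 0) + ∑ i : Fin m, X i ^ 2 * C (a i.succ.succ)) 0 (C (a 1)) (by
      rw [map_add, map_sum, map_zero, zero_mul, add_zero]
      simp only [map_mul, map_pow]
      linear_combination h)
  obtain ⟨ha, -, hc⟩ := h1
  have ha1 : a 1 = 0 := C_eq_zero.1 hc
  have ha0 : a 0 = 0 := by
    have := congrArg (fun f => eval (fun _ => (0 : k)) f) ha
    simpa using this
  have ha2 : ∀ j : Fin m, a j.succ.succ = 0 := by
    intro j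
    have := congrArg (coeff (Finsupp.single j 2)) ha
    rw [coeff_add, coeff_sum, coeff_C, coeff_zero, if_neg] at this
    · have h3 : ∀ i : Fin m, coeff (Finsupp.single j 2)
          ((X i : MvPolynomial (Fin m) k) ^ 2 * C (a i.succ.succ)) =
          if i = j then a i.succ.succ else 0 := by
        intro i
        rw [mul_comm, coeff_C_mul, coeff_X_pow]
        by_cases hj : i = j
        · subst hj; simp
        · rw [if_neg, if_neg hj, mul_zero]
          intro h'
          have := congrArg (fun f => f i) h'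
          simp [hj] at this
      simp only [h3] at this
      rw [Finset.sum_ite_eq' Finset.univ j, if_pos (Finset.mem_univ _), zero_add] at this
      exact this
    · intro h'
      have := congrArg (fun f => f j) h'
      simp at this
  funext i
  refine Fin.cases ha0 (fun i => ?_) i
  exact Fin.cases ha1 (fun i => ha2 i) i

/-- Dehomogenisation, with the squares of the variables. -/
noncomputable def R9_phi (k : Type*) [Field k] (m : ℕ) :
    MvPolynomial (Fin (m + 1 + 1)) k →+* Polynomial (MvPolynomial (Fin m) k) :=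
  eval₂Hom (Polynomial.C.comp C)
    (Fin.cons 1 (Fin.cons Polynomial.X fun i => Polynomial.C (X i ^ 2)))

/-- the exponents of the image of a monomial -/
noncomputable def R9_t {m : ℕ} (s : Fin (m + 1 + 1) →₀ ℕ) : Fin m →₀ ℕ :=
  Finsupp.equivFunOnFinite.symm fun i => 2 * s i.succ.succ

theorem R9_phi_monomial (s : Fin (m + 1 + 1) →₀ ℕ) (a : k) :
    R9_phi k m (monomial s a) = Polynomial.monomial (s 1) (monomial (R9_t s) a) := by
  rw [R9_phi, coe_eval₂Hom, eval₂_monomial, Finsupp.prod_fintype _ _ (fun _ => pow_zero _),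
    Fin.prod_univ_succ, Fin.prod_univ_succ]
  have e1 : (Fin.succ 0 : Fin (m + 1 + 1)) = 1 := rfl
  simp only [Fin.cons_zero, Fin.cons_succ, one_pow, one_mul]
  rw [e1]
  have e2 : (∏ i : Fin m, (Polynomial.C (X i ^ 2) : Polynomial (MvPolynomial (Fin m) k)) ^
      s i.succ.succ) = Polynomial.C (∏ i : Fin m, X i ^ (2 * s i.succ.succ)) := by
    rw [map_prod]
    refine Finset.prod_congr rfl fun i _ => ?_
    rw [← map_pow, ← pow_mul]
  rw [e2]
  have e3 : (monomial (R9_t s) a : MvPolynomial (Fin m) k) =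
      C a * ∏ i : Fin m, X i ^ (2 * s i.succ.succ) := by
    rw [monomial_eq, Finsupp.prod_fintype _ _ (fun _ => pow_zero _)]
    rfl
  rw [e3, ← Polynomial.C_mul_X_pow_eq_monomial, map_mul]
  simp only [RingHom.comp_apply]
  ring

theorem R9_phi_eq (H : MvPolynomial (Fin (m + 1 + 1)) k) :
    R9_phi k m H = ∑ s ∈ H.support,
      Polynomial.monomial (s 1) (monomial (R9_t s) (coeff s H)) := by
  conv_lhs => rw [H.as_sum]
  rw [map_sum]
  exact Finset.sum_congr rfl fun s _ => R9_phi_monomial s _

theorem R9_sum3 (H : MvPolynomial (Fin (m + 1 + 1)) k) (hH : H.IsHomogeneous 3)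
    (s : Fin (m + 1 + 1) →₀ ℕ) (hs : coeff s H ≠ 0) :
    s 0 + (s 1 + ∑ i : Fin m, s i.succ.succ) = 3 := by
  have h := hH hs
  rw [Finsupp.weight_apply, Finsupp.sum_fintype _ _ (by simp)] at h
  simp only [Pi.one_apply, smul_eq_mul, mul_one] at h
  rw [Fin.sum_univ_succ, Fin.sum_univ_succ] at h
  exact h

theorem R9_phi_inj (H : MvPolynomial (Fin (m + 1 + 1)) k) (hH : H.IsHomogeneous 3)
    (h : R9_phi k m H = 0) : H = 0 := by
  classical
  by_contra hne
  obtain ⟨s, hs⟩ : ∃ s, coeff s H ≠ 0 := by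
    by_contra hall
    push Not at hall
    exact hne (MvPolynomial.ext _ _ fun s => by rw [hall s, coeff_zero])
  have hc := congrArg (fun f => coeff (R9_t s) (Polynomial.coeff f (s 1))) h
  simp only [Polynomial.coeff_zero, coeff_zero] at hc
  rw [R9_phi_eq, Polynomial.finsetSum_coeff, coeff_sum] at hc
  rw [Finset.sum_eq_single s] at hc
  · rw [Polynomial.coeff_monomial, if_pos rfl, coeff_monomial, if_pos rfl] at hc
    exact hs hc
  · intro s' hs' hne'
    rw [Polynomial.coeff_monomial]
    by_cases h1 : s' 1 = s 1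
    · rw [if_pos h1, coeff_monomial, if_neg]
      intro h3
      apply hne'
      have ht : ∀ i : Fin m, s' i.succ.succ = s i.succ.succ := by
        intro i
        have := congrArg (fun f => f i) h3
        simp only [R9_t, Finsupp.equivFunOnFinite_symm_apply_apply] at this
        omega
      have e := R9_sum3 H hH s hs
      have e' := R9_sum3 H hH s' (mem_support_iff.1 hs')
      rw [Finset.sum_congr rfl (fun i _ => ht i), h1] at e'
      ext i
      refine Fin.cases (by omega) (fun i => ?_) i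
      exact Fin.cases h1 (fun i => ht i) i
    · rw [if_neg h1, coeff_zero]
  · intro hs'
    exact absurd (mem_support_iff.2 hs) hs'

theorem R9_s1 (i : Fin m) :
    (Finsupp.single (1 : Fin (m + 1 + 1)) 3 : Fin (m + 1 + 1) →₀ ℕ) i.succ.succ = 0 := by
  classical
  rw [Finsupp.single_apply, if_neg]
  intro h'
  have := congrArg Fin.val h'
  simp at this

theorem R9_phi_fermat (hP2 : (2 : MvPolynomial (Fin m) k) = 0) (c : k) :
    R9_phi k m (C c * ∑ i, X i ^ 3) =
      Polynomial.C (C c * (1 + ∑ i, X i ^ 3) ^ 2) + Polynomial.C (C c) * Polynomial.X ^ 3 := by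
  have : CharP (MvPolynomial (Fin m) k) 2 := CharTwo.of_one_ne_zero_of_two_eq_zero one_ne_zero hP2
  have hPsq : (1 + ∑ i, X i ^ 3 : MvPolynomial (Fin m) k) ^ 2 = 1 + ∑ i, X i ^ 6 := by
    have e := sum_pow_char (R := MvPolynomial (Fin m) k) 2 Finset.univ
      (fun i : Fin m => (X i : MvPolynomial (Fin m) k) ^ 3)
    have e' := add_pow_char (1 : MvPolynomial (Fin m) k) (∑ i, X i ^ 3) 2
    have e6 : (∑ i : Fin m, ((X i : MvPolynomial (Fin m) k) ^ 3) ^ 2) = ∑ i, X i ^ 6 :=
      Finset.sum_congr rfl fun i _ => by rw [← pow_mul]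
    rw [one_pow, e, e6] at e'
    exact e'
  have e0 : R9_phi k m (X 0) = 1 := by
    rw [R9_phi, coe_eval₂Hom, eval₂_X, Fin.cons_zero]
  have e1 : R9_phi k m (X (Fin.succ 0)) = Polynomial.X := by
    rw [R9_phi, coe_eval₂Hom, eval₂_X, Fin.cons_succ, Fin.cons_zero]
  have e2 : ∀ i : Fin m, R9_phi k m (X i.succ.succ) = Polynomial.C (X i ^ 2) := by
    intro i
    rw [R9_phi, coe_eval₂Hom, eval₂_X, Fin.cons_succ, Fin.cons_succ]
  have e3 : R9_phi k m (C c) = Polynomial.C (C c) := by
    rw [R9_phi, coe_eval₂Hom, eval₂_C]; rfl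
  have e4 : ∀ i : Fin m, R9_phi k m (X i.succ.succ ^ 3) = Polynomial.C (X i ^ 6) := by
    intro i
    rw [map_pow, e2, ← map_pow, ← pow_mul]
  rw [hPsq, map_mul, map_sum, Fin.sum_univ_succ, Fin.sum_univ_succ, e3, map_pow, map_pow, e0, e1,
    Finset.sum_congr rfl (fun i _ => e4 i), map_mul, map_add, map_one, map_sum]
  ring

/-- a cubic form vanishing at the squares of the coordinates is a multiple of the Fermat cubic -/
theorem R9_cubic (h2 : (2 : κ) = 0) (hm : 1 ≤ m) (ρ : MvPolynomial (Fin m) k →+* κ)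
    (hρ : Function.Injective ρ) (x : Fin (m + 1 + 1) → κ) (x0 : x 0 = 1)
    (hx : ∀ i : Fin m, x i.succ.succ = ρ (X i)) (hsum : ∑ i, x i ^ 3 = 0)
    (H : MvPolynomial (Fin (m + 1 + 1)) k) (hH : H.IsHomogeneous 3)
    (h : eval₂ (ρ.comp C) (fun i => x i ^ 2) H = 0) : ∃ c : k, H = C c * ∑ i, X i ^ 3 := by
  classical
  have hk2 : (2 : k) = 0 := R9_char h2 ρ
  have hP2 : (2 : MvPolynomial (Fin m) k) = 0 := by
    have e : (C (2 : k) : MvPolynomial (Fin m) k) = 2 := map_ofNat C 2
    rw [← e, hk2, map_zero]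
  have : CharP (MvPolynomial (Fin m) k) 2 := CharTwo.of_one_ne_zero_of_two_eq_zero one_ne_zero hP2
  let P : MvPolynomial (Fin m) k := 1 + ∑ i, X i ^ 3
  have hx1 : x 1 ^ 3 = ρ P := by
    rw [Fin.sum_univ_succ, Fin.sum_univ_succ, x0] at hsum
    simp only [hx] at hsum
    have h1 : ρ P = 1 + ∑ i : Fin m, ρ (X i) ^ 3 := by
      simp [P]
    rw [h1]
    have h3 : x (Fin.succ 0) = x 1 := rfl
    rw [h3] at hsum
    linear_combination hsum - (1 + ∑ i : Fin m, ρ (X i) ^ 3) * h2
  let c : k := coeff (Finsupp.single 1 3) H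
  let f := R9_phi k m H
  have hf : f = R9_phi k m H := rfl
  have hcoef : ∀ j, f.coeff j = ∑ s ∈ H.support, if s 1 = j then
      monomial (R9_t s) (coeff s H) else 0 := by
    intro j
    rw [hf, R9_phi_eq, Polynomial.finsetSum_coeff]
    exact Finset.sum_congr rfl fun s _ => Polynomial.coeff_monomial
  have h4 : ∀ j, 4 ≤ j → f.coeff j = 0 := by
    intro j hj
    rw [hcoef]
    refine Finset.sum_eq_zero fun s hs => ?_
    rw [if_neg]
    have := R9_sum3 H hH s (mem_support_iff.1 hs)
    omega
  have h3 : f.coeff 3 = C c := by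
    rw [hcoef]
    have key : ∀ s ∈ H.support, s 1 = 3 → s = Finsupp.single 1 3 := by
      intro s hs h1
      have e := R9_sum3 H hH s (mem_support_iff.1 hs)
      have e2 : s 0 = 0 := by omega
      have e3 : ∑ i : Fin m, s i.succ.succ = 0 := by omega
      have e4 : ∀ i : Fin m, s i.succ.succ = 0 := by
        intro i
        exact (Finset.sum_eq_zero_iff.1 e3) i (Finset.mem_univ _)
      ext i
      refine Fin.cases ?_ (fun i => ?_) i
      · rw [e2]; simp
      · refine Fin.cases ?_ (fun i => ?_) i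
        · exact h1.trans (by rw [show (Fin.succ 0 : Fin (m + 1 + 1)) = 1 from rfl]; simp)
        · rw [e4, R9_s1]
    have ht0 : R9_t (Finsupp.single (1 : Fin (m + 1 + 1)) 3) = 0 := by
      ext i
      simp only [R9_t, Finsupp.equivFunOnFinite_symm_apply_apply, Finsupp.coe_zero, Pi.zero_apply]
      rw [R9_s1, mul_zero]
    have : ∀ s ∈ H.support, (if s 1 = 3 then
        (monomial (R9_t s) (coeff s H) : MvPolynomial (Fin m) k) else 0) =
        if s = Finsupp.single 1 3 then C c else 0 := by
      intro s hs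
      by_cases h1 : s 1 = 3
      · rw [if_pos h1]
        have e := key s hs h1
        rw [if_pos e, e, ht0]
        rfl
      · rw [if_neg h1, if_neg]
        intro e
        apply h1
        rw [e]; simp
    rw [Finset.sum_congr rfl this, Finset.sum_ite_eq']
    by_cases hmem : Finsupp.single 1 3 ∈ H.support
    · rw [if_pos hmem]
    · rw [if_neg hmem]
      have : c = 0 := by
        simpa [c] using notMem_support_iff.1 hmem
      rw [this, map_zero]
  have hev : Polynomial.eval₂ ρ (x 1 ^ 2) f = 0 := by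
    rw [← h, hf]
    have : ((Polynomial.eval₂RingHom ρ (x 1 ^ 2)).comp (R9_phi k m)) =
        eval₂Hom (ρ.comp C) (fun i => x i ^ 2) := by
      refine MvPolynomial.ringHom_ext (fun a => ?_) (fun i => ?_)
      · simp [R9_phi]
      · refine Fin.cases ?_ (fun i => ?_) i
        · simp [R9_phi, x0]
        · refine Fin.cases ?_ (fun i => ?_) i
          · simp [R9_phi]
          · simp only [R9_phi, RingHom.comp_apply, coe_eval₂Hom, eval₂_X, Fin.cons_succ,
              Polynomial.coe_eval₂RingHom, Polynomial.eval₂_C, map_pow, hx]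
    exact congrArg (fun g => g H) this
  have hdeg : f.natDegree < 4 := by
    by_contra hn
    have h5 := h4 f.natDegree (by omega)
    rw [Polynomial.coeff_natDegree, Polynomial.leadingCoeff_eq_zero] at h5
    rw [h5] at hn
    simp at hn
  rw [Polynomial.eval₂_eq_sum_range' ρ hdeg] at hev
  simp only [Finset.sum_range_succ, Finset.sum_range_zero, h3] at hev
  have hdeg3 := R9_deg h2 hm ρ hρ x x0 hx hsum (f.coeff 0 + C c * P ^ 2) (f.coeff 2 * P)
    (f.coeff 1) (by
      simp only [map_add, map_mul, map_pow]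
      rw [← hx1]
      linear_combination hev)
  obtain ⟨g0, g2, g1⟩ := hdeg3
  have hP0 : P ≠ 0 := by
    intro hP
    apply R9_notcube hk2 hm 0
    change 0 ^ 3 = P
    rw [hP]; simp
  have g2' : f.coeff 2 = 0 := (mul_eq_zero.1 g2).resolve_right hP0
  refine ⟨c, ?_⟩
  have hhom : (C c * ∑ i, X i ^ 3 : MvPolynomial (Fin (m + 1 + 1)) k).IsHomogeneous 3 := by
    have h6 : (∑ i, X i ^ 3 : MvPolynomial (Fin (m + 1 + 1)) k).IsHomogeneous 3 :=
      IsHomogeneous.sum _ _ _ fun i _ => by
        simpa using (isHomogeneous_X k i).pow 3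
    simpa using (isHomogeneous_C (Fin (m + 1 + 1)) c).mul h6
  rw [← sub_eq_zero]
  apply R9_phi_inj _ (hH.sub hhom)
  have hΦ : R9_phi k m (C c * ∑ i, X i ^ 3) =
      Polynomial.C (C c * P ^ 2) + Polynomial.C (C c) * Polynomial.X ^ 3 := R9_phi_fermat hP2 c
  rw [map_sub, hΦ, ← hf, sub_eq_zero]
  have hf2 : f = Polynomial.C (f.coeff 0) + Polynomial.C (C c) * Polynomial.X ^ 3 := by
    conv_lhs => rw [Polynomial.as_sum_range' f 4 hdeg]
    simp only [Finset.sum_range_succ, Finset.sum_range_zero, h3, g1, g2', map_zero, zero_add,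
      add_zero, Polynomial.monomial_zero_left]
    rw [Polynomial.C_mul_X_pow_eq_monomial]
  have e5 : f.coeff 0 = C c * P ^ 2 := by
    linear_combination g0 - C c * P ^ 2 * hP2
  rw [e5] at hf2
  exact hf2

end MP2619.KC
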