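import Pool.Agent.Lib.MP_2619d0_ag.KC.R10a
import Pool.Agent.Lib.MP_2619d0_ag.KC.R9
import Pool.Agent.Lib.MP_2619d0_ag.K.K3b

/-!
Row R10: a place of odd residue degree at which the very general cubic is a generic perturbation of the
Fermat cubic in characteristic two.
-/

set_option autoImplicit false

namespace MP2619.KC

universe u

open MvPolynomial Pool.Agent.Lib.MP_2619d0_ag Pool.Agent.Lib.MP_2619d0_ag.T MP2619.K

/-- The place. -/
theorem R10_place {m : ℕ} (hm : 1 ≤ m) {F : MvPolynomial (Fin (m + 1 + 1)) ℂ} (hF : VG F)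
    {L : Type u} [Field L] [Algebra ℂ L] (χ : MvPolynomial (Fin (m + 1)) ℂ →+* L)
    (hχC : ∀ a, χ (C a) = algebraMap ℂ L a) (hχ : Gp F χ) (hodd : Odd (fd χ)) {ι : Type}
    [Finite ι] (p : ι → L) :
    ∃ (M2 : Subfield L) (O : ValuationSubring M2)
      (c g : Fin (m + 1 + 1) → Fin (m + 1 + 1) → Fin (m + 1 + 1) → O) (π : O)
      (x : Fin (m + 1 + 1) → O) (k0 : Subfield (IsLocalRing.ResidueField O)),
      (∀ i, p i ∈ M2) ∧
      (∀ i j l, ((c i j l : M2) : L) = algebraMap ℂ L (cub F i j l)) ∧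
      (∀ i, ((x i : M2) : L) = yh χ i) ∧
      Plc O c g π x k0 ∧
      (∀ z : Fin (m + 1 + 1) → O,
        (∀ i, IsLocalRing.residue O (z i) = IsLocalRing.residue O (x i)) →
        ∀ I : IntermediateField ℂ L, (∀ i, ((z i : M2) : L) ∈ I) →
        ∀ y : M2, IsAlgebraic I (y : L)) := by
  classical
  have hchar : CharZero L := charZero_of_injective_algebraMap (algebraMap ℂ L).injective
  obtain ⟨hψ, hψodd⟩ := K3_deg hF χ hχ hodd
  obtain ⟨T, hT⟩ := descend (K3_psi χ) hψodd.pos.ne' (fun o : Option ι => o.elim (χ (X 0)) p)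
  obtain ⟨δ, hδ⟩ : ∃ δ : Exp3 (m + 1 + 1) → ℤ,
    δ = fun j => if ∃ i, j.1 = Finsupp.single i 3 then 1 else 0 := ⟨_, rfl⟩
  obtain ⟨A, _, _, _, β, πA, gA, hβ, h2A, hπA, ⟨ωA, hωA⟩, hcA, hgA, hTT⟩ :=
    R8_dvr (fun j : Exp3 (m + 1 + 1) => coeff j.1 F) hF.2 δ (T.biUnion fun c => c.coeffs)
  have hden := SG4_den β T (fun c hc z hz => hTT z (Finset.mem_biUnion.mpr ⟨c, hc, hz⟩))
  obtain ⟨M2, hM2, hp, hfr⟩ := hT (MvPolynomial (Fin m) A) (MvPolynomial.map β) (by
    intro c hc
    obtain ⟨a, b, hb, hab⟩ := hden c hc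
    refine ⟨a, b, ?_, ?_⟩
    · intro h0
      exact hb (hψ (by rw [h0, map_zero]))
    · rw [← map_mul, hab])
  obtain ⟨ψ', hψ'⟩ : ∃ ψ' : MvPolynomial (Fin m) A →+* M2,
    ψ' = ((K3_psi χ).comp (MvPolynomial.map β)).codRestrict M2 hM2 := ⟨_, rfl⟩
  have hψ'v : ∀ G, (ψ' G : L) = K3_psi χ (map β G) := fun G => by rw [hψ']; rfl
  have hψ'C : ∀ a, (ψ' (C a) : L) = algebraMap ℂ L (β a) := by
    intro a
    rw [hψ'v, map_C, K3_psi_C, hχC]
  have hψ'X : ∀ i, (ψ' (X i) : L) = χ (X i.succ) := by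
    intro i
    rw [hψ'v, map_X, K3_psi_X]
  have hψ'inj : Function.Injective ψ' := by
    intro a b hab
    have h1 : K3_psi χ (map β a) = K3_psi χ (map β b) := by
      rw [← hψ'v, ← hψ'v, hab]
    exact map_injective β hβ (hψ h1)
  rw [← hψ'] at hfr
  obtain ⟨O, hO, hval, hoddO⟩ := gauss_place ψ' hψ'inj (by rw [hfr]; exact hψodd)
  obtain ⟨ρ0, hρ0⟩ : ∃ ρ0, ρ0 = (IsLocalRing.residue O).comp (ψ'.codRestrict O hO) := ⟨_, rfl⟩
  have hρ0z : ∀ G, ρ0 G = 0 ↔ ∀ d, coeff d G ∈ IsLocalRing.maximalIdeal A := by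
    intro G
    rw [← hval, ← O.valuation_lt_one_iff (⟨ψ' G, hO G⟩ : O), ← IsLocalRing.residue_eq_zero_iff, hρ0]
    rfl
  have hρ0C : ∀ a, ρ0 (C a) = 0 ↔ a ∈ IsLocalRing.maximalIdeal A := by
    intro a
    rw [hρ0z]
    constructor
    · intro h
      have h1 := h 0
      rwa [coeff_C, if_pos rfl] at h1
    · intro h d
      rw [coeff_C]
      split_ifs
      · exact h
      · exact Ideal.zero_mem _
  -- the residue map
  obtain ⟨r, hr⟩ : ∃ r : A →+* IsLocalRing.ResidueField O, r = ρ0.comp C := ⟨_, rfl⟩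
  have hloc : IsLocalHom r := by
    refine ⟨fun a ha => ?_⟩
    by_contra hna
    have h1 : a ∈ IsLocalRing.maximalIdeal A := (IsLocalRing.mem_maximalIdeal a).2 hna
    rw [← hρ0C] at h1
    rw [hr] at ha
    exact ha.ne_zero h1
  let r1 : IsLocalRing.ResidueField A →+* IsLocalRing.ResidueField O := IsLocalRing.ResidueField.lift r
  have hr1 : ∀ a, r1 (IsLocalRing.residue A a) = ρ0 (C a) := by
    intro a
    change IsLocalRing.ResidueField.lift r (IsLocalRing.residue A a) = _
    rw [IsLocalRing.ResidueField.lift_residue_apply, hr]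
    rfl
  obtain ⟨ρ1, hρ1⟩ : ∃ ρ1 : MvPolynomial (Fin m) (IsLocalRing.ResidueField A) →+*
    IsLocalRing.ResidueField O, ρ1 = eval₂Hom r1 (fun i => ρ0 (X i)) := ⟨_, rfl⟩
  have hρ1X : ∀ i, ρ1 (X i) = ρ0 (X i) := by
    intro i
    rw [hρ1, coe_eval₂Hom, eval₂_X]
  have hρ10 : ∀ G, ρ1 (map (IsLocalRing.residue A) G) = ρ0 G := by
    intro G
    have h1 : ρ1.comp (map (IsLocalRing.residue A)) = ρ0 := by
      apply MvPolynomial.ringHom_ext
      · intro a
        rw [RingHom.comp_apply, map_C, hρ1, coe_eval₂Hom, eval₂_C, hr1]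
      · intro i
        rw [RingHom.comp_apply, map_X, hρ1X]
    exact RingHom.congr_fun h1 G
  have hsurj : Function.Surjective (map (IsLocalRing.residue A) :
      MvPolynomial (Fin m) A → MvPolynomial (Fin m) (IsLocalRing.ResidueField A)) :=
    map_surjective _ IsLocalRing.residue_surjective
  have hρ1inj : Function.Injective ρ1 := by
    rw [injective_iff_map_eq_zero]
    intro P hP
    obtain ⟨G, rfl⟩ := hsurj P
    rw [hρ10, hρ0z] at hP
    ext d
    rw [coeff_map, coeff_zero, IsLocalRing.residue_eq_zero_iff]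
    exact hP d
  have hrange : Set.range ρ1 = Set.range ρ0 := by
    apply Set.Subset.antisymm
    · rintro _ ⟨P, rfl⟩
      obtain ⟨G, rfl⟩ := hsurj P
      exact ⟨G, (hρ10 G).symm⟩
    · rintro _ ⟨G, rfl⟩
      exact ⟨_, hρ10 G⟩
  have hodd1 : Odd (Module.finrank (Subfield.closure (Set.range ρ1))
      (IsLocalRing.ResidueField O)) := by
    rw [hrange, hρ0]
    exact hoddO
  have h2res : (2 : IsLocalRing.ResidueField O) = 0 := by
    have h1 := (hρ0C 2).2 h2A
    have h2 : (C (2 : A) : MvPolynomial (Fin m) A) = 2 := map_ofNat C 2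
    rw [h2, map_ofNat] at h1
    exact h1
  have hinf : Infinite (IsLocalRing.ResidueField O) := by
    have : Nonempty (Fin m) := ⟨⟨0, hm⟩⟩
    exact Infinite.of_injective ρ1 hρ1inj
  -- coefficients
  have hdeg : ∀ i j k : Fin (m + 1 + 1), (Finsupp.single i 1 + Finsupp.single j 1 +
      Finsupp.single k 1 : Fin (m + 1 + 1) →₀ ℕ).degree = 3 := by
    intro i j k
    simp [map_add]
  obtain ⟨ex, hex⟩ : ∃ ex : Fin (m + 1 + 1) → Fin (m + 1 + 1) → Fin (m + 1 + 1) →
    Exp3 (m + 1 + 1), ∀ i j k, ex i j k =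
      ⟨Finsupp.single i 1 + Finsupp.single j 1 + Finsupp.single k 1, hdeg i j k⟩ :=
    ⟨_, fun _ _ _ => rfl⟩
  obtain ⟨ιO, hιO⟩ : ∃ ιO : A →+* O, ιO = (ψ'.codRestrict O hO).comp C := ⟨_, rfl⟩
  have hιL : ∀ a, ((ιO a : M2) : L) = algebraMap ℂ L (β a) := by
    intro a
    rw [hιO]
    exact hψ'C a
  have hιr : ∀ a, IsLocalRing.residue O (ιO a) = r1 (IsLocalRing.residue A a) := by
    intro a
    rw [hr1, hιO, hρ0]
    rfl
  obtain ⟨g, hg⟩ : ∃ g : Fin (m + 1 + 1) → Fin (m + 1 + 1) → Fin (m + 1 + 1) → O, ∀ i j k,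
      g i j k = if i ≤ j ∧ j ≤ k then ιO (gA (ex i j k)) else 0 := ⟨_, fun _ _ _ => rfl⟩
  obtain ⟨c, hc⟩ : ∃ c : Fin (m + 1 + 1) → Fin (m + 1 + 1) → Fin (m + 1 + 1) → O, ∀ i j k,
      c i j k = (if i = j ∧ j = k then 1 else 0) + ιO πA * g i j k := ⟨_, fun _ _ _ => rfl⟩
  have hπO : (ιO πA) ^ 2 = 2 := by
    rw [← map_pow, hπA, map_ofNat]
  have hπr : IsLocalRing.residue O (ιO πA) = 0 := by
    have h1 := congrArg (IsLocalRing.residue O) hπO
    rw [map_pow, map_ofNat, h2res] at h1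
    exact pow_eq_zero_iff (two_ne_zero) |>.1 h1
  have hcL : ∀ i j l, ((c i j l : M2) : L) = algebraMap ℂ L (cub F i j l) := by
    intro i j k
    rw [hc, hg]
    unfold cub
    by_cases h : i ≤ j ∧ j ≤ k
    · rw [if_pos h, if_pos h]
      have h3 := hcA (ex i j k)
      have h4 : coeff (ex i j k).1 F =
          coeff (Finsupp.single i 1 + Finsupp.single j 1 + Finsupp.single k 1) F := by
        rw [hex]
      rw [← h4, ← h3, ← hιL, map_add, map_mul]
      congr 2
      have h5 : ((if i = j ∧ j = k then 1 else 0 : O)) = ιO ((δ (ex i j k) : ℤ) : A) := by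
        rw [map_intCast, hδ]
        simp only
        by_cases h2 : i = j ∧ j = k
        · rw [if_pos h2, if_pos, Int.cast_one]
          obtain ⟨rfl, rfl⟩ := h2
          refine ⟨i, ?_⟩
          rw [hex]
          change (Finsupp.single i 1 + Finsupp.single i 1 + Finsupp.single i 1 :
            Fin (m + 1 + 1) →₀ ℕ) = _
          rw [← Finsupp.single_add, ← Finsupp.single_add]
        · rw [if_neg h2, if_neg, Int.cast_zero]
          rintro ⟨l, hl⟩
          rw [hex] at hl
          exact h2 (V1_sum_single i j k l hl)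
      rw [h5]
    · rw [if_neg h, if_neg h, map_zero, mul_zero, add_zero, if_neg]
      · rfl
      · rintro ⟨rfl, rfl⟩
        exact h ⟨le_refl _, le_refl _⟩
  have hcr : ∀ i j l, IsLocalRing.residue O (c i j l) = if i = j ∧ j = l then 1 else 0 := by
    intro i j k
    rw [hc, map_add, map_mul, hπr, zero_mul, add_zero]
    split_ifs
    · exact map_one _
    · exact map_zero _
  -- genericity
  have hgenJ : ∀ P : MvPolynomial (Exp3 (m + 1 + 1)) ℤ,
      aeval (fun j => r1 (IsLocalRing.residue A (gA j))) P = 0 → ∀ d, (2 : ℤ) ∣ coeff d P := by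
    intro P hP
    apply hgA P
    apply r1.injective
    rw [map_zero, ← hP, aeval_def, aeval_def, hom_eval₂]
    congr 1
    exact RingHom.ext_int _ _
  -- the point
  obtain ⟨xM, hxMd⟩ : ∃ xM : Fin (m + 1 + 1) → M2,
    xM = Fin.cons 1 (Fin.cons ⟨χ (X 0), hp none⟩ (fun i => ψ' (X i))) := ⟨_, rfl⟩
  have hxM0 : xM 0 = 1 := by rw [hxMd, Fin.cons_zero]
  have hxM2 : ∀ i : Fin m, xM i.succ.succ = ψ' (X i) := by
    intro i
    rw [hxMd, Fin.cons_succ, Fin.cons_succ]
  have hxML : ∀ i, (xM i : L) = yh χ i := by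
    intro i
    rw [hxMd]
    unfold yh
    refine Fin.cases ?_ (fun i => ?_) i
    · rw [Fin.cons_zero, Fin.cons_zero]
      rfl
    · rw [Fin.cons_succ, Fin.cons_succ]
      refine Fin.cases ?_ (fun i => ?_) i
      · rw [Fin.cons_zero]
      · rw [Fin.cons_succ, hψ'X]
  have hF0 : Fc (cm O.subtype c) xM = 0 := by
    apply Subtype.ext
    have h1 : Fc (cm M2.subtype (cm O.subtype c)) (fun i => (xM i : L)) =
        ((Fc (cm O.subtype c) xM : M2) : L) := Fc_cm M2.subtype xM
    have h2 : cm M2.subtype (cm O.subtype c) = cc F χ := by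
      funext i j k
      change ((c i j k : M2) : L) = χ (C (cub F i j k))
      rw [hcL, hχC]
    have h3 : (fun i => (xM i : L)) = yh χ := funext hxML
    rw [h2, h3, ← chi_dh hF.1 χ, (hχ _).2 dvd_rfl] at h1
    exact h1.symm
  have hxO2 : ∀ i : Fin (m + 1 + 1), i ≠ 1 → xM i ∈ O := by
    intro i
    refine Fin.cases ?_ (fun i => ?_) i
    · intro _
      rw [hxM0]
      exact O.one_mem
    · refine Fin.cases ?_ (fun i => ?_) i
      · intro h
        exact absurd rfl h
      · intro _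
        rw [hxM2]
        exact hO _
  have hξ : xM 1 ∈ O := by
    by_contra hnot
    have hinv : (xM 1)⁻¹ ∈ O := (O.mem_or_inv_mem _).resolve_left hnot
    have hx1 : xM 1 ≠ 0 := by
      intro h
      apply hnot
      rw [h]
      exact O.zero_mem
    have hres0 : IsLocalRing.residue O ⟨(xM 1)⁻¹, hinv⟩ = 0 := by
      rw [IsLocalRing.residue_eq_zero_iff, IsLocalRing.mem_maximalIdeal, mem_nonunits_iff]
      rintro ⟨u, hu⟩
      apply hnot
      have h1 : ((u : O) : M2) * (((u⁻¹ : Oˣ) : O) : M2) = 1 := by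
        have h2 : ((u : O) * ((u⁻¹ : Oˣ) : O) : O) = 1 := Units.mul_inv u
        exact congrArg Subtype.val h2
      rw [hu] at h1
      have h2 : (((u⁻¹ : Oˣ) : O) : M2) = xM 1 := by
        have h3 : (xM 1)⁻¹ * (((u⁻¹ : Oˣ) : O) : M2) = 1 := h1
        field_simp at h3
        exact h3
      rw [← h2]
      exact (((u⁻¹ : Oˣ) : O)).2
    let w : Fin (m + 1 + 1) → O := fun i => if h : i = 1 then 1 else
      ⟨(xM 1)⁻¹, hinv⟩ * ⟨xM i, hxO2 i h⟩
    have hw : (fun i => (w i : M2)) = (xM 1)⁻¹ • xM := by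
      funext i
      by_cases h : i = 1
      · simp only [w]
        rw [dif_pos h, h, Pi.smul_apply, smul_eq_mul, inv_mul_cancel₀ hx1]
        rfl
      · simp only [w]
        rw [dif_neg h]
        rfl
    have hFw : Fc c w = 0 := by
      apply Subtype.ext
      have h1 : Fc (cm O.subtype c) (fun i => (w i : M2)) = ((Fc c w : O) : M2) := Fc_cm O.subtype w
      rw [hw, Fc_smul, hF0, mul_zero] at h1
      exact h1.symm
    have h2 := congrArg (IsLocalRing.residue O) hFw
    rw [map_zero, ← Fc_cm, A4_Fc (cm (IsLocalRing.residue O) c) hcr, Finset.sum_eq_single 1] at h2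
    · have hw1 : w 1 = 1 := dif_pos rfl
      rw [hw1, map_one, one_pow] at h2
      exact one_ne_zero h2
    · intro i _ hi
      simp only [w]
      rw [dif_neg hi, map_mul, hres0, zero_mul, zero_pow (by norm_num)]
    · intro h
      exact absurd (Finset.mem_univ _) h
  have hxO : ∀ i, xM i ∈ O := by
    intro i
    by_cases h : i = 1
    · rw [h]
      exact hξ
    · exact hxO2 i h
  obtain ⟨x, hx⟩ : ∃ x : Fin (m + 1 + 1) → O, ∀ i, (x i : M2) = xM i :=
    ⟨fun i => ⟨xM i, hxO i⟩, fun _ => rfl⟩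
  have hx0 : IsLocalRing.residue O (x 0) = 1 := by
    have h1 : x 0 = 1 := Subtype.ext ((hx 0).trans hxM0)
    rw [h1, map_one]
  have hx2 : ∀ i : Fin m, x i.succ.succ = (ψ'.codRestrict O hO) (X i) := fun i =>
    Subtype.ext ((hx _).trans (hxM2 i))
  have hx2' : ∀ i : Fin m, IsLocalRing.residue O (x i.succ.succ) = ρ1 (X i) := by
    intro i
    rw [hx2, hρ1X, hρ0]
    rfl
  have hsum : ∑ i, IsLocalRing.residue O (x i) ^ 3 = 0 := by
    have h1 : Fc c x = 0 := by
      apply Subtype.ext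
      have h1 : Fc (cm O.subtype c) (fun i => (x i : M2)) = ((Fc c x : O) : M2) := Fc_cm O.subtype x
      rw [funext hx, hF0] at h1
      exact h1.symm
    have h2 := congrArg (IsLocalRing.residue O) h1
    rwa [map_zero, ← Fc_cm, A4_Fc (cm (IsLocalRing.residue O) c) hcr] at h2
  have hx0' : x 0 = 1 := Subtype.ext ((hx 0).trans hxM0)
  have hP : ∀ w : Fin (m + 1 + 1) → IsLocalRing.ResidueField O,
      ∑ i, w i ^ 2 * IsLocalRing.residue O (x i) = 0 →
        w = w 0 • fun i => IsLocalRing.residue O (x i) := by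
    intro w hw
    exact K2_P1 h2res ρ1 hρ1inj hodd1 (fun i => IsLocalRing.residue O (x i)) hx0 hx2' hsum w hw
  have hρ1C : ∀ a, ρ1 (C a) = r1 a := by
    intro a
    rw [hρ1, coe_eval₂Hom, eval₂_C]
  refine ⟨M2, O, c, g, ιO πA, x, r1.fieldRange, fun i => hp (some i), hcL, ?_, ?_, ?_⟩
  · intro i
    rw [hx, hxML]
  · refine ⟨h2res, hinf, hπO, hc, ?_, hx0', ?_, hP, ?_, ?_, ?_, ?_, ?_, ?_⟩
    · intro i j l h
      rw [hg, if_neg h]
    · -- the first coordinate is not zero
      intro h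
      have h1 := hP (Pi.single 1 1) (by
        rw [Finset.sum_eq_single 1]
        · rw [h, mul_zero]
        · intro i _ hi
          rw [Pi.single_eq_of_ne hi, zero_pow (by norm_num), zero_mul]
        · intro h
          exact absurd (Finset.mem_univ _) h)
      have h2 := congrFun h1 1
      rw [Pi.single_eq_same, Pi.smul_apply, h, smul_zero] at h2
      exact one_ne_zero h2
    · -- the field of four elements
      intro a ha
      have h1 : r1 (IsLocalRing.residue A ωA) ^ 2 + r1 (IsLocalRing.residue A ωA) + 1 = 0 := by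
        rw [← map_pow, ← map_pow, ← map_add, ← map_add, ← map_one r1, ← map_add,
          ← map_one (IsLocalRing.residue A), ← map_add, hωA, map_zero, map_zero]
      rcases R10_four _ h1 a ha with h | h | h | h
      · rw [h]
        exact Subfield.zero_mem _
      · rw [h]
        exact Subfield.one_mem _
      · rw [h]
        exact ⟨_, rfl⟩
      · rw [h]
        exact Subfield.pow_mem r1.fieldRange (RingHom.mem_fieldRange_self r1 _) 2
    · intro i j l
      rw [hg]
      split_ifs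
      · rw [hιr]
        exact ⟨_, rfl⟩
      · rw [map_zero]
        exact Subfield.zero_mem _
    · -- genericity
      intro s hs hsum0
      obtain ⟨J, hJ⟩ : ∃ J : Type, J = {t : Fin (m + 1 + 1) × Fin (m + 1 + 1) ×
        Fin (m + 1 + 1) // t.1 ≤ t.2.1 ∧ t.2.1 ≤ t.2.2} := ⟨_, rfl⟩
      have hinj : Function.Injective (fun t : {t : Fin (m + 1 + 1) × Fin (m + 1 + 1) ×
          Fin (m + 1 + 1) // t.1 ≤ t.2.1 ∧ t.2.1 ≤ t.2.2} => ex t.1.1 t.1.2.1 t.1.2.2) := by
        intro t t' htt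
        simp only [hex] at htt
        obtain ⟨h1, h2, h3⟩ := R10_sorted t.2.1 t.2.2 t'.2.1 t'.2.2 (congrArg Subtype.val htt)
        apply Subtype.ext
        exact Prod.ext h1 (Prod.ext h2 h3)
      have h1 := R8_lin h2res (fun t : {t : Fin (m + 1 + 1) × Fin (m + 1 + 1) ×
          Fin (m + 1 + 1) // t.1 ≤ t.2.1 ∧ t.2.1 ≤ t.2.2} =>
            r1 (IsLocalRing.residue A (gA (ex t.1.1 t.1.2.1 t.1.2.2)))) (by
        intro P hPP d
        have h3 := hgenJ (rename (fun t : {t : Fin (m + 1 + 1) × Fin (m + 1 + 1) ×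
          Fin (m + 1 + 1) // t.1 ≤ t.2.1 ∧ t.2.1 ≤ t.2.2} => ex t.1.1 t.1.2.1 t.1.2.2) P) (by
            rw [aeval_rename]
            exact hPP)
        have h4 := h3 (Finsupp.mapDomain (fun t : {t : Fin (m + 1 + 1) × Fin (m + 1 + 1) ×
          Fin (m + 1 + 1) // t.1 ≤ t.2.1 ∧ t.2.1 ≤ t.2.2} => ex t.1.1 t.1.2.1 t.1.2.2) d)
        rwa [coeff_rename_mapDomain _ hinj] at h4) (fun t => s t.1.1 t.1.2.1 t.1.2.2)
        (fun t => hs _ _ _) (by
          rw [← hsum0]
          have h3 : ∀ t : {t : Fin (m + 1 + 1) × Fin (m + 1 + 1) ×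
              Fin (m + 1 + 1) // t.1 ≤ t.2.1 ∧ t.2.1 ≤ t.2.2},
              s t.1.1 t.1.2.1 t.1.2.2 * r1 (IsLocalRing.residue A (gA (ex t.1.1 t.1.2.1 t.1.2.2))) =
              s t.1.1 t.1.2.1 t.1.2.2 * IsLocalRing.residue O (g t.1.1 t.1.2.1 t.1.2.2) := by
            intro t
            rw [hg, if_pos t.2, hιr]
          rw [Finset.sum_congr rfl fun t _ => h3 t]
          have h4 : ∑ i, ∑ j, ∑ l, s i j l * IsLocalRing.residue O (g i j l) =
              ∑ t : Fin (m + 1 + 1) × Fin (m + 1 + 1) × Fin (m + 1 + 1),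
                s t.1 t.2.1 t.2.2 * IsLocalRing.residue O (g t.1 t.2.1 t.2.2) := by
            rw [Fintype.sum_prod_type]
            refine Finset.sum_congr rfl fun i _ => ?_
            rw [Fintype.sum_prod_type]
          rw [h4]
          refine Finset.sum_bij_ne_zero (fun t _ _ => t.1) ?_ ?_ ?_ ?_
          · intro t _ _
            exact Finset.mem_univ _
          · intro t _ _ t' _ _ h
            exact Subtype.ext h
          · intro t _ ht
            by_cases h : t.1 ≤ t.2.1 ∧ t.2.1 ≤ t.2.2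
            · exact ⟨⟨t, h⟩, Finset.mem_univ _, ht, rfl⟩
            · exfalso
              apply ht
              rw [hg, if_neg h, map_zero, mul_zero]
          · intro t _ _
            rfl)
      intro i j l hij hjl
      exact h1 ⟨(i, j, l), hij, hjl⟩
    · -- linear independence of the squares
      intro a ha h
      choose a' ha' using ha
      have h1 := R9_lin h2res hm ρ1 hρ1inj (fun i => IsLocalRing.residue O (x i)) hx0 hx2' hsum a' (by
        rw [← h]
        refine Finset.sum_congr rfl fun i _ => ?_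
        rw [hρ1C, ha'])
      intro i
      rw [← ha', h1, Pi.zero_apply, map_zero]
    · -- cubic forms
      intro h hk hcub
      choose h' hh' using hk
      obtain ⟨H, hH⟩ : ∃ H : MvPolynomial (Fin (m + 1 + 1)) (IsLocalRing.ResidueField A),
        H = ∑ i, ∑ j, ∑ l, C (h' i j l) * (X i * X j * X l) := ⟨_, rfl⟩
      have hHhom : H.IsHomogeneous 3 := by
        rw [hH]
        refine IsHomogeneous.sum _ _ _ fun i _ => IsHomogeneous.sum _ _ _ fun j _ =>
          IsHomogeneous.sum _ _ _ fun l _ => ?_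
        have h3 := (isHomogeneous_C (Fin (m + 1 + 1)) (h' i j l)).mul
          (((isHomogeneous_X (IsLocalRing.ResidueField A) i).mul
            (isHomogeneous_X (IsLocalRing.ResidueField A) j)).mul
            (isHomogeneous_X (IsLocalRing.ResidueField A) l))
        exact h3
      have hHe : ∀ z : Fin (m + 1 + 1) → IsLocalRing.ResidueField O,
          eval₂ r1 z H = Fc h z := by
        intro z
        rw [hH]
        simp only [eval₂_sum, eval₂_mul, eval₂_C, eval₂_X]
        unfold Fc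
        refine Finset.sum_congr rfl fun i _ => Finset.sum_congr rfl fun j _ =>
          Finset.sum_congr rfl fun l _ => ?_
        rw [hh']
      have hρC : ρ1.comp C = r1 := RingHom.ext hρ1C
      obtain ⟨e, he⟩ := R9_cubic h2res hm ρ1 hρ1inj (fun i => IsLocalRing.residue O (x i)) hx0
        hx2' hsum H hHhom (by rw [hρC, hHe]; exact hcub)
      refine ⟨r1 e, fun z => ?_⟩
      rw [← hHe, he, eval₂_mul, eval₂_C, eval₂_sum]
      simp only [eval₂_pow, eval₂_X]
    · -- derivations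
      intro j
      obtain ⟨D0, hD1, hD2⟩ := R10_der h2res ρ1 hρ1inj hodd1 j
      obtain ⟨D, hD⟩ := R10_conv _ (IsLocalRing.ResidueField.algebra O) D0
      refine ⟨D, ?_, ?_⟩
      · intro i
        rw [hx2', hD, hD1]
      · rintro a ⟨b, rfl⟩
        rw [← hρ1C, hD, hD2]
  · intro z hz I hI y
    refine K3_trans β M2 ψ' hψ'inj hψ'C ?_ O hO hval (fun i => z i.succ.succ) ?_ I
      (fun i => hI _) y
    · rw [hfr]
      exact hψodd.pos.ne'
    · intro i
      rw [hz, hx2]

end MP2619.KC
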