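import Pool.Agent.Lib.MP_2619d0_ag.K.K1

/-! Row R8: discrete valuation rings of residue characteristic two in the field of complex numbers,
ramified over `2`, over which given algebraically independent numbers are generic. -/

set_option autoImplicit false

namespace MP2619.KC

open MvPolynomial MP2619.K

theorem R8_indep {J : Type} (a : J → ℂ) (ha : AlgebraicIndependent ℚ a) (δ : J → ℤ) (π : ℂ)
    (hπ : π ^ 2 = 2) : AlgebraicIndependent ℤ (fun j => (a j - δ j) / π) := by
  have hπ0 : π ≠ 0 := by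
    rintro rfl
    norm_num at hπ
  let S : IntermediateField ℚ ℂ := algebraicClosure ℚ ℂ
  have halg : IsAlgebraic ℚ π := by
    refine ⟨Polynomial.X ^ 2 - Polynomial.C 2, ?_, ?_⟩
    · exact Polynomial.X_pow_sub_C_ne_zero (by norm_num) _
    · simp [hπ]
  have hπS : π ∈ S := mem_algebraicClosure_iff.2 halg
  let πS : S := ⟨π, hπS⟩
  have hπS0 : πS ≠ 0 := by
    intro h
    exact hπ0 (congrArg Subtype.val h)
  have haS : AlgebraicIndependent S a := ha.algebraicClosure
  have h1 : AlgebraicIndependent S (fun j => (a j - δ j) / π) := by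
    let s : MvPolynomial J S →ₐ[S] MvPolynomial J S :=
      aeval fun j => C (πS⁻¹) * (X j - C (δ j : S))
    let s' : MvPolynomial J S →ₐ[S] MvPolynomial J S :=
      aeval fun j => C πS * X j + C (δ j : S)
    have hss : s'.comp s = AlgHom.id S _ := by
      apply MvPolynomial.algHom_ext
      intro j
      simp only [s, s', AlgHom.comp_apply, aeval_X, map_mul, map_sub, algHom_C, AlgHom.id_apply,
        algebraMap_eq]
      rw [add_sub_cancel_right, ← mul_assoc, ← C_mul, inv_mul_cancel₀ hπS0, C_1, one_mul]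
    have hs : Function.Injective s := by
      intro p q hpq
      have h2 := congrArg s' hpq
      rw [← AlgHom.comp_apply, ← AlgHom.comp_apply, hss] at h2
      exact h2
    have h3 : (aeval (fun j => (a j - δ j) / π) : MvPolynomial J S →ₐ[S] ℂ) =
        (aeval a).comp s := by
      apply MvPolynomial.algHom_ext
      intro j
      simp only [s, AlgHom.comp_apply, aeval_X, map_mul, map_sub, algHom_C]
      have e1 : algebraMap S ℂ πS⁻¹ = π⁻¹ := rfl
      have e2 : algebraMap S ℂ (δ j : S) = (δ j : ℂ) := map_intCast _ _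
      rw [e1, e2]
      rw [div_eq_mul_inv, mul_comm]
    unfold AlgebraicIndependent
    rw [h3]
    exact Function.Injective.comp (g := (aeval a : MvPolynomial J S →ₐ[S] ℂ)) haS hs
  exact h1.restrictScalars (R := ℤ) (K := S) (by
    intro x y hxy
    have h2 : ((x : S) : ℂ) = ((y : S) : ℂ) := congrArg Subtype.val hxy
    push_cast at h2
    exact_mod_cast h2)

/-- A square root of an element of a discrete valuation ring. -/
theorem R8_root {A : Type} [CommRing A] [IsDomain A] [IsDiscreteValuationRing A] (β : A →+* ℂ)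
    (hβ : Function.Injective β) (π : ℂ) (d : A) (hπ : π ^ 2 = β d)
    (h : ∃ a b : A, β b ≠ 0 ∧ π * β b = β a) : ∃ p : A, β p = π ∧ p ^ 2 = d := by
  obtain ⟨a, b, hb, hab⟩ := h
  have h1 : a ^ 2 = d * b ^ 2 := by
    apply hβ
    rw [map_mul, map_pow, map_pow, ← hab, ← hπ]
    ring
  have h2 : b ^ 2 ∣ a ^ 2 := ⟨d, by rw [h1, mul_comm]⟩
  obtain ⟨p, hp⟩ := (IsIntegrallyClosed.pow_dvd_pow_iff (by norm_num)).1 h2
  have h3 : β p = π := by
    apply mul_right_cancel₀ hb
    rw [hab, hp, map_mul, mul_comm]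
  refine ⟨p, h3, hβ ?_⟩
  rw [map_pow, h3, hπ]

/-- The discrete valuation ring. -/
theorem R8_dvr {J : Type} (a : J → ℂ) (ha : AlgebraicIndependent ℚ a) (δ : J → ℤ)
    (T : Finset ℂ) :
    ∃ (A : Type) (_ : CommRing A) (_ : IsDomain A) (_ : IsDiscreteValuationRing A)
      (β : A →+* ℂ) (π : A) (g : J → A), Function.Injective β ∧
      (2 : A) ∈ IsLocalRing.maximalIdeal A ∧ π ^ 2 = 2 ∧ (∃ ω : A, ω ^ 2 + ω + 1 = 0) ∧
      (∀ j, β ((δ j : A) + π * g j) = a j) ∧
      (∀ P : MvPolynomial J ℤ, aeval (fun j => IsLocalRing.residue A (g j)) P = 0 →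
        ∀ d, (2 : ℤ) ∣ coeff d P) ∧
      ∀ c ∈ T, ∃ a b : A, β b ≠ 0 ∧ c * β b = β a := by
  classical
  obtain ⟨π, hπ⟩ : ∃ π : ℂ, π ^ 2 = 2 := IsAlgClosed.exists_pow_nat_eq 2 (by norm_num)
  obtain ⟨i3, hi3⟩ : ∃ i3 : ℂ, i3 ^ 2 = -3 := IsAlgClosed.exists_pow_nat_eq (-3) (by norm_num)
  obtain ⟨w, hw⟩ : ∃ w : ℂ, w = (-1 + i3) / 2 := ⟨_, rfl⟩
  have hw1 : w ^ 2 + w + 1 = 0 := by
    rw [hw]
    linear_combination hi3 / 4
  have hπ0 : π ≠ 0 := by
    rintro rfl
    norm_num at hπ
  obtain ⟨a', ha'⟩ : ∃ a' : J → ℂ, a' = fun j => (a j - δ j) / π := ⟨_, rfl⟩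
  have hind : AlgebraicIndependent ℤ a' := ha' ▸ R8_indep a ha δ π hπ
  obtain ⟨t, ht1, ht2⟩ := exists_isTranscendenceBasis_superset hind.to_subtype_range
  let e : MvPolynomial t ℤ →+* ℂ := (aeval ((↑) : t → ℂ) : MvPolynomial t ℤ →ₐ[ℤ] ℂ).toRingHom
  have he : Function.Injective e := ht2.1
  have hp : Prime (C 2 : MvPolynomial t ℤ) :=
    (MvPolynomial.prime_C_iff t).mpr Int.prime_two
  have hpp : (Ideal.span {(C 2 : MvPolynomial t ℤ)}).IsPrime :=
    (Ideal.span_singleton_prime hp.ne_zero).mpr hp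
  have hle : (Ideal.span {(C 2 : MvPolynomial t ℤ)}).primeCompl ≤ nonZeroDivisors _ :=
    Ideal.primeCompl_le_nonZeroDivisors _
  have hdom : IsDomain (Localization.AtPrime (Ideal.span {(C 2 : MvPolynomial t ℤ)})) :=
    IsLocalization.isDomain_localization hle
  have hdvr : IsDiscreteValuationRing
      (Localization.AtPrime (Ideal.span {(C 2 : MvPolynomial t ℤ)})) := K1_loc _ hp hpp
  have hunit : ∀ y : (Ideal.span {(C 2 : MvPolynomial t ℤ)}).primeCompl, IsUnit (e y) := by
    intro y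
    refine isUnit_iff_ne_zero.2 fun h => ?_
    rw [map_eq_zero_iff _ he] at h
    exact y.2 (h ▸ Ideal.zero_mem _)
  let φ : Localization.AtPrime (Ideal.span {(C 2 : MvPolynomial t ℤ)}) →+* ℂ :=
    IsLocalization.lift hunit
  have hφ1 : ∀ g, φ (algebraMap _ _ g) = e g := fun g => IsLocalization.lift_eq hunit g
  have hlinj : Function.Injective (algebraMap (MvPolynomial t ℤ)
      (Localization.AtPrime (Ideal.span {(C 2 : MvPolynomial t ℤ)}))) :=
    IsLocalization.injective _ hle
  have hφ : Function.Injective φ := by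
    rw [IsLocalization.lift_injective_iff]
    exact fun x y => ⟨fun h => by rw [hlinj h], fun h => by rw [he h]⟩
  obtain ⟨A, i1, i2, i3', α, β, hβ, hαβ, hmax, hT⟩ := K1_ext φ hφ (by
    intro c
    have h1 := ht2.isAlgebraic
    have h2 : IsAlgebraic (Algebra.adjoin ℤ (Set.range ((↑) : t → ℂ))) c := h1.isAlgebraic c
    obtain ⟨p, hp0, hpc⟩ := h2
    let ε : Algebra.adjoin ℤ (Set.range ((↑) : t → ℂ)) ≃ₐ[ℤ] MvPolynomial t ℤ :=
      ht2.1.aevalEquiv.symm
    let θ : Algebra.adjoin ℤ (Set.range ((↑) : t → ℂ)) →+*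
        Localization.AtPrime (Ideal.span {(C 2 : MvPolynomial t ℤ)}) :=
      (algebraMap (MvPolynomial t ℤ) _).comp (ε : _ →+* MvPolynomial t ℤ)
    have hθ : Function.Injective θ := hlinj.comp ε.injective
    refine ⟨p.map θ, (Polynomial.map_ne_zero_iff hθ).2 hp0, ?_⟩
    rw [Polynomial.eval₂_map]
    have h3 : φ.comp θ = algebraMap (Algebra.adjoin ℤ (Set.range ((↑) : t → ℂ))) ℂ := by
      refine RingHom.ext fun z => ?_
      have h4 : φ (θ z) = e (ε z) := hφ1 (ε z)
      rw [RingHom.comp_apply, h4]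
      obtain ⟨q, rfl⟩ := ht2.1.aevalEquiv.surjective z
      change e (ht2.1.aevalEquiv.symm (ht2.1.aevalEquiv q)) = _
      rw [AlgEquiv.symm_apply_apply]
      exact (ht2.1.algebraMap_aevalEquiv q).symm
    rw [h3]
    exact hpc) (insert π (insert w T))
  have h2α : α (algebraMap (MvPolynomial t ℤ) _ (C 2)) = 2 :=
    (congrArg (fun z => α (algebraMap (MvPolynomial t ℤ)
      (Localization.AtPrime (Ideal.span {(C 2 : MvPolynomial t ℤ)})) z))
      (map_ofNat C 2 : (C 2 : MvPolynomial t ℤ) = 2)).trans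
      (map_ofNat (α.comp (algebraMap (MvPolynomial t ℤ) _)) 2)
  have h2max : (2 : A) ∈ IsLocalRing.maximalIdeal A := by
    have h1 : α (algebraMap (MvPolynomial t ℤ) _ (C 2)) ∈ IsLocalRing.maximalIdeal A := by
      apply hmax
      exact (IsLocalization.AtPrime.to_map_mem_maximal_iff _ _ _).2
        (Ideal.mem_span_singleton_self _)
    rwa [h2α] at h1
  obtain ⟨πA, hπA, hπA2⟩ := R8_root β hβ π 2 (by rw [hπ, map_ofNat])
    (hT π (Finset.mem_insert_self _ _))
  have hj : ∀ j, a' j ∈ t := fun j => ht1 ⟨j, rfl⟩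
  refine ⟨A, i1, i2, i3', β, πA, fun j => α (algebraMap (MvPolynomial t ℤ) _ (X ⟨a' j, hj j⟩)),
    hβ, h2max, hπA2, ?_, ?_, ?_, fun c hc => hT c (Finset.mem_insert_of_mem
      (Finset.mem_insert_of_mem hc))⟩
  · -- a primitive cube root of unity
    obtain ⟨p, q, hq, hpq⟩ := hT w (Finset.mem_insert_of_mem (Finset.mem_insert_self _ _))
    have h3 : p ^ 2 + p * q + q ^ 2 = 0 := by
      apply hβ
      rw [map_add, map_add, map_pow, map_mul, map_pow, map_zero, ← hpq]
      linear_combination β q ^ 2 * hw1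
    have hq0 : q ≠ 0 := by
      rintro rfl
      exact hq (map_zero β)
    rcases ValuationRing.dvd_total q p with h5 | h5
    · obtain ⟨c, rfl⟩ := h5
      refine ⟨c, (mul_eq_zero.1 ?_).resolve_left (pow_ne_zero 2 hq0)⟩
      linear_combination h3
    · obtain ⟨c, rfl⟩ := h5
      have hp0 : p ≠ 0 := by
        rintro rfl
        exact hq0 (zero_mul c)
      refine ⟨c, (mul_eq_zero.1 ?_).resolve_left (pow_ne_zero 2 hp0)⟩
      linear_combination h3
  · intro j
    have h1 : β (α (algebraMap (MvPolynomial t ℤ) _ (X ⟨a' j, hj j⟩))) = a' j := by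
      rw [hαβ, hφ1]
      change (aeval ((↑) : t → ℂ) : MvPolynomial t ℤ →ₐ[ℤ] ℂ) (X ⟨a' j, hj j⟩) = _
      rw [aeval_X]
    change β ((δ j : A) + πA * α (algebraMap (MvPolynomial t ℤ) _ (X ⟨a' j, hj j⟩))) = _
    rw [map_add, map_mul, h1, map_intCast, ha', hπA]
    field_simp
    ring
  · intro P hP d
    have hjinj : Function.Injective (fun j => (⟨a' j, hj j⟩ : t)) := by
      intro j j' hjj
      exact hind.injective (congrArg Subtype.val hjj)
    obtain ⟨P', hP'⟩ : ∃ P' : MvPolynomial t ℤ, P' = rename (fun j => (⟨a' j, hj j⟩ : t)) P :=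
      ⟨_, rfl⟩
    let ψ : MvPolynomial t ℤ →+* IsLocalRing.ResidueField A :=
      ((IsLocalRing.residue A).comp α).comp (algebraMap (MvPolynomial t ℤ) _)
    have h1 : ψ P' = 0 := by
      rw [← hP, hP']
      have h2 : (ψ.comp (rename (fun j => (⟨a' j, hj j⟩ : t)) :
          MvPolynomial J ℤ →ₐ[ℤ] MvPolynomial t ℤ).toRingHom) =
          (aeval (fun j => IsLocalRing.residue A
            (α (algebraMap (MvPolynomial t ℤ) _ (X ⟨a' j, hj j⟩)))) :
            MvPolynomial J ℤ →ₐ[ℤ] IsLocalRing.ResidueField A).toRingHom := by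
        apply MvPolynomial.ringHom_ext
        · intro r
          simp
        · intro j
          change ψ (rename _ (X j)) = (aeval _ : MvPolynomial J ℤ →ₐ[ℤ] _) (X j)
          rw [rename_X, aeval_X]
          rfl
      exact RingHom.congr_fun h2 P
    have h2 : P' ∈ Ideal.span {(C 2 : MvPolynomial t ℤ)} := by
      by_contra hcon
      have h3 : IsUnit (algebraMap (MvPolynomial t ℤ)
          (Localization.AtPrime (Ideal.span {(C 2 : MvPolynomial t ℤ)})) P') :=
        IsLocalization.map_units (Localization.AtPrime (Ideal.span {(C 2 : MvPolynomial t ℤ)}))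
          (⟨P', hcon⟩ : (Ideal.span {(C 2 : MvPolynomial t ℤ)}).primeCompl)
      have h4 := (h3.map α).map (IsLocalRing.residue A)
      rw [isUnit_iff_ne_zero] at h4
      exact h4 h1
    have h3 := Ideal.mem_span_singleton.1 h2
    have h4 := (C_dvd_iff_dvd_coeff 2 P').1 h3 (Finsupp.mapDomain (fun j => (⟨a' j, hj j⟩ : t)) d)
    rwa [hP', coeff_rename_mapDomain _ hjinj] at h4

/-- elements which are algebraically independent over the prime field are linearly independent over
the field of sixteen elements -/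
theorem R8_lin {J κ : Type*} [Fintype J] [Field κ] (h2 : (2 : κ) = 0) (g : J → κ)
    (hg : ∀ P : MvPolynomial J ℤ, aeval g P = 0 → ∀ d, (2 : ℤ) ∣ coeff d P) (s : J → κ)
    (hs : ∀ j, s j ^ 16 = s j) (h : ∑ j, s j * g j = 0) : ∀ j, s j = 0 := by
  classical
  have : CharP κ 2 := CharTwo.of_one_ne_zero_of_two_eq_zero one_ne_zero h2
  let _ : Algebra (ZMod 2) κ := ZMod.algebra κ 2
  have h1 : AlgebraicIndependent (ZMod 2) g := by
    rw [algebraicIndependent_iff]
    intro Q hQ
    obtain ⟨P, rfl⟩ := MvPolynomial.map_surjective (Int.castRingHom (ZMod 2))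
      (ZMod.intCast_surjective) Q
    have h3 : aeval g P = 0 := by
      rw [← hQ, aeval_def, aeval_def, eval₂_map]
      congr 1
      exact RingHom.ext_int _ _
    ext d
    rw [coeff_map, coeff_zero]
    obtain ⟨c, hc⟩ := hg P h3 d
    rw [hc, map_mul]
    have h4 : (Int.castRingHom (ZMod 2)) 2 = 0 := by decide
    rw [h4, zero_mul]
  let S : IntermediateField (ZMod 2) κ := algebraicClosure (ZMod 2) κ
  have h3 : AlgebraicIndependent S g := h1.extendScalars S
  have h4 := h3.linearIndependent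
  have hsS : ∀ j, s j ∈ S := by
    intro j
    apply mem_algebraicClosure_iff.2
    refine ⟨Polynomial.X ^ 16 - Polynomial.X, ?_, ?_⟩
    · intro h5
      have h6 := congrArg (fun p => Polynomial.coeff p 16) h5
      simp [Polynomial.coeff_X] at h6
    · simp [hs j]
  rw [Fintype.linearIndependent_iff] at h4
  intro j
  have h5 := h4 (fun j => ⟨s j, hsS j⟩) (by
    rw [← h]
    exact Finset.sum_congr rfl fun j _ => rfl) j
  exact congrArg Subtype.val h5

end MP2619.KC
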