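import Pool.Agent.Lib.MP_2619d0_ag.KC.Defs2
import Pool.Agent.Lib.MP_2619d0_ag.KC.R8
import Pool.Agent.Lib.MP_2619d0_ag.K.K2

/-! Row R10a: lemmas for the place. -/

set_option autoImplicit false

namespace MP2619.KC

open MvPolynomial TensorProduct Pool.Agent.Lib.MP_2619d0_ag.T MP2619.K

/-- sorted triples are determined by their exponents -/
theorem R10_sorted {n : ℕ} {i j l i' j' l' : Fin n} (h1 : i ≤ j) (h2 : j ≤ l) (h1' : i' ≤ j')
    (h2' : j' ≤ l')
    (h : (Finsupp.single i 1 + Finsupp.single j 1 + Finsupp.single l 1 : Fin n →₀ ℕ) =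
      Finsupp.single i' 1 + Finsupp.single j' 1 + Finsupp.single l' 1) :
    i = i' ∧ j = j' ∧ l = l' := by
  have h3 : (([i, j, l] : List (Fin n)) : Multiset (Fin n)) =
      (([i', j', l'] : List (Fin n)) : Multiset (Fin n)) := by
    have h4 := congrArg Finsupp.toMultiset h
    simp only [map_add, Finsupp.toMultiset_single, one_smul] at h4
    exact h4
  have h5 : ([i, j, l] : List (Fin n)).Perm [i', j', l'] := Multiset.coe_eq_coe.1 h3
  have h6 : ([i, j, l] : List (Fin n)) = [i', j', l'] := by
    apply List.Perm.eq_of_sortedLE _ _ h5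
    · apply List.Pairwise.sortedLE
      simp [h1, h2, h1.trans h2]
    · apply List.Pairwise.sortedLE
      simp [h1', h2', h1'.trans h2']
  simp at h6
  exact h6

/-- The partial derivatives extend to a separable extension of the rational function field. -/
theorem R10_der {k L : Type*} [Field k] [Field L] (h2 : (2 : L) = 0) {m : ℕ}
    (ρ : MvPolynomial (Fin m) k →+* L) (hρ : Function.Injective ρ)
    (hodd : Odd (Module.finrank (Subfield.closure (Set.range ρ)) L)) (j : Fin m) :
    ∃ D : Derivation ℤ L L, (∀ i, D (ρ (X i)) = if i = j then 1 else 0) ∧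
      ∀ a, D (ρ (C a)) = 0 := by
  classical
  let K := Subfield.closure (Set.range ρ)
  let χ : MvPolynomial (Fin m) k →+* K :=
    ρ.codRestrict _ (fun g => Subfield.subset_closure ⟨g, rfl⟩)
  let _ : Algebra (MvPolynomial (Fin m) k) K := χ.toAlgebra
  have hfrac : IsFractionRing (MvPolynomial (Fin m) k) K := K2_frac ρ hρ
  let _ : Algebra (MvPolynomial (Fin m) k) L := ρ.toAlgebra
  let _ : Algebra k L := (ρ.comp C).toAlgebra
  have t1 : IsScalarTower (MvPolynomial (Fin m) k) K L :=
    IsScalarTower.of_algebraMap_eq fun _ => rfl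
  have t2 : IsScalarTower k (MvPolynomial (Fin m) k) L :=
    IsScalarTower.of_algebraMap_eq fun _ => rfl
  have h2K : (2 : K) = 0 := by
    apply Subtype.ext
    exact h2
  have hsep : Algebra.IsSeparable K L := K2_sep h2K hodd
  have e1 : Algebra.FormallyEtale (MvPolynomial (Fin m) k) K :=
    Algebra.FormallyEtale.of_isLocalization (nonZeroDivisors _)
  have e2 : Algebra.FormallyEtale K L := Algebra.FormallyEtale.of_isSeparable K L
  have e3 : Algebra.FormallyEtale (MvPolynomial (Fin m) k) L := Algebra.FormallyEtale.comp _ K _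
  let d0 : Derivation k (MvPolynomial (Fin m) k) L :=
    MvPolynomial.mkDerivation k (fun i => if i = j then (1 : L) else 0)
  let l0 : Ω[MvPolynomial (Fin m) k⁄k] →ₗ[MvPolynomial (Fin m) k] L := d0.liftKaehlerDifferential
  let l1 : L ⊗[MvPolynomial (Fin m) k] Ω[MvPolynomial (Fin m) k⁄k] →ₗ[L] L :=
    l0.liftBaseChange L
  let D1 : Derivation k L L :=
    (l1.comp (KaehlerDifferential.tensorKaehlerEquivOfFormallyEtale k
      (MvPolynomial (Fin m) k) L).symm.toLinearMap).compDer (KaehlerDifferential.D k L)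
  refine ⟨D1.restrictScalars ℤ, fun i => ?_, fun a => ?_⟩
  · have h3 : D1 (algebraMap (MvPolynomial (Fin m) k) L (X i)) = d0 (X i) := by
      change l1 ((KaehlerDifferential.tensorKaehlerEquivOfFormallyEtale k
        (MvPolynomial (Fin m) k) L).symm (KaehlerDifferential.D k L
          (algebraMap (MvPolynomial (Fin m) k) L (X i)))) = _
      rw [KaehlerDifferential.tensorKaehlerEquivOfFormallyEtale_symm_D_algebraMap]
      change l0.liftBaseChange L _ = _
      rw [LinearMap.liftBaseChange_tmul, one_smul]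
      exact Derivation.liftKaehlerDifferential_comp_D d0 (X i)
    change D1 (algebraMap (MvPolynomial (Fin m) k) L (X i)) = _
    rw [h3]
    exact mkDerivation_X k _ i
  · change D1 (algebraMap k L a) = 0
    exact D1.map_algebraMap a

/-- the integer algebra structure is unique -/
theorem R10_conv {κ : Type*} [Field κ] (i1 i2 : Algebra ℤ κ)
    (D : @Derivation ℤ κ κ _ _ _ i1 _ _) :
    ∃ D' : @Derivation ℤ κ κ _ _ _ i2 _ _, ∀ a, D' a = D a := by
  obtain rfl : i1 = i2 := Subsingleton.elim _ _
  exact ⟨D, fun _ => rfl⟩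

/-- elements whose fourth power is themselves -/
theorem R10_four {κ : Type*} [Field κ] (ω : κ) (hω : ω ^ 2 + ω + 1 = 0)
    (a : κ) (ha : a ^ 4 = a) : a = 0 ∨ a = 1 ∨ a = ω ∨ a = ω ^ 2 := by
  have h1 : a * ((a - 1) * ((a - ω) * (a - ω ^ 2))) = 0 := by
    linear_combination ha + (-a ^ 3 + a ^ 2 * ω - a * (ω - 1)) * hω
  rcases mul_eq_zero.1 h1 with h | h
  · exact Or.inl h
  rcases mul_eq_zero.1 h with h | h
  · exact Or.inr (Or.inl (sub_eq_zero.1 h))
  rcases mul_eq_zero.1 h with h | h
  · exact Or.inr (Or.inr (Or.inl (sub_eq_zero.1 h)))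
  · exact Or.inr (Or.inr (Or.inr (sub_eq_zero.1 h)))

end MP2619.KC
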