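import Pool.Agent.Lib.MP_2619d0_ag.KC.R1
import Pool.Agent.Lib.MP_2619d0_ag.K.K6a

/-! Row R2: isotropic subspaces. -/

set_option autoImplicit false

namespace MP2619.KC

open MP2619.K

variable {κ : Type*} [Field κ] {N r : ℕ}

theorem R2_hadd (h2 : (2 : κ) = 0) (a b : κ) : (a + b) ^ 2 = a ^ 2 + b ^ 2 := by
  linear_combination (a * b) * h2

theorem R2_span (h2 : (2 : κ) = 0) {n : ℕ} (S : Set (Fin n → κ))
    (hS : ∀ a ∈ S, ∀ b ∈ S, Dh a b = 0) :
    ∀ a ∈ Submodule.span κ S, ∀ b ∈ Submodule.span κ S, Dh a b = 0 := by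
  have h1 : ∀ a ∈ S, ∀ b ∈ Submodule.span κ S, Dh a b = 0 := by
    intro a ha b hb
    induction hb using Submodule.span_induction with
    | mem x hx => exact hS a ha x hx
    | zero => exact Dh_zero_right a
    | add x y _ _ hx hy => rw [Dh_add_right, hx, hy, add_zero]
    | smul s x _ hx => rw [Dh_smul_right, hx, mul_zero]
  intro a ha b hb
  induction ha using Submodule.span_induction with
  | mem x hx => exact h1 x hx b hb
  | zero => exact Dh_zero_left b
  | add x y _ _ hx hy => rw [Dh_add_left h2, hx, hy, add_zero]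
  | smul s x _ hx => rw [Dh_smul_left, hx, mul_zero]

/-- a totally isotropic subspace orthogonal to `x` has dimension less than half -/
theorem R2_iso (h2 : (2 : κ) = 0) {x : Fin (N + 1) → κ} (hP : ∀ w, Dh w x = 0 → w = w 0 • x)
    (U : Submodule κ (Fin (N + 1) → κ)) (hU : ∀ a ∈ U, ∀ b ∈ U, Dh a b = 0)
    (hx : ∀ a ∈ U, Dh x a = 0) (hN : 2 ≤ N) : 2 * Module.finrank κ U < N + 1 := by
  by_contra hcon
  push Not at hcon
  have h1 := K6_dim h2 (R2_hadd h2) U
  have hle : U ≤ K6_S (R2_hadd h2) U := fun a ha => hU a ha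
  have h3 : Module.finrank κ (K6_S (R2_hadd h2) U) ≤ Module.finrank κ U := by omega
  have h4 : U = K6_S (R2_hadd h2) U := Submodule.eq_of_le_of_finrank_le hle h3
  have hxS : x ∈ K6_S (R2_hadd h2) U := hx
  rw [← h4] at hxS
  have h5 : U ≤ Submodule.span κ {x} := by
    intro u hu
    rw [hP u (hU u hu x hxS)]
    exact Submodule.smul_mem _ _ (Submodule.mem_span_singleton_self x)
  have h6 := Submodule.finrank_mono h5
  have h7 := finrank_span_le_card (R := κ) ({x} : Set (Fin (N + 1) → κ))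
  rw [Set.toFinset_singleton, Finset.card_singleton] at h7
  omega

theorem R2_gamma [Infinite κ] (h2 : (2 : κ) = 0) {x : Fin (N + 1) → κ}
    {β : (Fin r → κ) →ₗ[κ] (Fin (N + 1) → κ)} {G : (Fin r → κ) → (Fin (N + 1) → κ)}
    {Γ : (Fin r → κ) → (Fin r → κ) → (Fin (N + 1) → κ)} (h : Sys x β G Γ)
    (hr : 2 ≤ r) (hN : N + 1 = 2 * r + 2) : ∀ v w, Γ v w ∈ LinearMap.range β := by
  obtain ⟨c1, c2, c3, c4, c5, c6, c7, c8⟩ := R1_cons h2 h
  obtain ⟨S, hS⟩ : ∃ S : Set (Fin (N + 1) → κ), S = {a | (∃ v, a = β v) ∨ ∃ v w, a = Γ v w} :=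
    ⟨_, rfl⟩
  have hSS : ∀ a ∈ S, ∀ b ∈ S, Dh a b = 0 := by
    rw [hS]
    rintro a (⟨v, rfl⟩ | ⟨v, w, rfl⟩) b (⟨v', rfl⟩ | ⟨v', w', rfl⟩)
    · exact h.h3 _ _
    · exact c5 _ _ _
    · exact c3 _ _ _
    · exact c8 _ _ _ _
  have hiso := R2_span h2 S hSS
  have hxS : ∀ a ∈ Submodule.span κ S, Dh x a = 0 := by
    intro b hb
    induction hb using Submodule.span_induction with
    | mem a ha =>
      rw [hS] at ha
      rcases ha with ⟨v, rfl⟩ | ⟨v, w, rfl⟩
      · exact h.h1 _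
      · exact c1 _ _
    | zero => exact Dh_zero_right x
    | add a b _ _ ha hb => rw [Dh_add_right, ha, hb, add_zero]
    | smul s a _ ha => rw [Dh_smul_right, ha, mul_zero]
  have h1 := R2_iso h2 h.hP (Submodule.span κ S) hiso hxS (by omega)
  have hinj : Function.Injective β := by
    rw [injective_iff_map_eq_zero]
    intro v hv
    by_contra hne
    apply h.nz v hne
    rw [hv, Dh_zero_left]
  have h3 : Module.finrank κ (LinearMap.range β) = r := by
    rw [LinearMap.finrank_range_of_inj hinj, Module.finrank_fin_fun]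
  have hle : LinearMap.range β ≤ Submodule.span κ S := by
    rintro _ ⟨v, rfl⟩
    apply Submodule.subset_span
    rw [hS]
    exact Or.inl ⟨v, rfl⟩
  have h4 : LinearMap.range β = Submodule.span κ S :=
    Submodule.eq_of_le_of_finrank_le hle (by omega)
  intro v w
  rw [h4]
  apply Submodule.subset_span
  rw [hS]
  exact Or.inr ⟨v, w, rfl⟩

/-- the decomposition of `G v` -/
theorem R2_dec [Infinite κ] (h2 : (2 : κ) = 0) {x : Fin (N + 1) → κ}
    {β : (Fin r → κ) →ₗ[κ] (Fin (N + 1) → κ)} {G : (Fin r → κ) → (Fin (N + 1) → κ)}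
    {Γ : (Fin r → κ) → (Fin r → κ) → (Fin (N + 1) → κ)} (h : Sys x β G Γ)
    (hr : 2 ≤ r) (hN : N + 1 = 2 * r + 2) (y : Fin (N + 1) → κ) (hy : ∀ w, Dh y (β w) = 0)
    (hxy : Dh x y ≠ 0) (u : Fin (N + 1) → κ) (hu : ∀ w, Dh u (β w) = 0) :
    ∃ (t : Fin r → κ) (a b : κ), u = β t + a • x + b • y := by
  have hinj : Function.Injective β := by
    rw [injective_iff_map_eq_zero]
    intro v hv
    by_contra hne
    apply h.nz v hne
    rw [hv, Dh_zero_left]
  obtain ⟨T, hT⟩ : ∃ T, T = LinearMap.range β := ⟨_, rfl⟩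
  have h3 : Module.finrank κ T = r := by
    rw [hT, LinearMap.finrank_range_of_inj hinj, Module.finrank_fin_fun]
  have h1 := K6_dim h2 (R2_hadd h2) T
  have hmem : ∀ z : Fin (N + 1) → κ, (∀ w, Dh z (β w) = 0) → z ∈ K6_S (R2_hadd h2) T := by
    intro z hz t ht
    rw [hT] at ht
    obtain ⟨w, rfl⟩ := ht
    exact hz w
  have hTS : T ≤ K6_S (R2_hadd h2) T := by
    intro t ht
    apply hmem
    rw [hT] at ht
    obtain ⟨w, rfl⟩ := ht
    exact h.h3 w
  have hxS := hmem x h.h1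
  have hyS := hmem y hy
  have hxT : x ∉ T := by
    intro hx
    rw [hT] at hx
    obtain ⟨v, hv⟩ := hx
    by_cases hv0 : v = 0
    · have h5 := h.x0
      rw [← hv, hv0, map_zero] at h5
      exact zero_ne_one h5
    · apply h.nz v hv0
      rw [hv]
      exact h.h0
  have hlt1 : T < T ⊔ Submodule.span κ {x} := by
    refine lt_of_le_of_ne le_sup_left fun h => hxT ?_
    rw [h]
    exact Submodule.mem_sup_right (Submodule.mem_span_singleton_self x)
  have hlt2 : T ⊔ Submodule.span κ {x} < T ⊔ Submodule.span κ {x} ⊔ Submodule.span κ {y} := by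
    refine lt_of_le_of_ne le_sup_left fun h' => ?_
    have hyy : y ∈ T ⊔ Submodule.span κ {x} := by
      rw [h']
      exact Submodule.mem_sup_right (Submodule.mem_span_singleton_self y)
    rw [Submodule.mem_sup] at hyy
    obtain ⟨t, ht, w, hw, hty⟩ := hyy
    obtain ⟨c, rfl⟩ := Submodule.mem_span_singleton.1 hw
    rw [hT] at ht
    obtain ⟨v, rfl⟩ := ht
    apply hxy
    rw [← hty, Dh_add_right, Dh_smul_right, h.h1, h.h0, mul_zero, add_zero]
  have hle : T ⊔ Submodule.span κ {x} ⊔ Submodule.span κ {y} ≤ K6_S (R2_hadd h2) T := by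
    refine sup_le (sup_le hTS ?_) ?_
    · rw [Submodule.span_singleton_le_iff_mem]
      exact hxS
    · rw [Submodule.span_singleton_le_iff_mem]
      exact hyS
  have h4 := Submodule.finrank_lt_finrank_of_lt hlt1
  have h5 := Submodule.finrank_lt_finrank_of_lt hlt2
  have h6 : T ⊔ Submodule.span κ {x} ⊔ Submodule.span κ {y} = K6_S (R2_hadd h2) T :=
    Submodule.eq_of_le_of_finrank_le hle (by omega)
  have huS := hmem u hu
  rw [← h6, Submodule.mem_sup] at huS
  obtain ⟨z, hz, w, hw, hzu⟩ := huS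
  obtain ⟨b, rfl⟩ := Submodule.mem_span_singleton.1 hw
  rw [Submodule.mem_sup] at hz
  obtain ⟨t, ht, w', hw', rfl⟩ := hz
  obtain ⟨a, rfl⟩ := Submodule.mem_span_singleton.1 hw'
  rw [hT] at ht
  obtain ⟨v, rfl⟩ := ht
  exact ⟨v, a, b, hzu.symm⟩

end MP2619.KC
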