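import Pool.Agent.Lib.MP_2619d0_ag.KC.Defs2
import Pool.Agent.Lib.MP_2619d0_ag.KC.R2
import Pool.Agent.Lib.MP_2619d0_ag.K.K6

/-!
Row R11: reduction of a family through a point which reduces to the generic point of the Fermat cubic.
-/

set_option autoImplicit false

namespace MP2619.KC

open MvPolynomial Pool.Agent.Lib.MP_2619d0_ag Pool.Agent.Lib.MP_2619d0_ag.T MP2619.K

variable {M : Type*} [Field M] (O : ValuationSubring M) {N : ℕ}

/-- The hypotheses on the family `s² x + s β(v) + G(v)` over the field `M` (as in `K6_main`). -/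
structure Fam (O : ValuationSubring M) {k : ℕ}
    (c : Fin (N + 1) → Fin (N + 1) → Fin (N + 1) → O) (x : Fin (N + 1) → O)
    (β : (Fin k → M) →ₗ[M] (Fin (N + 1) → M)) (G : (Fin k → M) → (Fin (N + 1) → M))
    (Γ : (Fin k → M) → (Fin k → M) → (Fin (N + 1) → M)) : Prop where
  hG0 : G 0 = 0
  hΓ : ∀ v w (l : M), G (v + l • w) = G v + l • Γ v w + l ^ 2 • G w
  hΓc : ∀ v w, Γ v w = Γ w v
  hΓa : ∀ v w w', Γ v (w + w') = Γ v w + Γ v w'
  hΓs : ∀ v (a : M) w, Γ v (a • w) = a • Γ v w
  hid : ∀ v (s : M), Fc (cm O.subtype c) (s ^ 2 • (fun i => (x i : M)) + s • β v + G v) = 0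
  hA : ∀ v ≠ 0, ∀ (g : M) (z : Fin (N + 1) → O), g ≠ 0 →
    (∀ i, IsLocalRing.residue O (z i) = IsLocalRing.residue O (x i)) →
      G v ≠ g • fun i => (z i : M)
  hB : ∀ v ≠ 0, ∀ a : M, β v ≠ a • fun i => (x i : M)

/-- the reduction of the family, in terms of a basis of the lattice -/
def redβ {r n : ℕ} {κ : Type*} [Field κ] (b : Fin r → Fin n → κ) :
    (Fin r → κ) →ₗ[κ] (Fin n → κ) := Fintype.linearCombination κ b

def redG {r n : ℕ} {κ : Type*} [Field κ] (y : Fin r → Fin n → κ) (γ : Fin r → Fin r → Fin n → κ)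
    (v : Fin r → κ) : Fin n → κ :=
  ∑ j, v j ^ 2 • y j + ∑ j, ∑ l, if j < l then (v j * v l) • γ j l else 0

def redΓ {r n : ℕ} {κ : Type*} [Field κ] (γ : Fin r → Fin r → Fin n → κ)
    (v w : Fin r → κ) : Fin n → κ :=
  ∑ j, ∑ l, if j < l then (v j * w l + v l * w j) • γ j l else 0

section steps

variable {O} {k : ℕ} {c : Fin (N + 1) → Fin (N + 1) → Fin (N + 1) → O} {x : Fin (N + 1) → O}
  {β : (Fin k → M) →ₗ[M] (Fin (N + 1) → M)} {G : (Fin k → M) → (Fin (N + 1) → M)}
  {Γ : (Fin k → M) → (Fin k → M) → (Fin (N + 1) → M)}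

/-- a vector orthogonal to `x` with nonzero reduction -/
theorem R11_prim (hc : ∀ i j l, IsLocalRing.residue O (c i j l) = if i = j ∧ j = l then 1 else 0)
    (h2 : (2 : IsLocalRing.ResidueField O) = 0)
    (hP : ∀ w : Fin (N + 1) → IsLocalRing.ResidueField O,
      ∑ i, w i ^ 2 * IsLocalRing.residue O (x i) = 0 →
        w = w 0 • fun i => IsLocalRing.residue O (x i))
    (z : Fin (N + 1) → O) (i : Fin (N + 1)) (hz : IsLocalRing.residue O (z i) ≠ 0)
    (h : IsLocalRing.residue O (Dc c z x) = 0) :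
    IsLocalRing.residue O (z 0) ≠ 0 ∧ ∀ j, IsLocalRing.residue O (z j) =
      IsLocalRing.residue O (z 0) * IsLocalRing.residue O (x j) := by
  rw [K6_resD O c hc h2] at h
  have h3 := hP _ h
  have h4 : ∀ j, IsLocalRing.residue O (z j) =
      IsLocalRing.residue O (z 0) * IsLocalRing.residue O (x j) := fun j => congrFun h3 j
  refine ⟨fun h0 => ?_, h4⟩
  have h5 := h4 i
  rw [h0, zero_mul] at h5
  exact hz h5

theorem R11_steps [Infinite M]
    (hc : ∀ i j l, IsLocalRing.residue O (c i j l) = if i = j ∧ j = l then 1 else 0)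
    (h2 : (2 : IsLocalRing.ResidueField O) = 0) (hx0 : x 0 = 1)
    (hP : ∀ w : Fin (N + 1) → IsLocalRing.ResidueField O,
      ∑ i, w i ^ 2 * IsLocalRing.residue O (x i) = 0 →
        w = w 0 • fun i => IsLocalRing.residue O (x i)) (hF : Fam O c x β G Γ) :
    (∀ (v : Fin k → M) (t : Fin (N + 1) → O), β v = (fun i => (t i : M)) →
      ∃ y : Fin (N + 1) → O, G v = fun i => (y i : M)) ∧
    (∀ (v : Fin k → M) (t y : Fin (N + 1) → O), β v = (fun i => (t i : M)) →
      G v = (fun i => (y i : M)) → (∃ i, IsLocalRing.residue O (t i) ≠ 0) →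
        IsLocalRing.residue O (Dc c x y) ≠ 0) := by
  classical
  obtain ⟨cM, hcM⟩ : ∃ cM, cM = cm O.subtype c := ⟨_, rfl⟩
  have hid := hF.hid
  have hA := hF.hA
  have hB := hF.hB
  have hG0 := hF.hG0
  rw [← hcM] at hid
  have hD : ∀ a b : Fin (N + 1) → O, Dc cM (fun i => (a i : M)) (fun i => (b i : M)) =
      ((Dc c a b : O) : M) := by
    intro a b
    rw [hcM]
    exact K6_Dc O c a b
  have hres := K6_resD O c hc h2
  obtain ⟨X, hX⟩ : ∃ X : Fin (N + 1) → M, X = fun i => (x i : M) := ⟨_, rfl⟩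
  rw [← hX] at hid hB
  have hX0 : X 0 = 1 := by
    rw [hX]
    exact congrArg Subtype.val hx0
  have coef := fun v => MP2619.T.st_conic_coeffs cM X (β v) (G v) (hid v)
  have hFX : Fc cM X = 0 := (coef 0).1
  have hDXX : Dc cM X X = 0 := by rw [Dc_self, hFX, mul_zero]
  have hone : ∀ (z : Fin (N + 1) → O) (i : Fin (N + 1)), z i = 1 →
      IsLocalRing.residue O (z i) ≠ 0 := by
    intro z i hz
    rw [hz, map_one]
    exact one_ne_zero
  have hprim := R11_prim (x := x) hc h2 hP
  -- Step 1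
  have step1 : ∀ v ≠ 0, G v ≠ 0 := by
    intro v hv hGv
    obtain ⟨-, e5, e4, -, -, -, -⟩ := coef v
    rw [hGv] at e4
    have hz1 : Dc cM X 0 = 0 := by
      have h3 := Dc_smul_right cM 0 X (0 : Fin (N + 1) → M)
      rwa [zero_smul, zero_mul] at h3
    rw [hz1, zero_add] at e4
    obtain ⟨b, hb⟩ : ∃ b : Fin (N + 1) → M, b = β v + (-(β v 0)) • X := ⟨_, rfl⟩
    have hb0 : b 0 = 0 := by
      rw [hb, Pi.add_apply, Pi.smul_apply, hX0, smul_eq_mul, mul_one, add_neg_cancel]
    have hDb : Dc cM b X = 0 := by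
      have t1 : Tc cM (β v) X X = 0 := by
        rw [Tc_comm, Tc_comm', Tc_self, e5, mul_zero]
      rw [hb, Dc_add_left, Dc_smul_left, hDXX, e4, Tc_comm, Tc_smul_left, Tc_comm, t1]
      ring
    by_cases hbz : b = 0
    · apply hB v hv (β v 0)
      rw [hbz] at hb
      rw [neg_smul, ← sub_eq_add_neg] at hb
      exact (sub_eq_zero.1 hb.symm)
    · obtain ⟨g, z, i, hg, hz, hgz⟩ := K6_scale O b hbz
      rw [hgz, Dc_smul_left, hX, hD] at hDb
      have h3 : (Dc c z x : O) = 0 := by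
        apply Subtype.ext
        exact (mul_eq_zero.1 hDb).resolve_left (pow_ne_zero 2 hg)
      obtain ⟨h4, -⟩ := hprim z i (hone z i hz) (by rw [h3, map_zero])
      have h5 := congrFun hgz 0
      rw [hb0, Pi.smul_apply, smul_eq_mul] at h5
      have h6 : (z 0 : M) = 0 := (mul_eq_zero.1 h5.symm).resolve_left hg
      apply h4
      have h7 : z 0 = 0 := Subtype.ext h6
      rw [h7, map_zero]
  -- Step 2
  have step2 : ∀ v ≠ 0, ∀ (g : M) (z : Fin (N + 1) → O) (i : Fin (N + 1)), g ≠ 0 → z i = 1 →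
      G v = g • (fun i => (z i : M)) → IsLocalRing.residue O (Dc c z x) ≠ 0 := by
    intro v hv g z i hg hz hgz h
    obtain ⟨h4, h5⟩ := hprim z i (hone z i hz) h
    have hu : IsUnit (z 0) := by
      by_contra h6
      apply h4
      rw [IsLocalRing.residue_eq_zero_iff, IsLocalRing.mem_maximalIdeal, mem_nonunits_iff]
      exact h6
    obtain ⟨u, hu⟩ := hu
    have hu0 : ((z 0 : O) : M) ≠ 0 := by
      intro h6
      apply h4
      have h7 : z 0 = 0 := Subtype.ext h6
      rw [h7, map_zero]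
    refine hA v hv (g * (z 0 : M)) (fun j => ((u⁻¹ : Oˣ) : O) * z j) (mul_ne_zero hg hu0) ?_ ?_
    · intro j
      rw [map_mul, h5]
      have h6 : IsLocalRing.residue O ((u⁻¹ : Oˣ) : O) * IsLocalRing.residue O (z 0) = 1 := by
        rw [← map_mul, ← hu, Units.inv_mul, map_one]
      rw [← mul_assoc, h6, one_mul]
    · rw [hgz]
      funext j
      have h6 : ((((u⁻¹ : Oˣ) : O) * z j : O) : M) = ((((u⁻¹ : Oˣ) : O) : O) : M) * (z j : M) :=
        rfl
      have h7 : ((((u⁻¹ : Oˣ) : O) : O) : M) * ((z 0 : O) : M) = 1 := by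
        have h8 : (((u⁻¹ : Oˣ) : O) * z 0 : O) = 1 := by rw [← hu, Units.inv_mul]
        exact congrArg Subtype.val h8
      simp only [Pi.smul_apply, smul_eq_mul]
      rw [h6]
      linear_combination - g * (z j : M) * h7
  -- Step 3
  have step3 : ∀ (v : Fin k → M) (t : Fin (N + 1) → O), β v = (fun i => (t i : M)) →
      ∃ y : Fin (N + 1) → O, G v = fun i => (y i : M) := by
    intro v t ht
    by_cases hv : v = 0
    · refine ⟨0, ?_⟩
      rw [hv, hG0]
      rfl
    obtain ⟨g, z, i, hg, hz, hgz⟩ := K6_scale O (G v) (step1 v hv)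
    have h3 := step2 v hv g z i hg hz hgz
    have hu : IsUnit (Dc c z x) := by
      by_contra h6
      apply h3
      rw [IsLocalRing.residue_eq_zero_iff, IsLocalRing.mem_maximalIdeal, mem_nonunits_iff]
      exact h6
    obtain ⟨-, -, -, -, e2, -, -⟩ := coef v
    rw [hgz, ht, Dc_smul_right, Dc_smul_left, hX, hD, hD] at e2
    have h4 : g * ((Dc c z x : O) : M) = - ((Dc c t z : O) : M) := by
      apply mul_left_cancel₀ hg
      linear_combination e2
    obtain ⟨u, hu⟩ := hu
    have h5 : g = ((- Dc c t z * ((u⁻¹ : Oˣ) : O) : O) : M) := by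
      have h6 : ((Dc c z x : O) : M) * (((u⁻¹ : Oˣ) : O) : M) = 1 := by
        have h7 : (Dc c z x * ((u⁻¹ : Oˣ) : O) : O) = 1 := by rw [← hu, Units.mul_inv]
        exact congrArg Subtype.val h7
      have h8 : ((- Dc c t z * ((u⁻¹ : Oˣ) : O) : O) : M) =
        - ((Dc c t z : O) : M) * (((u⁻¹ : Oˣ) : O) : M) := rfl
      rw [h8, ← h4]
      linear_combination - g * h6
    refine ⟨fun j => (- Dc c t z * ((u⁻¹ : Oˣ) : O)) * z j, ?_⟩
    rw [hgz]
    funext j
    rw [Pi.smul_apply, smul_eq_mul]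
    conv_lhs => rw [h5]
    rfl
  refine ⟨step3, ?_⟩
  intro v0 t0 y0 hβ0 hy0 hprim0 h
  obtain ⟨i0, ht0⟩ := hprim0
  have hv00 : v0 ≠ 0 := by
    rintro rfl
    rw [map_zero] at hβ0
    apply ht0
    have h3 : (t0 i0 : M) = 0 := (congrFun hβ0 i0).symm
    have h4 : t0 i0 = 0 := Subtype.ext h3
    rw [h4, map_zero]
  obtain ⟨-, -, e4, -, -, e1, -⟩ := coef v0
  have e4' : Dc c x y0 + Dc c t0 x = 0 := by
    rw [hβ0, hy0, hX, hD, hD] at e4
    exact Subtype.ext e4
  have h3 := congrArg (IsLocalRing.residue O) e4'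
  rw [map_add, h, zero_add, map_zero] at h3
  obtain ⟨h4, h5⟩ := hprim t0 i0 ht0 h3
  obtain ⟨g', z, i, hg', hz, hgz⟩ := K6_scale O (G v0) (step1 v0 hv00)
  have h6 := step2 v0 hv00 g' z i hg' hz hgz
  rw [hgz, hβ0, Dc_smul_left, hD] at e1
  have h7 : Dc c z t0 = 0 := by
    apply Subtype.ext
    exact (mul_eq_zero.1 e1).resolve_left (pow_ne_zero 2 hg')
  apply h6
  have h8 := congrArg (IsLocalRing.residue O) h7
  rw [hres, map_zero] at h8
  have h9 : ∑ i, IsLocalRing.residue O (z i) ^ 2 * IsLocalRing.residue O (t0 i) =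
      IsLocalRing.residue O (t0 0) *
        ∑ i, IsLocalRing.residue O (z i) ^ 2 * IsLocalRing.residue O (x i) := by
    rw [Finset.mul_sum]
    refine Finset.sum_congr rfl fun j _ => ?_
    rw [h5 j]
    ring
  rw [h9] at h8
  rw [hres]
  exact (mul_eq_zero.1 h8).resolve_left h4

/-- expansion of the quadratic map in terms of a basis -/
theorem R11_expand (hF : Fam O c x β G Γ) {r : ℕ} (v : Fin r → Fin k → M) (a : Fin r → M) :
    G (∑ j, a j • v j) = redG (fun j => G (v j)) (fun j l => Γ (v j) (v l)) a := by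
  classical
  have hGa : ∀ v w, G (v + w) = G v + Γ v w + G w := by
    intro v w
    have h1 := hF.hΓ v w 1
    rw [one_smul, one_smul, one_pow, one_smul] at h1
    exact h1
  have hΓ0 : ∀ v, Γ v 0 = 0 := by
    intro v
    have h1 := hF.hΓa v 0 0
    rw [add_zero] at h1
    simpa using h1
  have hGs : ∀ (s : M) v, G (s • v) = s ^ 2 • G v := by
    intro s v
    have h1 := hF.hΓ 0 v s
    rw [zero_add, hF.hG0, zero_add, hF.hΓc, hΓ0, smul_zero, zero_add] at h1
    exact h1
  have hΓsum : ∀ (s : Finset (Fin r)) w, Γ w (∑ j ∈ s, a j • v j) =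
      ∑ j ∈ s, a j • Γ w (v j) := by
    intro s w
    induction s using Finset.induction_on with
    | empty => rw [Finset.sum_empty, Finset.sum_empty, hΓ0]
    | insert j s hj ih =>
      rw [Finset.sum_insert hj, Finset.sum_insert hj, hF.hΓa, hF.hΓs, ih]
  have key : ∀ s : Finset (Fin r), G (∑ j ∈ s, a j • v j) = ∑ j ∈ s, a j ^ 2 • G (v j) +
      ∑ j ∈ s, ∑ l ∈ s, if j < l then (a j * a l) • Γ (v j) (v l) else 0 := by
    intro s
    induction s using Finset.induction_on with
    | empty => simp only [Finset.sum_empty, hF.hG0, add_zero]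
    | insert i s hi ih =>
      rw [Finset.sum_insert hi, hGa, hGs, ih, Finset.sum_insert hi, hΓsum, Finset.sum_insert hi,
        Finset.sum_insert hi, if_neg (lt_irrefl i), zero_add]
      have h1 : ∑ j ∈ s, ∑ l ∈ insert i s, (if j < l then (a j * a l) • Γ (v j) (v l) else 0) =
          ∑ j ∈ s, (if j < i then (a j * a i) • Γ (v j) (v i) else 0) +
          ∑ j ∈ s, ∑ l ∈ s, (if j < l then (a j * a l) • Γ (v j) (v l) else 0) := by
        rw [← Finset.sum_add_distrib]
        refine Finset.sum_congr rfl fun j _ => ?_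
        rw [Finset.sum_insert hi]
      have h3 : ∑ j ∈ s, a j • Γ (a i • v i) (v j) =
          ∑ j ∈ s, (if i < j then (a i * a j) • Γ (v i) (v j) else 0) +
          ∑ j ∈ s, (if j < i then (a j * a i) • Γ (v j) (v i) else 0) := by
        rw [← Finset.sum_add_distrib]
        refine Finset.sum_congr rfl fun j hj => ?_
        rw [hF.hΓc, hF.hΓs, smul_smul]
        rcases lt_trichotomy i j with h | h | h
        · rw [if_pos h, if_neg (asymm h), add_zero, hF.hΓc, mul_comm]
        · exact absurd (h ▸ hj) hi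
        · rw [if_pos h, if_neg (asymm h), zero_add]
      rw [h1, h3]
      abel
  exact key Finset.univ

end steps

end MP2619.KC
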