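import Pool.Agent.Lib.MP_2619d0_ag.KC.R11

/-!
Row R11b: the lattice and the reduction of the family.
-/

set_option autoImplicit false

namespace MP2619.KC

open MvPolynomial Pool.Agent.Lib.MP_2619d0_ag Pool.Agent.Lib.MP_2619d0_ag.T MP2619.K

variable {M : Type*} [Field M] (O : ValuationSubring M) {N : ℕ}

theorem redΓ_comm {r n : ℕ} {κ : Type*} [Field κ] (γ : Fin r → Fin r → Fin n → κ)
    (v w : Fin r → κ) : redΓ γ v w = redΓ γ w v := by
  unfold redΓ
  refine Finset.sum_congr rfl fun j _ => Finset.sum_congr rfl fun l _ => ?_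
  rw [mul_comm (v j), mul_comm (v l), add_comm (w l * v j)]

theorem redΓ_add {r n : ℕ} {κ : Type*} [Field κ] (γ : Fin r → Fin r → Fin n → κ)
    (v w w' : Fin r → κ) : redΓ γ v (w + w') = redΓ γ v w + redΓ γ v w' := by
  unfold redΓ
  rw [← Finset.sum_add_distrib]
  refine Finset.sum_congr rfl fun j _ => ?_
  rw [← Finset.sum_add_distrib]
  refine Finset.sum_congr rfl fun l _ => ?_
  split_ifs
  · rw [← add_smul]
    congr 1
    simp only [Pi.add_apply]
    ring
  · rw [add_zero]

theorem redG_line {r n : ℕ} {κ : Type*} [Field κ] (h2 : (2 : κ) = 0) (y : Fin r → Fin n → κ)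
    (γ : Fin r → Fin r → Fin n → κ) (v w : Fin r → κ) (s : κ) :
    redG y γ (v + s • w) = redG y γ v + s • redΓ γ v w + s ^ 2 • redG y γ w := by
  unfold redG redΓ
  have h1 : ∑ j, (v + s • w) j ^ 2 • y j = ∑ j, v j ^ 2 • y j + s ^ 2 • ∑ j, w j ^ 2 • y j := by
    rw [Finset.smul_sum, ← Finset.sum_add_distrib]
    refine Finset.sum_congr rfl fun j _ => ?_
    rw [smul_smul, ← add_smul]
    congr 1
    simp only [Pi.add_apply, Pi.smul_apply, smul_eq_mul]
    linear_combination (v j * s * w j) * h2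
  have h3 : ∑ j, ∑ l, (if j < l then ((v + s • w) j * (v + s • w) l) • γ j l else 0) =
      ∑ j, ∑ l, (if j < l then (v j * v l) • γ j l else 0) +
      s • ∑ j, ∑ l, (if j < l then (v j * w l + v l * w j) • γ j l else 0) +
      s ^ 2 • ∑ j, ∑ l, (if j < l then (w j * w l) • γ j l else 0) := by
    simp only [Finset.smul_sum, ← Finset.sum_add_distrib]
    refine Finset.sum_congr rfl fun j _ => Finset.sum_congr rfl fun l _ => ?_
    split_ifs
    · rw [smul_smul, smul_smul, ← add_smul, ← add_smul]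
      congr 1
      simp only [Pi.add_apply, Pi.smul_apply, smul_eq_mul]
      ring
    · simp
  rw [h1, h3, smul_add]
  abel

/-- reduction of `redG` -/
theorem redG_res {r n : ℕ} (y : Fin r → Fin n → O) (γ : Fin r → Fin r → Fin n → O)
    (a : Fin r → O) :
    ∃ z : Fin n → O, redG (fun j => iv O (y j)) (fun j l => iv O (γ j l))
        (fun j => (a j : M)) = iv O z ∧
      rv O z = redG (fun j => rv O (y j)) (fun j l => rv O (γ j l))
        (fun j => IsLocalRing.residue O (a j)) := by
  refine ⟨fun i => ∑ j, a j ^ 2 * y j i + ∑ j, ∑ l, if j < l then a j * a l * γ j l i else 0,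
    ?_, ?_⟩
  · funext i
    unfold redG iv
    simp only [Pi.add_apply, Finset.sum_apply, Pi.smul_apply, smul_eq_mul]
    have h1 : ∀ z : O, (z : M) = O.subtype z := fun _ => rfl
    rw [h1 (_ + _), map_add, map_sum, map_sum]
    refine congrArg₂ (· + ·) ?_ ?_
    · refine Finset.sum_congr rfl fun j _ => ?_
      rw [map_mul, map_pow]
      rfl
    · refine Finset.sum_congr rfl fun j _ => ?_
      rw [map_sum]
      refine Finset.sum_congr rfl fun l _ => ?_
      split_ifs
      · rw [map_mul, map_mul]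
        rfl
      · rw [map_zero]
        rfl
  · funext i
    unfold redG rv
    simp only [Pi.add_apply, Finset.sum_apply, Pi.smul_apply, smul_eq_mul]
    rw [map_add, map_sum, map_sum]
    refine congrArg₂ (· + ·) ?_ ?_
    · refine Finset.sum_congr rfl fun j _ => ?_
      rw [map_mul, map_pow]
    · refine Finset.sum_congr rfl fun j _ => ?_
      rw [map_sum]
      refine Finset.sum_congr rfl fun l _ => ?_
      split_ifs
      · rw [map_mul, map_mul]
        rfl
      · rw [map_zero]
        rfl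

theorem R11_exists {r : ℕ} (β : (Fin r → M) →ₗ[M] (Fin (N + 1) → M)) (x : Fin (N + 1) → O)
    (hB : ∀ v ≠ 0, ∀ a : M, β v ≠ a • fun i => (x i : M)) :
    ∃ t : Fin r → Fin (N + 1) → IsLocalRing.ResidueField O,
      LinearIndependent (IsLocalRing.ResidueField O) t ∧
        ∀ j, t j ∈ redSub O (LinearMap.range β) := by
  have h5 : Function.Injective β := by
    rw [injective_iff_map_eq_zero]
    intro v hv
    by_contra hne
    apply hB v hne 0
    rw [hv, zero_smul]
  have h4 : r ≤ Module.finrank (IsLocalRing.ResidueField O) (redSub O (LinearMap.range β)) := by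
    apply K6_red
    rw [LinearMap.finrank_range_of_inj h5, Module.finrank_fin_fun]
  obtain ⟨f, hf⟩ := exists_linearIndependent_of_le_finrank h4
  refine ⟨fun j => (f j : Fin (N + 1) → IsLocalRing.ResidueField O), ?_, fun j => (f j).2⟩
  exact hf.map' (Submodule.subtype _) (Submodule.ker_subtype _)

/-- The lattice and the reduction. -/
theorem R11_lattice [Infinite M] {r : ℕ} (c : Fin (N + 1) → Fin (N + 1) → Fin (N + 1) → O)
    (hc : ∀ i j l, IsLocalRing.residue O (c i j l) = if i = j ∧ j = l then 1 else 0)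
    (h2 : (2 : IsLocalRing.ResidueField O) = 0) (hinf : Infinite (IsLocalRing.ResidueField O))
    (x : Fin (N + 1) → O) (hx0 : x 0 = 1)
    (hP : ∀ w : Fin (N + 1) → IsLocalRing.ResidueField O,
      ∑ i, w i ^ 2 * IsLocalRing.residue O (x i) = 0 →
        w = w 0 • fun i => IsLocalRing.residue O (x i))
    (β : (Fin r → M) →ₗ[M] (Fin (N + 1) → M)) (G : (Fin r → M) → (Fin (N + 1) → M))
    (Γ : (Fin r → M) → (Fin r → M) → (Fin (N + 1) → M)) (hF : Fam O c x β G Γ)
    (t : Fin r → Fin (N + 1) → IsLocalRing.ResidueField O)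
    (ht : LinearIndependent (IsLocalRing.ResidueField O) t)
    (htT : ∀ j, t j ∈ redSub O (LinearMap.range β)) :
    ∃ (v : Fin r → Fin r → M) (b y : Fin r → Fin (N + 1) → O)
      (γ : Fin r → Fin r → Fin (N + 1) → O),
      (∀ j, β (v j) = iv O (b j)) ∧ (∀ j, G (v j) = iv O (y j)) ∧
      (∀ j l, Γ (v j) (v l) = iv O (γ j l)) ∧ (∀ j, rv O (b j) = t j) ∧
      Sys (rv O x) (redβ (fun j => rv O (b j)))
        (redG (fun j => rv O (y j)) (fun j l => rv O (γ j l)))
        (redΓ (fun j l => rv O (γ j l))) := by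
  classical
  obtain ⟨s3, s5⟩ := R11_steps hc h2 hx0 hP hF
  choose b hb1 hb2 using htT
  choose v hv using hb1
  choose y hy using fun j => s3 (v j) (b j) (hv j)
  have hGa : ∀ v w, G (v + w) = G v + Γ v w + G w := by
    intro v w
    have h1 := hF.hΓ v w 1
    rw [one_smul, one_smul, one_pow, one_smul] at h1
    exact h1
  have hγ : ∀ j l, ∃ γ : Fin (N + 1) → O, Γ (v j) (v l) = iv O γ := by
    intro j l
    obtain ⟨z, hz⟩ := s3 (v j + v l) (b j + b l) (by
      rw [map_add, hv, hv]
      rfl)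
    refine ⟨z - y j - y l, ?_⟩
    rw [hGa, hy, hy] at hz
    funext i
    have h1 := congrFun hz i
    simp only [Pi.add_apply] at h1
    change _ = (z i : M) - (y j i : M) - (y l i : M)
    rw [← h1]
    ring
  choose γ hγ using hγ
  have hb2' : ∀ j, rv O (b j) = t j := fun j => (hb2 j).symm
  refine ⟨v, b, y, γ, hv, hy, hγ, hb2', ?_⟩
  -- lifting
  have hlift : ∀ a : Fin r → IsLocalRing.ResidueField O, ∃ (V : Fin r → M)
      (T Y : Fin (N + 1) → O), β V = iv O T ∧ G V = iv O Y ∧
      rv O T = redβ (fun j => rv O (b j)) a ∧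
      rv O Y = redG (fun j => rv O (y j)) (fun j l => rv O (γ j l)) a := by
    intro a
    choose a' ha' using fun j => IsLocalRing.residue_surjective (R := O) (a j)
    obtain ⟨z, hz1, hz2⟩ := redG_res O y γ a'
    refine ⟨∑ j, (a' j : M) • v j, ∑ j, a' j • b j, z, ?_, ?_, ?_, ?_⟩
    · rw [map_sum]
      funext i
      rw [Finset.sum_apply]
      have h1 : iv O (∑ j, a' j • b j) i = O.subtype (∑ j, a' j * b j i) := by
        change ((((∑ j, a' j • b j) i : O)) : M) = _
        rw [Finset.sum_apply]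
        rfl
      rw [h1, map_sum]
      refine Finset.sum_congr rfl fun j _ => ?_
      rw [map_smul, hv, map_mul]
      rfl
    · rw [R11_expand hF, ← hz1]
      have e1 : (fun j => G (v j)) = fun j => iv O (y j) := funext hy
      have e2 : (fun j l => Γ (v j) (v l)) = fun j l => iv O (γ j l) := by
        funext j l
        exact hγ j l
      rw [e1, e2]
    · funext i
      change IsLocalRing.residue O ((∑ j, a' j • b j) i) = _
      rw [Finset.sum_apply, map_sum]
      unfold redβ
      rw [Fintype.linearCombination_apply, Finset.sum_apply]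
      refine Finset.sum_congr rfl fun j _ => ?_
      rw [Pi.smul_apply, Pi.smul_apply, smul_eq_mul, smul_eq_mul, map_mul, ha']
      rfl
    · rw [hz2]
      congr 1
      funext j
      exact ha' j
  obtain ⟨cM, hcM⟩ : ∃ cM, cM = cm O.subtype c := ⟨_, rfl⟩
  have hid := hF.hid
  rw [← hcM] at hid
  have hD : ∀ a b : Fin (N + 1) → O, Dc cM (fun i => (a i : M)) (fun i => (b i : M)) =
      ((Dc c a b : O) : M) := by
    intro a b
    rw [hcM]
    exact K6_Dc O c a b
  have hres : ∀ a b : Fin (N + 1) → O, IsLocalRing.residue O (Dc c a b) =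
      Dh (rv O a) (rv O b) := K6_resD O c hc h2
  have hT0 : ∀ a b d : Fin (N + 1) → O, IsLocalRing.residue O (Tc c a b d) = 0 := by
    intro a b d
    rw [← Tc_cm, K6_Tc h2 (cm (IsLocalRing.residue O) c) hc]
  have hFr : ∀ a : Fin (N + 1) → O, IsLocalRing.residue O (Fc c a) =
      ∑ i, (rv O a i) ^ 3 := by
    intro a
    rw [← Fc_cm, A4_Fc (cm (IsLocalRing.residue O) c) hc]
    rfl
  have hFc : ∀ a : Fin (N + 1) → O, Fc cM (fun i => (a i : M)) = ((Fc c a : O) : M) := by
    intro a
    rw [hcM]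
    exact Fc_cm O.subtype a
  have hTc : ∀ a b d : Fin (N + 1) → O, Tc cM (fun i => (a i : M)) (fun i => (b i : M))
      (fun i => (d i : M)) = ((Tc c a b d : O) : M) := by
    intro a b d
    rw [hcM]
    exact Tc_cm O.subtype a b d
  have hcube : ∀ a : Fin (N + 1) → IsLocalRing.ResidueField O, Dh a a = ∑ i, a i ^ 3 := by
    intro a
    unfold Dh
    exact Finset.sum_congr rfl fun i _ => by ring
  -- all the equations
  have heq : ∀ (V : Fin r → M) (T Y : Fin (N + 1) → O), β V = iv O T → G V = iv O Y →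
      Dh (rv O x) (rv O x) = 0 ∧ Dh (rv O x) (rv O T) = 0 ∧
      Dh (rv O x) (rv O Y) = Dh (rv O T) (rv O x) ∧ ∑ i, (rv O T i) ^ 3 = 0 ∧
      Dh (rv O Y) (rv O x) = Dh (rv O T) (rv O Y) ∧ Dh (rv O Y) (rv O T) = 0 ∧
      Dh (rv O Y) (rv O Y) = 0 := by
    intro V T Y hT hY
    obtain ⟨e6, e5, e4, e3, e2, e1, e0⟩ := MP2619.T.st_conic_coeffs cM (fun i => (x i : M)) (β V) (G V)
      (hid V)
    have hT' : β V = fun i => (T i : M) := hT
    have hY' : G V = fun i => (Y i : M) := hY
    rw [hT'] at e5 e4 e3 e2 e1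
    rw [hY'] at e4 e3 e2 e1 e0
    rw [hD] at e5 e1
    rw [hD, hD] at e4 e2
    rw [hFc] at e6 e3 e0
    rw [hTc] at e3
    have f6 : Fc c x = 0 := Subtype.ext e6
    have f5 : Dc c x T = 0 := Subtype.ext e5
    have f4 : Dc c x Y + Dc c T x = 0 := Subtype.ext e4
    have f3 : Fc c T + Tc c x T Y = 0 := Subtype.ext e3
    have f2 : Dc c T Y + Dc c Y x = 0 := Subtype.ext e2
    have f1 : Dc c Y T = 0 := Subtype.ext e1
    have f0 : Fc c Y = 0 := Subtype.ext e0
    have g6 := congrArg (IsLocalRing.residue O) f6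
    have g5 := congrArg (IsLocalRing.residue O) f5
    have g4 := congrArg (IsLocalRing.residue O) f4
    have g3 := congrArg (IsLocalRing.residue O) f3
    have g2 := congrArg (IsLocalRing.residue O) f2
    have g1 := congrArg (IsLocalRing.residue O) f1
    have g0 := congrArg (IsLocalRing.residue O) f0
    rw [map_zero] at g6 g5 g4 g3 g2 g1 g0
    rw [hFr] at g6 g0
    rw [hres] at g5 g1
    rw [map_add, hres, hres] at g4 g2
    rw [map_add, hT0, add_zero, hFr] at g3
    refine ⟨by rw [hcube]; exact g6, g5, ?_, g3, ?_, g1, by rw [hcube]; exact g0⟩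
    · linear_combination g4 - Dh (rv O T) (rv O x) * h2
    · linear_combination g2 - Dh (rv O T) (rv O Y) * h2
  have hli : LinearIndependent (IsLocalRing.ResidueField O) (fun j => rv O (b j)) := by
    have e1 : (fun j => rv O (b j)) = t := funext hb2'
    rw [e1]
    exact ht
  have hβinj : ∀ a, redβ (fun j => rv O (b j)) a = 0 → a = 0 := by
    intro a ha
    rw [Fintype.linearIndependent_iff] at hli
    funext j
    apply hli a
    exact ha
  have hTF : ∀ s ∈ LinearMap.range (redβ (fun j => rv O (b j))), ∑ i, s i ^ 3 = 0 := by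
    rintro _ ⟨a, rfl⟩
    obtain ⟨V, T, Y, h3, h4, h5, h6⟩ := hlift a
    rw [← h5]
    exact (heq V T Y h3 h4).2.2.2.1
  have hpol := K6_polar h2 (LinearMap.range (redβ (fun j => rv O (b j)))) hTF
  refine ⟨?_, hP, ?_, redG_line h2 _ _, redΓ_comm _, redΓ_add _, ?_, ?_, ?_, ?_, ?_, ?_, ?_⟩
  · change IsLocalRing.residue O (x 0) = 1
    rw [hx0, map_one]
  · intro a ha
    obtain ⟨V, T, Y, h3, h4, h5, h6⟩ := hlift a
    have hex : ∃ i, IsLocalRing.residue O (T i) ≠ 0 := by
      by_contra hcon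
      push Not at hcon
      apply ha
      apply hβinj
      rw [← h5]
      funext i
      exact hcon i
    have h7 := s5 V T Y h3 h4 hex
    rw [hres, (heq V T Y h3 h4).2.2.1, h5] at h7
    exact h7
  · obtain ⟨V, T, Y, h3, h4, h5, h6⟩ := hlift 0
    exact (heq V T Y h3 h4).1
  · intro a
    obtain ⟨V, T, Y, h3, h4, h5, h6⟩ := hlift a
    rw [← h5]
    exact (heq V T Y h3 h4).2.1
  · intro a
    obtain ⟨V, T, Y, h3, h4, h5, h6⟩ := hlift a
    rw [← h5, ← h6]
    exact (heq V T Y h3 h4).2.2.1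
  · intro a a'
    exact hpol _ ⟨a, rfl⟩ _ ⟨a', rfl⟩
  · intro a
    obtain ⟨V, T, Y, h3, h4, h5, h6⟩ := hlift a
    rw [← h5, ← h6]
    exact (heq V T Y h3 h4).2.2.2.2.1
  · intro a
    obtain ⟨V, T, Y, h3, h4, h5, h6⟩ := hlift a
    rw [← h5, ← h6]
    exact (heq V T Y h3 h4).2.2.2.2.2.1
  · intro a
    obtain ⟨V, T, Y, h3, h4, h5, h6⟩ := hlift a
    rw [← h6]
    exact (heq V T Y h3 h4).2.2.2.2.2.2

end MP2619.KC
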