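import Pool.Agent.Lib.MP_2619d0_ag.KC.R11

/-!
Row R11t: the polarisation of `F(β v) + T(x, β v, G v) = 0`.
-/

set_option autoImplicit false

namespace MP2619.KC

open MvPolynomial Pool.Agent.Lib.MP_2619d0_ag Pool.Agent.Lib.MP_2619d0_ag.T MP2619.K

variable {M : Type*} [Field M] (O : ValuationSubring M) {N : ℕ}

/-- The polarisation of `F(β v) + T(x, β v, G v) = 0`. -/
theorem R11_trip [Infinite M] {r : ℕ} (c : Fin (N + 1) → Fin (N + 1) → Fin (N + 1) → O)
    (x : Fin (N + 1) → O)
    (β : (Fin r → M) →ₗ[M] (Fin (N + 1) → M)) (G : (Fin r → M) → (Fin (N + 1) → M))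
    (Γ : (Fin r → M) → (Fin r → M) → (Fin (N + 1) → M)) (hF : Fam O c x β G Γ)
    (u v w : Fin r → M) :
    Tc (cm O.subtype c) (β u) (β v) (β w) +
      Tc (cm O.subtype c) (fun i => (x i : M)) (β u) (Γ v w) +
      Tc (cm O.subtype c) (fun i => (x i : M)) (β v) (Γ u w) +
      Tc (cm O.subtype c) (fun i => (x i : M)) (β w) (Γ u v) = 0 := by
  have hid := hF.hid
  generalize cm O.subtype c = cM at hid ⊢
  generalize (fun i => (x i : M)) = X at hid ⊢
  have e : ∀ v, Fc cM (β v) + Tc cM X (β v) (G v) = 0 := fun v =>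
    (MP2619.T.st_conic_coeffs cM X (β v) (G v) (hid v)).2.2.2.1
  have hG2 : ∀ a b, G (a + b) = G a + Γ a b + G b := by
    intro a b
    have h := hF.hΓ a b 1
    simpa only [one_smul, one_pow] using h
  have tr : ∀ a b y, Tc cM X (a + b) y = Tc cM X a y + Tc cM X b y := by
    intro a b y
    rw [Tc_comm, Tc_add_left, Tc_comm, Tc_comm cM b]
  have tr' : ∀ a y z, Tc cM X a (y + z) = Tc cM X a y + Tc cM X a z := by
    intro a y z
    rw [Tc_comm', tr, Tc_comm' cM X y, Tc_comm' cM X z]
  have hΓ2 : Γ (u + v) w = Γ u w + Γ v w := by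
    rw [hF.hΓc, hF.hΓa, hF.hΓc w u, hF.hΓc w v]
  have e1 := e u
  have e2 := e v
  have e3 := e w
  have e12 := e (u + v)
  have e13 := e (u + w)
  have e23 := e (v + w)
  have e123 := e (u + v + w)
  rw [hG2, map_add] at e12 e13 e23
  rw [hG2, hG2, hΓ2, map_add, map_add] at e123
  simp only [Fc_add, Dc_add_left, Dc_add_right, tr, tr'] at e12 e13 e23 e123
  linear_combination e123 - e12 - e13 - e23 + e1 + e2 + e3


/-- the trilinear form is divisible by `π` -/
theorem R11_divT {R : Type*} [CommRing R] {n : ℕ} (c g : Fin n → Fin n → Fin n → R) (π : R)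
    (hπ : π ^ 2 = 2) (hcg : ∀ i j l, c i j l = (if i = j ∧ j = l then 1 else 0) + π * g i j l)
    (a b d : Fin n → R) :
    Tc c a b d = π * (Tc g a b d + 3 * π * ∑ i, a i * b i * d i) := by
  classical
  have h1 : ∀ i j l, c i j l * (a i * b j * d l + a i * d j * b l + b i * a j * d l +
      b i * d j * a l + d i * a j * b l + d i * b j * a l) =
      (if i = j ∧ j = l then (6 : R) * (a i * b i * d i) else 0) +
      π * (g i j l * (a i * b j * d l + a i * d j * b l + b i * a j * d l +
        b i * d j * a l + d i * a j * b l + d i * b j * a l)) := by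
    intro i j l
    rw [hcg]
    split_ifs with h
    · obtain ⟨rfl, rfl⟩ := h
      ring
    · ring
  have h2 : ∑ i, ∑ j, ∑ l, (if i = j ∧ j = l then (6 : R) * (a i * b i * d i) else 0) =
      6 * ∑ i, a i * b i * d i := by
    rw [Finset.mul_sum]
    refine Finset.sum_congr rfl fun i _ => ?_
    rw [Finset.sum_eq_single i, Finset.sum_eq_single i]
    · rw [if_pos ⟨rfl, rfl⟩]
    · intro l _ hl
      rw [if_neg (fun h => hl h.2.symm)]
    · intro h
      exact absurd (Finset.mem_univ _) h
    · intro j _ hj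
      refine Finset.sum_eq_zero fun l _ => ?_
      rw [if_neg (fun h => hj h.1.symm)]
    · intro h
      exact absurd (Finset.mem_univ _) h
  unfold Tc
  simp only [h1, Finset.sum_add_distrib, ← Finset.mul_sum]
  rw [h2]
  linear_combination (- 3 * ∑ i, a i * b i * d i) * hπ

end MP2619.KC
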