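import Pool.Agent.Lib.MP_2619d0_ag.KC.R6
import Pool.Agent.Lib.MP_2619d0_ag.T.B1

/-! Row R7: the generic alternating form does not vanish on a generic hyperplane of a maximal totally
isotropic subspace. -/

set_option autoImplicit false

namespace MP2619.KC

open Pool.Agent.Lib.MP_2619d0_ag.T

variable {κ : Type*} [Field κ] {n s : ℕ}

/-- The trilinear form does not vanish on three vectors with coordinates in the field of four elements
(more generally in the field of sixteen elements), if one of their `3 × 3` permanents is not zero. -/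
theorem R7_ne (h2 : (2 : κ) = 0) (g : Fin n → Fin n → Fin n → κ)
    (hg0 : ∀ i j l, ¬ (i ≤ j ∧ j ≤ l) → g i j l = 0)
    (hgen : ∀ s : Fin n → Fin n → Fin n → κ, (∀ i j l, s i j l ^ 16 = s i j l) →
      ∑ i, ∑ j, ∑ l, s i j l * g i j l = 0 → ∀ i j l, i ≤ j → j ≤ l → s i j l = 0)
    (u v w : Fin n → κ) (hu : ∀ i, u i ^ 16 = u i) (hv : ∀ i, v i ^ 16 = v i)
    (hw : ∀ i, w i ^ 16 = w i) (i j l : Fin n) (hij : i < j) (hjl : j < l)
    (hperm : u i * v j * w l + u i * v l * w j + u j * v i * w l + u j * v l * w i +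
      u l * v i * w j + u l * v j * w i ≠ 0) : Tc g u v w ≠ 0 := by
  have : CharP κ 2 := CharTwo.of_one_ne_zero_of_two_eq_zero one_ne_zero h2
  have hadd : ∀ a b : κ, (a + b) ^ 16 = a ^ 16 + b ^ 16 := fun a b =>
    add_pow_char_pow (p := 2) (n := 4) a b
  intro h
  apply hperm
  have h1 := hgen (fun i j k => u i * v j * w k + u i * w j * v k + v i * u j * w k +
    v i * w j * u k + w i * u j * v k + w i * v j * u k) (by
      intro i j l
      simp only [hadd, mul_pow, hu, hv, hw]) (by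
      rw [← h]
      unfold Tc
      exact Finset.sum_congr rfl fun i _ => Finset.sum_congr rfl fun j _ =>
        Finset.sum_congr rfl fun k _ => mul_comm _ _) i j l hij.le hjl.le
  rw [← h1]
  ring

theorem Tc_add_mid {R ι : Type*} [CommRing R] [Fintype ι] (c : ι → ι → ι → R) (x y y' z : ι → R) :
    Tc c x (y + y') z = Tc c x y z + Tc c x y' z := by
  rw [Tc_comm, Tc_add_left, Tc_comm c y, Tc_comm c y']

theorem Tc_smul_mid {R ι : Type*} [CommRing R] [Fintype ι] (c : ι → ι → ι → R) (a : R)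
    (x y z : ι → R) : Tc c x (a • y) z = a * Tc c x y z := by
  rw [Tc_comm, Tc_smul_left, Tc_comm c y]

theorem Tc_add_right {R ι : Type*} [CommRing R] [Fintype ι] (c : ι → ι → ι → R)
    (x y z z' : ι → R) : Tc c x y (z + z') = Tc c x y z + Tc c x y z' := by
  rw [Tc_comm', Tc_add_mid, Tc_comm' c x z, Tc_comm' c x z']

theorem Tc_smul_right {R ι : Type*} [CommRing R] [Fintype ι] (c : ι → ι → ι → R) (a : R)
    (x y z : ι → R) : Tc c x y (a • z) = a * Tc c x y z := by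
  rw [Tc_comm', Tc_smul_mid, Tc_comm' c x z]

theorem R7_Dh_add_right (x a b : Fin n → κ) : Dh x (a + b) = Dh x a + Dh x b := by
  simp only [Dh, Pi.add_apply, mul_add, Finset.sum_add_distrib]

theorem R7_Dh_smul_right (x : Fin n → κ) (c : κ) (b : Fin n → κ) : Dh x (c • b) = c * Dh x b := by
  simp only [Dh, Pi.smul_apply, smul_eq_mul, Finset.mul_sum]
  exact Finset.sum_congr rfl fun i _ => by ring

theorem Tc_mem (k0 : Subfield κ) (g : Fin n → Fin n → Fin n → κ) (hg : ∀ i j l, g i j l ∈ k0)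
    (u v w : Fin n → κ) (hu : ∀ i, u i ∈ k0) (hv : ∀ i, v i ∈ k0) (hw : ∀ i, w i ∈ k0) :
    Tc g u v w ∈ k0 := by
  unfold Tc
  refine sum_mem fun i _ => sum_mem fun j _ => sum_mem fun l _ => mul_mem (hg i j l) ?_
  have h1 : ∀ {a b c : κ}, a ∈ k0 → b ∈ k0 → c ∈ k0 → a * b * c ∈ k0 := fun ha hb hc =>
    mul_mem (mul_mem ha hb) hc
  exact add_mem (add_mem (add_mem (add_mem (add_mem (h1 (hu _) (hv _) (hw _))
    (h1 (hu _) (hw _) (hv _))) (h1 (hv _) (hu _) (hw _))) (h1 (hv _) (hw _) (hu _)))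
    (h1 (hw _) (hu _) (hv _))) (h1 (hw _) (hv _) (hu _))

/-- the four term relation -/
theorem R7_four (h2 : (2 : κ) = 0) (g : Fin n → Fin n → Fin n → κ) (x a b c d : Fin n → κ)
    (ha : Dh x a ≠ 0)
    (h : Tc g (Dh x a • b + Dh x b • a) (Dh x a • c + Dh x c • a) (Dh x a • d + Dh x d • a) = 0) :
    Dh x (Tc g b c d • a + Tc g a c d • b + Tc g a b d • c + Tc g a b c • d) = 0 := by
  have haa : ∀ y, Tc g a a y = 0 := fun y => by rw [Tc_self, h2, zero_mul]
  have haa' : ∀ y, Tc g a y a = 0 := fun y => by rw [Tc_comm', haa]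
  have haa'' : ∀ y, Tc g y a a = 0 := fun y => by rw [Tc_comm, haa']
  simp only [Tc_add_left, Tc_add_mid, Tc_add_right, Tc_smul_left, Tc_smul_mid, Tc_smul_right, haa,
    haa', haa'', mul_zero, add_zero] at h
  simp only [R7_Dh_add_right, R7_Dh_smul_right]
  have h1 : Dh x a ^ 2 * (Tc g b c d * Dh x a + Tc g a c d * Dh x b + Tc g a b d * Dh x c +
      Tc g a b c * Dh x d) = 0 := by
    rw [← h, Tc_comm g b a d, show Tc g b c a = Tc g a b c from by
      rw [Tc_comm', Tc_comm]]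
    ring
  rcases mul_eq_zero.1 h1 with h3 | h3
  · exact absurd (pow_eq_zero_iff (two_ne_zero)|>.1 h3) ha
  · exact h3

theorem R7_final (h2 : (2 : κ) = 0) (k0 : Subfield κ) (hk4 : ∀ a : κ, a ^ 4 = a → a ∈ k0)
    (g : Fin n → Fin n → Fin n → κ) (hgk : ∀ i j l, g i j l ∈ k0)
    (hg0 : ∀ i j l, ¬ (i ≤ j ∧ j ≤ l) → g i j l = 0)
    (hgen : ∀ s : Fin n → Fin n → Fin n → κ, (∀ i j l, s i j l ^ 16 = s i j l) →
      ∑ i, ∑ j, ∑ l, s i j l * g i j l = 0 → ∀ i j l, i ≤ j → j ≤ l → s i j l = 0)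
    (x : Fin n → κ) (hx : ∀ a : Fin n → κ, (∀ i, a i ∈ k0) → Dh x a = 0 → ∀ i, a i = 0)
    (U : Submodule κ (Fin n → κ))
    (hU : ∀ a ∈ U, ∀ b ∈ U, Dh a b = 0) (hn : n = 2 * s) (hs : Module.finrank κ U = s)
    (hs4 : 4 ≤ s)
    (hT : ∀ a ∈ U, ∀ b ∈ U, ∀ c ∈ U, Dh x a = 0 → Dh x b = 0 → Dh x c = 0 → Tc g a b c = 0) :
    False := by
  obtain ⟨J, w, hwU, hwJ, hw4, -⟩ := R6_basis h2 U hU hn hs
  have hwk : ∀ a i, w a i ∈ k0 := fun a i => hk4 _ (hw4 a i)
  have hXi : ∀ a, Dh x (w a) ≠ 0 := by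
    intro a h
    have h1 := hx (w a) (hwk a) h (J a)
    rw [hwJ, if_pos rfl] at h1
    exact one_ne_zero h1
  have hw16 : ∀ a i, w a i ^ 16 = w a i := by
    intro a i
    rw [show (16 : ℕ) = 4 * 4 from rfl, pow_mul, hw4, hw4]
  let a : Fin s := ⟨3, by omega⟩
  let b : Fin s := ⟨0, by omega⟩
  let c : Fin s := ⟨1, by omega⟩
  let d : Fin s := ⟨2, by omega⟩
  have hmem : ∀ e : Fin s, Dh x (w a) • w e + Dh x (w e) • w a ∈ U ∧
      Dh x (Dh x (w a) • w e + Dh x (w e) • w a) = 0 := by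
    intro e
    refine ⟨U.add_mem (U.smul_mem _ (hwU e)) (U.smul_mem _ (hwU a)), ?_⟩
    rw [R7_Dh_add_right, R7_Dh_smul_right, R7_Dh_smul_right]
    linear_combination (Dh x (w a) * Dh x (w e)) * h2
  have h3 := R7_four h2 g x (w a) (w b) (w c) (w d) (hXi a)
    (hT _ (hmem b).1 _ (hmem c).1 _ (hmem d).1 (hmem b).2 (hmem c).2 (hmem d).2)
  have h4 := hx _ (by
    intro i
    simp only [Pi.add_apply, Pi.smul_apply, smul_eq_mul]
    have h5 : ∀ e f k : Fin s, Tc g (w e) (w f) (w k) ∈ k0 := fun e f k =>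
      Tc_mem k0 g hgk _ _ _ (hwk e) (hwk f) (hwk k)
    exact add_mem (add_mem (add_mem (mul_mem (h5 _ _ _) (hwk _ _)) (mul_mem (h5 _ _ _) (hwk _ _)))
      (mul_mem (h5 _ _ _) (hwk _ _))) (mul_mem (h5 _ _ _) (hwk _ _))) h3 (J a)
  simp only [Pi.add_apply, Pi.smul_apply, smul_eq_mul, hwJ] at h4
  have hba : b ≠ a := by simp [a, b, Fin.ext_iff]
  have hca : c ≠ a := by simp [a, c, Fin.ext_iff]
  have hda : d ≠ a := by simp [a, d, Fin.ext_iff]
  rw [if_neg hba, if_neg hca, if_neg hda] at h4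
  have h5 : Tc g (w b) (w c) (w d) = 0 := by
    rw [← h4, if_true]
    ring
  have hbc : b < c := by simp [b, c, Fin.lt_def]
  have hcd : c < d := by simp [c, d, Fin.lt_def]
  refine R7_ne h2 g hg0 hgen (w b) (w c) (w d) (hw16 b) (hw16 c) (hw16 d) (J b) (J c) (J d)
    (J.lt_iff_lt.2 hbc) (J.lt_iff_lt.2 hcd) ?_ h5
  have hbd : b < d := hbc.trans hcd
  simp only [hwJ, if_true, if_neg hbc.ne, if_neg hbc.ne', if_neg hcd.ne, if_neg hcd.ne',
    if_neg hbd.ne, if_neg hbd.ne']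
  norm_num

end MP2619.KC
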