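import Pool.Agent.Lib.MP_2619d0_ag.KC.R5
import Pool.Agent.Lib.MP_2619d0_ag.KC.R7
import Pool.Agent.Lib.MP_2619d0_ag.KC.R10a
import Pool.Agent.Lib.MP_2619d0_ag.KC.R11b
import Pool.Agent.Lib.MP_2619d0_ag.KC.R11t

/-!
Row R12: the critical case over the valuation ring, `m = 2 r`, `r ≥ 3`.
-/

set_option autoImplicit false

namespace MP2619.KC

open MvPolynomial Pool.Agent.Lib.MP_2619d0_ag Pool.Agent.Lib.MP_2619d0_ag.T MP2619.K

variable {M : Type*} [Field M] (O : ValuationSubring M)

/-- the trilinear form vanishes on a span if it vanishes on the generators -/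
theorem R12_span {κ : Type*} [Field κ] {n r : ℕ} (g : Fin n → Fin n → Fin n → κ)
    (b : Fin r → Fin n → κ) (h : ∀ j l e, Tc g (b j) (b l) (b e) = 0) (u v w : Fin r → κ) :
    Tc g (redβ b u) (redβ b v) (redβ b w) = 0 := by
  have h1 : ∀ j l, ∀ w : Fin r → κ, Tc g (b j) (b l) (redβ b w) = 0 := by
    intro j l w
    refine R5_lin (fun w => Tc g (b j) (b l) (redβ b w)) ?_ ?_ ?_ w
    · intro a a'
      rw [map_add, Tc_add_right]
    · intro s a
      rw [map_smul, Tc_smul_right, smul_eq_mul]
    · intro e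
      unfold redβ
      rw [Fintype.linearCombination_apply_single, one_smul]
      exact h j l e
  have h3 : ∀ j, ∀ v w : Fin r → κ, Tc g (b j) (redβ b v) (redβ b w) = 0 := by
    intro j v w
    refine R5_lin (fun v => Tc g (b j) (redβ b v) (redβ b w)) ?_ ?_ ?_ v
    · intro a a'
      rw [map_add, Tc_add_mid]
    · intro s a
      rw [map_smul, Tc_smul_mid, smul_eq_mul]
    · intro e
      change Tc g (b j) (redβ b (Pi.single e 1)) (redβ b w) = 0
      have h4 : redβ b (Pi.single e 1) = b e := by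
        unfold redβ
        rw [Fintype.linearCombination_apply_single, one_smul]
      rw [h4]
      exact h1 j e w
  refine R5_lin (fun u => Tc g (redβ b u) (redβ b v) (redβ b w)) ?_ ?_ ?_ u
  · intro a a'
    rw [map_add, Tc_add_left]
  · intro s a
    rw [map_smul, Tc_smul_left, smul_eq_mul]
  · intro e
    change Tc g (redβ b (Pi.single e 1)) (redβ b v) (redβ b w) = 0
    have h4 : redβ b (Pi.single e 1) = b e := by
      unfold redβ
      rw [Fintype.linearCombination_apply_single, one_smul]
    rw [h4]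
    exact h3 e v w

theorem R12_main [Infinite M] {m r : ℕ}
    (c g : Fin (m + 1 + 1) → Fin (m + 1 + 1) → Fin (m + 1 + 1) → O) (π : O)
    (x : Fin (m + 1 + 1) → O) (k0 : Subfield (IsLocalRing.ResidueField O))
    (hpl : Plc O c g π x k0) (h20 : (2 : M) ≠ 0)
    (β : (Fin r → M) →ₗ[M] (Fin (m + 1 + 1) → M)) (G : (Fin r → M) → (Fin (m + 1 + 1) → M))
    (Γ : (Fin r → M) → (Fin r → M) → (Fin (m + 1 + 1) → M)) (hF : Fam O c x β G Γ)
    (hr : 3 ≤ r) (hm : m = 2 * r) : False := by
  classical
  have h2 := hpl.two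
  have hinf := hpl.inf
  have hπ0 : IsLocalRing.residue O π = 0 := by
    have h1 := congrArg (IsLocalRing.residue O) hpl.piq
    rw [map_pow, map_ofNat, h2] at h1
    exact pow_eq_zero_iff (two_ne_zero) |>.1 h1
  have hc : ∀ i j l, IsLocalRing.residue O (c i j l) = if i = j ∧ j = l then 1 else 0 := by
    intro i j l
    rw [hpl.cg, map_add, map_mul, hπ0, zero_mul, add_zero]
    split_ifs
    · rw [map_one]
    · rw [map_zero]
  have hP : ∀ w : Fin (m + 1 + 1) → IsLocalRing.ResidueField O,
    ∑ i, w i ^ 2 * IsLocalRing.residue O (x i) = 0 →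
      w = w 0 • fun i => IsLocalRing.residue O (x i) := hpl.hP
  have hπ1 : π ≠ 0 := by
    intro h0
    have h3 := hpl.piq
    rw [h0, zero_pow (by norm_num)] at h3
    apply h20
    have h5 : ((2 : O) : M) = ((0 : O) : M) := by rw [← h3]
    exact h5
  obtain ⟨t, ht, htT⟩ := R11_exists O β x hF.hB
  obtain ⟨v, b, y, γ, hb, hy, hγ, hbt, hS⟩ := R11_lattice O c hc h2 hinf x hpl.x0 hP β G Γ hF
    t ht htT
  have hD : ∀ j : Fin m, ∃ D : Derivation ℤ (IsLocalRing.ResidueField O)
      (IsLocalRing.ResidueField O), ∀ i, D (rv O x i.succ.succ) = if i = j then 1 else 0 := by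
    intro j
    obtain ⟨D, hD1, hD2⟩ := hpl.der j
    obtain ⟨D', hD'⟩ := R10_conv _ _ D
    exact ⟨D', fun i => by rw [hD']; exact hD1 i⟩
  obtain ⟨lam, w, hxw, hww, hwb, hbw, hΓ, hG⟩ := R5_main h2 hS (by omega) hm hpl.x1 hD
  -- the trilinear form on `T`
  obtain ⟨gb, hgb⟩ : ∃ gb, gb = cm (IsLocalRing.residue O) g := ⟨_, rfl⟩
  have hdiv : ∀ a b d : Fin (m + 1 + 1) → O, ∃ e : O, Tc c a b d = π * e ∧
      IsLocalRing.residue O e = Tc gb (rv O a) (rv O b) (rv O d) := by
    intro a b d
    refine ⟨_, R11_divT c g π hpl.piq hpl.cg a b d, ?_⟩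
    rw [map_add, map_mul, map_mul, hπ0, mul_zero, zero_mul, add_zero, hgb]
    exact (Tc_cm (IsLocalRing.residue O) a b d).symm
  have htri : ∀ j l e, Tc gb (rv O (b j)) (rv O (b l)) (rv O (b e)) +
      Tc gb (rv O x) (rv O (b j)) (rv O (γ l e)) +
      Tc gb (rv O x) (rv O (b l)) (rv O (γ j e)) +
      Tc gb (rv O x) (rv O (b e)) (rv O (γ j l)) = 0 := by
    intro j l e
    have h1 := R11_trip O c x β G Γ hF (v j) (v l) (v e)
    rw [hb, hb, hb, hγ, hγ, hγ] at h1
    have h3 : ∀ a b d : Fin (m + 1 + 1) → O, Tc (cm O.subtype c) (iv O a) (iv O b) (iv O d) =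
        ((Tc c a b d : O) : M) := fun a b d => Tc_cm O.subtype a b d
    have h4 : (fun i => (x i : M)) = iv O x := rfl
    rw [h4, h3, h3, h3, h3] at h1
    have h5 : Tc c (b j) (b l) (b e) + Tc c x (b j) (γ l e) + Tc c x (b l) (γ j e) +
        Tc c x (b e) (γ j l) = 0 := Subtype.ext h1
    obtain ⟨e1, he1, hr1⟩ := hdiv (b j) (b l) (b e)
    obtain ⟨e2, he2, hr2⟩ := hdiv x (b j) (γ l e)
    obtain ⟨e3, he3, hr3⟩ := hdiv x (b l) (γ j e)
    obtain ⟨e4, he4, hr4⟩ := hdiv x (b e) (γ j l)
    rw [he1, he2, he3, he4] at h5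
    have h6 : e1 + e2 + e3 + e4 = 0 := by
      apply mul_left_cancel₀ hπ1
      linear_combination h5
    have h7 := congrArg (IsLocalRing.residue O) h6
    rw [map_add, map_add, map_add, hr1, hr2, hr3, hr4, map_zero] at h7
    exact h7
  have hred1 : ∀ j, redβ (fun j => rv O (b j)) (Pi.single j 1) = rv O (b j) := by
    intro j
    unfold redβ
    rw [Fintype.linearCombination_apply_single, one_smul]
  have hγs : ∀ j l, γ j l = γ l j := by
    intro j l
    have h1 := hF.hΓc (v j) (v l)
    rw [hγ, hγ] at h1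
    funext i
    exact Subtype.ext (congrFun h1 i)
  have hγd : ∀ j, rv O (γ j j) = 0 := by
    intro j
    have h1 := hF.hΓ (v j) (v j) 1
    have h3 := hF.hΓ (v j) (v j) (-1)
    have h4 : v j + (-1 : M) • v j = 0 := by
      rw [neg_one_smul, add_neg_cancel]
    rw [h4, hF.hG0, hγ, hy] at h3
    funext i
    have h5 := congrFun h3 i
    simp only [Pi.add_apply, Pi.smul_apply, smul_eq_mul, Pi.zero_apply] at h5
    have h6 : γ j j i = 2 * y j i := by
      apply Subtype.ext
      have h7 : ((2 * y j i : O) : M) = 2 * (y j i : M) := rfl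
      rw [h7]
      change (iv O (γ j j) i) = 2 * iv O (y j) i
      linear_combination h5
    change IsLocalRing.residue O (γ j j i) = 0
    rw [h6, map_mul, map_ofNat, h2, zero_mul]
  have hγlt : ∀ j l, j < l → rv O (γ j l) = lam (Pi.single j 1) • rv O (b l) +
      lam (Pi.single l 1) • rv O (b j) := by
    intro j l hjl
    have h1 := hΓ (Pi.single j 1) (Pi.single l 1)
    rw [hred1, hred1] at h1
    rw [← h1]
    unfold redΓ
    rw [Finset.sum_eq_single j, Finset.sum_eq_single l]
    · rw [if_pos hjl, Pi.single_eq_same, Pi.single_eq_same, Pi.single_eq_of_ne hjl.ne',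
        Pi.single_eq_of_ne hjl.ne, mul_one, mul_zero, add_zero, one_smul]
    · intro i _ hi
      rw [Pi.single_eq_of_ne hi, mul_zero, zero_add]
      split_ifs with h3
      · by_cases hij : i = j
        · exact absurd h3 (by rw [hij]; exact lt_irrefl j)
        · rw [Pi.single_eq_of_ne hij, zero_mul, zero_smul]
      · rfl
    · intro h3
      exact absurd (Finset.mem_univ _) h3
    · intro i _ hi
      refine Finset.sum_eq_zero fun e _ => ?_
      split_ifs with h3
      · rw [Pi.single_eq_of_ne hi, zero_mul, zero_add]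
        by_cases hil : i = l
        · by_cases hej : e = j
          · rw [hil, hej] at h3
            exact absurd h3 (asymm hjl)
          · rw [Pi.single_eq_of_ne hej, zero_mul, zero_smul]
        · rw [Pi.single_eq_of_ne hil, mul_zero, zero_smul]
      · rfl
    · intro h3
      exact absurd (Finset.mem_univ _) h3
  have hγall : ∀ j l, rv O (γ j l) = lam (Pi.single j 1) • rv O (b l) +
      lam (Pi.single l 1) • rv O (b j) := by
    intro j l
    rcases lt_trichotomy j l with h | h | h
    · exact hγlt j l h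
    · rw [h, hγd]
      funext i
      simp only [Pi.add_apply, Pi.smul_apply, smul_eq_mul, Pi.zero_apply]
      linear_combination (- lam (Pi.single l 1) * rv O (b l) i) * h2
    · rw [hγs, hγlt l j h]
      exact add_comm _ _
  have hTb : ∀ j l e, Tc gb (rv O (b j)) (rv O (b l)) (rv O (b e)) = 0 := by
    intro j l e
    have h1 := htri j l e
    rw [hγall, hγall, hγall] at h1
    simp only [Tc_add_right, Tc_smul_right] at h1
    rw [Tc_comm' gb (rv O x) (rv O (b l)) (rv O (b j)),
      Tc_comm' gb (rv O x) (rv O (b e)) (rv O (b j)),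
      Tc_comm' gb (rv O x) (rv O (b e)) (rv O (b l))] at h1
    linear_combination h1 - (lam (Pi.single l 1) * Tc gb (rv O x) (rv O (b j)) (rv O (b e)) +
      lam (Pi.single e 1) * Tc gb (rv O x) (rv O (b j)) (rv O (b l)) +
      lam (Pi.single j 1) * Tc gb (rv O x) (rv O (b l)) (rv O (b e))) * h2
  have hT0 := R12_span gb (fun j => rv O (b j)) hTb
  -- the isotropic subspace
  obtain ⟨κβ, hκβ⟩ : ∃ κβ, κβ = redβ (fun j => rv O (b j)) := ⟨_, rfl⟩
  rw [← hκβ] at hS hwb hbw hT0
  obtain ⟨S, hSd⟩ : ∃ S : Set (Fin (m + 1 + 1) → IsLocalRing.ResidueField O),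
    S = {a | (∃ v, a = κβ v) ∨ a = w} := ⟨_, rfl⟩
  have hSS : ∀ a ∈ S, ∀ b ∈ S, Dh a b = 0 := by
    rw [hSd]
    rintro a (⟨v, rfl⟩ | rfl) b (⟨v', rfl⟩ | rfl)
    · exact hS.h3 _ _
    · exact hbw _
    · exact hwb _
    · exact hww
  have hiso := R2_span h2 S hSS
  have hspan : ∀ a ∈ Submodule.span (IsLocalRing.ResidueField O) S,
      ∃ v, a = κβ v + Dh (rv O x) a • w := by
    intro a ha
    induction ha using Submodule.span_induction with
    | mem a ha =>
      rw [hSd] at ha
      rcases ha with ⟨v, rfl⟩ | rfl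
      · exact ⟨v, by rw [hS.h1, zero_smul, add_zero]⟩
      · exact ⟨0, by rw [hxw, map_zero, one_smul, zero_add]⟩
    | zero => exact ⟨0, by rw [Dh_zero_right, map_zero, zero_smul, add_zero]⟩
    | add a a' _ _ ha ha' =>
      obtain ⟨v, hv⟩ := ha
      obtain ⟨v', hv'⟩ := ha'
      refine ⟨v + v', ?_⟩
      rw [Dh_add_right, map_add, add_smul]
      conv_lhs => rw [hv, hv']
      abel
    | smul s a _ ha =>
      obtain ⟨v, hv⟩ := ha
      refine ⟨s • v, ?_⟩
      rw [Dh_smul_right, map_smul, mul_smul, ← smul_add, ← hv]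
  have hinj : Function.Injective κβ := by
    rw [injective_iff_map_eq_zero]
    intro v hv
    by_contra hne
    apply hS.nz v hne
    rw [hv, Dh_zero_left]
  have hrange : Module.finrank (IsLocalRing.ResidueField O) (LinearMap.range κβ) = r := by
    rw [LinearMap.finrank_range_of_inj hinj, Module.finrank_fin_fun]
  have hSeq : Submodule.span (IsLocalRing.ResidueField O) S =
      LinearMap.range κβ ⊔ Submodule.span (IsLocalRing.ResidueField O) {w} := by
    apply le_antisymm
    · rw [Submodule.span_le]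
      intro a ha
      rw [hSd] at ha
      rcases ha with ⟨v, rfl⟩ | rfl
      · exact Submodule.mem_sup_left ⟨v, rfl⟩
      · exact Submodule.mem_sup_right (Submodule.mem_span_singleton_self _)
    · refine sup_le ?_ ?_
      · rintro _ ⟨v, rfl⟩
        apply Submodule.subset_span
        rw [hSd]
        exact Or.inl ⟨v, rfl⟩
      · rw [Submodule.span_singleton_le_iff_mem]
        apply Submodule.subset_span
        rw [hSd]
        exact Or.inr rfl
  have hwn : w ∉ LinearMap.range κβ := by
    rintro ⟨v, hv⟩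
    rw [← hv, hS.h1] at hxw
    exact zero_ne_one hxw
  have hfin : Module.finrank (IsLocalRing.ResidueField O)
      (Submodule.span (IsLocalRing.ResidueField O) S) = r + 1 := by
    have hlt : LinearMap.range κβ < Submodule.span (IsLocalRing.ResidueField O) S := by
      rw [hSeq]
      refine lt_of_le_of_ne le_sup_left fun h => hwn ?_
      rw [h]
      exact Submodule.mem_sup_right (Submodule.mem_span_singleton_self w)
    have h3 := Submodule.finrank_lt_finrank_of_lt hlt
    have h4 := K6_dim h2 (R2_hadd h2) (Submodule.span (IsLocalRing.ResidueField O) S)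
    have h5 := Submodule.finrank_mono (show Submodule.span (IsLocalRing.ResidueField O) S ≤
      K6_S (R2_hadd h2) (Submodule.span (IsLocalRing.ResidueField O) S) from
        fun a ha => hiso a ha)
    omega
  refine R7_final h2 k0 hpl.k4 gb ?_ ?_ ?_ (rv O x) hpl.lin
    (Submodule.span (IsLocalRing.ResidueField O) S) hiso (s := r + 1) (by omega) hfin (by omega) ?_
  · intro i j l
    rw [hgb]
    exact hpl.gk i j l
  · intro i j l h
    rw [hgb]
    change IsLocalRing.residue O (g i j l) = 0
    rw [hpl.g0 i j l h, map_zero]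
  · rw [hgb]
    exact hpl.gen
  · intro a ha b' hb' d hd h3 h4 h5
    obtain ⟨v1, hv1⟩ := hspan a ha
    obtain ⟨v2, hv2⟩ := hspan b' hb'
    obtain ⟨v3, hv3⟩ := hspan d hd
    rw [h3, zero_smul, add_zero] at hv1
    rw [h4, zero_smul, add_zero] at hv2
    rw [h5, zero_smul, add_zero] at hv3
    rw [hv1, hv2, hv3]
    exact hT0 _ _ _

end MP2619.KC
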