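import Pool.Agent.Lib.MP_2619d0_ag.KC.Defs

/-! Row R3: `2`-independence, by derivations. -/

set_option autoImplicit false

namespace MP2619.KC

variable {κ : Type*} [Field κ] {m r : ℕ}

theorem R3_prod {ι : Type*} [DecidableEq ι] (D : Derivation ℤ κ κ) (X : ι → κ) (S : Finset ι) :
    D (∏ i ∈ S, X i) = ∑ i ∈ S, (∏ k ∈ S.erase i, X k) * D (X i) := by
  induction S using Finset.induction_on with
  | empty => simp
  | insert a S ha ih =>
    rw [Finset.prod_insert ha, Derivation.leibniz, ih, Finset.sum_insert ha,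
      Finset.erase_insert ha, smul_eq_mul, smul_eq_mul, add_comm, Finset.mul_sum]
    congr 1
    refine Finset.sum_congr rfl fun i hi => ?_
    have hne : i ≠ a := fun h => ha (h ▸ hi)
    rw [Finset.erase_insert_of_ne (fun h => hne h.symm), Finset.prod_insert
      (fun h => ha (Finset.mem_of_mem_erase h))]
    ring

theorem R3_sq (h2 : (2 : κ) = 0) (D : Derivation ℤ κ κ) (c : κ) : D (c ^ 2) = 0 := by
  rw [Derivation.leibniz_pow]
  simp only [nsmul_eq_mul, smul_eq_mul, Nat.cast_ofNat, h2, zero_mul]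

/-- the derivative of a relation -/
theorem R3_rel (h2 : (2 : κ) = 0) (D : Derivation ℤ κ κ) (X d : Fin r → κ)
    (hd : ∀ i, D (X i) = d i ^ 2) (c : Finset (Fin r) → κ)
    (hc : ∑ S, c S ^ 2 * ∏ i ∈ S, X i = 0) :
    ∑ S : Finset (Fin r), (∑ i ∈ Sᶜ, c (insert i S) * d i) ^ 2 * ∏ i ∈ S, X i = 0 := by
  classical
  have : CharP κ 2 := CharTwo.of_one_ne_zero_of_two_eq_zero one_ne_zero h2
  have h := congrArg D hc
  rw [map_sum, map_zero] at h
  have e1 : ∀ S : Finset (Fin r), D (c S ^ 2 * ∏ i ∈ S, X i) =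
      ∑ i, if i ∈ S then c S ^ 2 * (∏ k ∈ S.erase i, X k) * d i ^ 2 else 0 := by
    intro S
    rw [Derivation.leibniz, R3_sq h2, smul_zero, add_zero, R3_prod, smul_eq_mul, Finset.mul_sum,
      ← Finset.sum_filter, Finset.filter_mem_eq_inter, Finset.univ_inter]
    exact Finset.sum_congr rfl fun i _ => by rw [hd]; ring
  have e2 : ∀ S : Finset (Fin r), (∑ i ∈ Sᶜ, c (insert i S) * d i) ^ 2 * ∏ i ∈ S, X i =
      ∑ i, if i ∈ S then 0 else c (insert i S) ^ 2 * (∏ k ∈ S, X k) * d i ^ 2 := by
    intro S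
    have e3 := sum_pow_char (R := κ) 2 Sᶜ (fun i => c (insert i S) * d i)
    rw [e3, Finset.sum_mul]
    have e4 : ∀ i, (if i ∈ S then 0 else c (insert i S) ^ 2 * (∏ k ∈ S, X k) * d i ^ 2) =
        if i ∈ Sᶜ then c (insert i S) ^ 2 * (∏ k ∈ S, X k) * d i ^ 2 else 0 := by
      intro i
      by_cases hi : i ∈ S
      · rw [if_pos hi, if_neg (by simpa using hi)]
      · rw [if_neg hi, if_pos (by simpa using hi)]
    simp only [e4]
    rw [← Finset.sum_filter, Finset.filter_mem_eq_inter, Finset.univ_inter]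
    exact Finset.sum_congr rfl fun i _ => by ring
  simp only [e1] at h
  simp only [e2]
  rw [Finset.sum_comm] at h ⊢
  refine Eq.trans ?_ h
  refine Finset.sum_congr rfl fun i _ => ?_
  rw [← Finset.sum_filter]
  have e5 : ∀ S : Finset (Fin r), (if i ∈ S then 0 else c (insert i S) ^ 2 * (∏ k ∈ S, X k) *
      d i ^ 2) = if i ∉ S then c (insert i S) ^ 2 * (∏ k ∈ S, X k) * d i ^ 2 else 0 := by
    intro S
    by_cases hi : i ∈ S
    · rw [if_pos hi, if_neg (not_not.2 hi)]
    · rw [if_neg hi, if_pos hi]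
  simp only [e5]
  rw [← Finset.sum_filter]
  refine Finset.sum_nbij' (fun S => insert i S) (fun S => S.erase i) ?_ ?_ ?_ ?_ ?_
  · intro S _
    simp
  · intro S _
    simp
  · intro S hS
    exact Finset.erase_insert (by simpa using hS)
  · intro S hS
    exact Finset.insert_erase (by simpa using hS)
  · intro S hS
    have hi : i ∉ S := by simpa using hS
    rw [Finset.erase_insert hi]

theorem R3_induct (h2 : (2 : κ) = 0) (X : Fin r → κ) (d : Fin m → Fin r → κ)
    (hD : ∀ j : Fin m, ∃ D : Derivation ℤ κ κ, ∀ i, D (X i) = d j i ^ 2)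
    (hd : ∀ v : Fin r → κ, (∀ j, ∑ i, v i * d j i = 0) → v = 0) (n : ℕ) :
    ∀ c : Finset (Fin r) → κ, (∀ S, n < S.card → c S = 0) →
      ∑ S, c S ^ 2 * ∏ i ∈ S, X i = 0 → ∀ S, c S = 0 := by
  classical
  have fin : ∀ c : Finset (Fin r) → κ, (∀ S, S ≠ ∅ → c S = 0) →
      ∑ S, c S ^ 2 * ∏ i ∈ S, X i = 0 → ∀ S, c S = 0 := by
    intro c hc hs S
    by_cases hS : S = ∅
    · subst hS
      rw [Finset.sum_eq_single ∅] at hs
      · simpa using hs
      · intro S _ hS
        rw [hc S hS]; ring
      · intro h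
        exact absurd (Finset.mem_univ _) h
    · exact hc S hS
  induction n with
  | zero =>
    intro c hc hs
    exact fin c (fun S hS => hc S (Finset.card_pos.2 (Finset.nonempty_iff_ne_empty.2 hS))) hs
  | succ n ih =>
    intro c hc hs
    apply fin c _ hs
    intro S hS
    obtain ⟨i, hi⟩ := Finset.nonempty_iff_ne_empty.2 hS
    have key : ∀ j : Fin m, ∀ T : Finset (Fin r), ∑ i ∈ Tᶜ, c (insert i T) * d j i = 0 := by
      intro j
      obtain ⟨D, hDj⟩ := hD j
      refine ih (fun T => ∑ i ∈ Tᶜ, c (insert i T) * d j i) ?_ (R3_rel h2 D X (d j) hDj c hs)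
      intro T hT
      refine Finset.sum_eq_zero fun i hi => ?_
      rw [hc, zero_mul]
      rw [Finset.card_insert_of_notMem (by simpa using hi)]
      omega
    have hv := hd (fun k => if k ∈ S.erase i then 0 else c (insert k (S.erase i))) (by
      intro j
      refine Eq.trans ?_ (key j (S.erase i))
      have e : ∀ k, (if k ∈ S.erase i then 0 else c (insert k (S.erase i))) * d j k =
          if k ∈ (S.erase i)ᶜ then c (insert k (S.erase i)) * d j k else 0 := by
        intro k
        by_cases hk : k ∈ S.erase i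
        · rw [if_pos hk, if_neg (by simpa using hk), zero_mul]
        · rw [if_neg hk, if_pos (Finset.mem_compl.2 hk)]
      rw [Finset.sum_congr rfl (fun k _ => e k), ← Finset.sum_filter,
        Finset.filter_mem_eq_inter, Finset.univ_inter])
    have h := congrFun hv i
    simp only [Pi.zero_apply] at h
    rw [if_neg (Finset.notMem_erase i S), Finset.insert_erase hi] at h
    exact h

theorem R3_ind (h2 : (2 : κ) = 0) {x : Fin (m + 1 + 1) → κ} (x0 : x 0 = 1)
    (hxx : Dh x x = 0) (hx1 : x 1 ≠ 0)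
    (hD : ∀ j : Fin m, ∃ D : Derivation ℤ κ κ, ∀ i, D (x i.succ.succ) = if i = j then 1 else 0)
    (β : (Fin r → κ) →ₗ[κ] (Fin (m + 1 + 1) → κ)) (h1 : ∀ v, Dh x (β v) = 0)
    (nz : ∀ v, v ≠ 0 → Dh (β v) x ≠ 0) :
    Ind2 (fun j => Dh (β (Pi.single j 1)) x) := by
  classical
  intro c hc
  refine R3_induct h2 _ (fun j i => β (Pi.single i 1) 1 * (x j.succ.succ / x 1) +
    β (Pi.single i 1) j.succ.succ) ?_ ?_ r c ?_ hc
  · intro j
    obtain ⟨D, hDj⟩ := hD j
    refine ⟨D, fun i => ?_⟩
    have hx3 : x 1 ^ 2 * D (x 1) = x j.succ.succ ^ 2 := by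
      have h := congrArg D hxx
      rw [Dh, map_sum, map_zero, Fin.sum_univ_succ, Fin.sum_univ_succ] at h
      have e1 : (Fin.succ 0 : Fin (m + 1 + 1)) = 1 := rfl
      have e2 : ∀ y : κ, D (y ^ 2 * y) = y ^ 2 * D y := by
        intro y
        rw [Derivation.leibniz, R3_sq h2, smul_zero, add_zero, smul_eq_mul]
      simp only [e2, hDj] at h
      rw [x0, e1, Derivation.map_one_eq_zero] at h
      simp only [mul_ite, mul_one, mul_zero] at h
      rw [Finset.sum_ite_eq' Finset.univ j, if_pos (Finset.mem_univ _)] at h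
      linear_combination h - x j.succ.succ ^ 2 * h2
    have hx1' : D (x 1) = (x j.succ.succ / x 1) ^ 2 := by
      rw [div_pow, eq_div_iff (pow_ne_zero 2 hx1), mul_comm, hx3]
    rw [Dh, map_sum, Fin.sum_univ_succ, Fin.sum_univ_succ]
    have e1 : (Fin.succ 0 : Fin (m + 1 + 1)) = 1 := rfl
    have e2 : ∀ y z : κ, D (y ^ 2 * z) = y ^ 2 * D z := by
      intro y z
      rw [Derivation.leibniz, R3_sq h2, smul_zero, add_zero, smul_eq_mul]
    simp only [e2, hDj]
    rw [x0, e1, Derivation.map_one_eq_zero, hx1']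
    simp only [mul_ite, mul_one, mul_zero]
    rw [Finset.sum_ite_eq' Finset.univ j, if_pos (Finset.mem_univ _)]
    linear_combination (-(β (Pi.single i 1) 1 * (x j.succ.succ / x 1) *
      β (Pi.single i 1) j.succ.succ)) * h2
  · intro v hv
    by_contra hne
    apply nz v hne
    have hβ : ∀ l, β v l = ∑ i, v i * β (Pi.single i 1) l := by
      intro l
      have e := LinearMap.pi_apply_eq_sum_univ β v
      rw [e, Finset.sum_apply]
      refine Finset.sum_congr rfl fun i _ => ?_
      rw [Pi.smul_apply, smul_eq_mul]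
      have e' : (fun j => if i = j then (1 : κ) else 0) = Pi.single i 1 := by
        funext k
        rw [Pi.single_apply]
        by_cases hk : i = k
        · rw [if_pos hk, if_pos hk.symm]
        · rw [if_neg hk, if_neg (fun h => hk h.symm)]
      rw [e']
    have hv' : ∀ j : Fin m, β v j.succ.succ = β v 1 / x 1 * x j.succ.succ := by
      intro j
      have h := hv j
      simp only [mul_add, ← mul_assoc, Finset.sum_add_distrib, ← Finset.sum_mul] at h
      rw [← hβ, ← hβ] at h
      have e : β v 1 / x 1 * x j.succ.succ = β v 1 * (x j.succ.succ / x 1) := by ring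
      rw [e]
      linear_combination h - β v 1 * (x j.succ.succ / x 1) * h2
    have hv1 : β v 1 = β v 1 / x 1 * x 1 := by field_simp
    have hall : ∀ l, l ≠ 0 → β v l = β v 1 / x 1 * x l := by
      intro l
      refine Fin.cases (fun h => absurd rfl h) (fun l _ => ?_) l
      exact Fin.cases hv1 (fun l => hv' l) l
    have h0 : β v 0 = β v 1 / x 1 * x 0 := by
      have e1 := h1 v
      have e2 := hxx
      rw [Dh, Fin.sum_univ_succ] at e1 e2
      have e3 : ∑ l : Fin (m + 1), x l.succ ^ 2 * β v l.succ =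
          β v 1 / x 1 * ∑ l : Fin (m + 1), x l.succ ^ 2 * x l.succ := by
        rw [Finset.mul_sum]
        refine Finset.sum_congr rfl fun l _ => ?_
        rw [hall l.succ (Fin.succ_ne_zero l)]; ring
      rw [e3] at e1
      rw [x0] at e1 e2 ⊢
      linear_combination e1 - β v 1 / x 1 * e2
    have hvx : ∀ l, β v l = β v 1 / x 1 * x l := by
      intro l
      by_cases hl : l = 0
      · rw [hl]; exact h0
      · exact hall l hl
    have e : Dh (β v) x = (β v 1 / x 1) ^ 2 * Dh x x := by
      rw [Dh, Dh, Finset.mul_sum]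
      refine Finset.sum_congr rfl fun l _ => ?_
      rw [hvx l]; ring
    rw [e, hxx, mul_zero]
  · intro S hS
    exfalso
    have := S.card_le_univ
    rw [Fintype.card_fin] at this
    omega

end MP2619.KC
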