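import Pool.Agent.Lib.MP_2619d0_ag.KC.Defs

/-! Row R4: the lemma on `2`-independent elements. -/

set_option autoImplicit false

namespace MP2619.KC

variable {κ : Type*} [Field κ] {r : ℕ}

theorem R4_triple (h2 : (2 : κ) = 0) (X : Fin r → κ) (hX : Ind2 X) (j l : Fin r) (hjl : j ≠ l)
    (a c : Fin r → κ)
    (h : ∑ k, a k ^ 2 * X k +
      ∑ i ∈ Finset.univ.filter (fun i => i ≠ j ∧ i ≠ l), c i ^ 2 * (X i * (X j * X l)) = 0)
    (i : Fin r) (hij : i ≠ j) (hil : i ≠ l) : c i = 0 := by
  classical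
  haveI : CharP κ 2 := CharTwo.of_one_ne_zero_of_two_eq_zero one_ne_zero h2
  set T : Finset (Fin r) := Finset.univ.filter (fun i => i ≠ j ∧ i ≠ l) with hT
  have hmem : ∀ i, i ∈ T ↔ i ≠ j ∧ i ≠ l := by intro i; simp [hT]
  let C : Finset (Fin r) → κ := fun S =>
    (∑ k, if S = {k} then a k else 0) + ∑ i ∈ T, if S = {i, j, l} then c i else 0
  have hC : ∀ S, C S ^ 2 = (∑ k, if S = {k} then a k ^ 2 else 0) +
      ∑ i ∈ T, if S = {i, j, l} then c i ^ 2 else 0 := by
    intro S
    simp only [C]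
    rw [add_pow_char, sum_pow_char, sum_pow_char]
    congr 1
    · exact Finset.sum_congr rfl fun k _ => by split_ifs <;> simp
    · exact Finset.sum_congr rfl fun k _ => by split_ifs <;> simp
  have hprod : ∀ i ∈ T, ∏ k ∈ ({i, j, l} : Finset (Fin r)), X k = X i * (X j * X l) := by
    intro i hi
    obtain ⟨h1, h2⟩ := (hmem i).1 hi
    rw [Finset.prod_insert (by simp [h1, h2]), Finset.prod_pair hjl]
  have key : ∑ S, C S ^ 2 * ∏ k ∈ S, X k = 0 := by
    rw [← h]
    simp_rw [hC, add_mul, Finset.sum_add_distrib, Finset.sum_mul, ite_mul, zero_mul]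
    congr 1
    · rw [Finset.sum_comm]
      refine Finset.sum_congr rfl fun k _ => ?_
      rw [Finset.sum_ite_eq']
      simp
    · rw [Finset.sum_comm]
      refine Finset.sum_congr rfl fun k hk => ?_
      rw [Finset.sum_ite_eq', if_pos (Finset.mem_univ _), hprod k hk]
  have h0 := hX C key {i, j, l}
  have hi : i ∈ T := (hmem i).2 ⟨hij, hil⟩
  simp only [C] at h0
  have e1 : (∑ k, if ({i, j, l} : Finset (Fin r)) = {k} then a k else 0) = 0 := by
    refine Finset.sum_eq_zero fun k _ => if_neg fun e => ?_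
    have h1 : i ∈ ({k} : Finset (Fin r)) := e ▸ by simp
    have h3 : j ∈ ({k} : Finset (Fin r)) := e ▸ by simp
    rw [Finset.mem_singleton] at h1 h3
    exact hij (h1.trans h3.symm)
  have e2 : (∑ k ∈ T, if ({i, j, l} : Finset (Fin r)) = {k, j, l} then c k else 0) = c i := by
    rw [Finset.sum_eq_single i]
    · simp
    · intro k _ hk
      refine if_neg fun e => hk ?_
      have h1 : i ∈ ({k, j, l} : Finset (Fin r)) := e ▸ by simp
      simp only [Finset.mem_insert, Finset.mem_singleton, hij, hil, or_false] at h1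
      exact h1.symm
    · exact fun h => absurd hi h
  rw [e1, e2, zero_add] at h0
  exact h0

theorem R4_ne (X : Fin r → κ) (hX : Ind2 X) (j : Fin r) : X j ≠ 0 := by
  classical
  intro h0
  have h := hX (fun S => if S = {j} then 1 else 0) (by
    simp [ite_pow, h0]) {j}
  simp at h

theorem R4_W (h2 : (2 : κ) = 0) (hr : 2 ≤ r) (X ζ : Fin r → κ) (hX : Ind2 X)
    (h1 : ∀ j, ∃ a : Fin r → κ, X j * ζ j = ∑ i, a i ^ 2 * X i)
    (h3 : ∀ j l, j ≠ l → ∃ a : Fin r → κ, X j * ζ l + X l * ζ j = ∑ i, a i ^ 2 * X i) :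
    ∃ (μ ν : Fin r → κ), ∀ j, ζ j = μ j ^ 2 + (∑ i, ν i ^ 2 * X i) * X j := by
  classical
  haveI : CharP κ 2 := CharTwo.of_one_ne_zero_of_two_eq_zero one_ne_zero h2
  have hne := R4_ne X hX
  choose a ha using h1
  -- `b j i = a j i / X j`
  let b : Fin r → Fin r → κ := fun j i => a j i / X j
  have hζ : ∀ j, ζ j = ∑ i, b j i ^ 2 * X i * X j := by
    intro j
    have h := ha j
    have hj := hne j
    have : ζ j = (∑ i, a j i ^ 2 * X i) / X j := by
      rw [← h]; field_simp
    rw [this, Finset.sum_div]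
    refine Finset.sum_congr rfl fun i _ => ?_
    simp only [b]
    field_simp
  have hb : ∀ j l i, j ≠ l → i ≠ j → i ≠ l → b j i = b l i := by
    intro j l i hjl hij hil
    obtain ⟨e, he⟩ := h3 j l hjl
    -- the sum over the indices other than `j`, `l`
    have hsplit : ∀ f : Fin r → κ, ∑ i, f i = f j + f l +
        ∑ i ∈ Finset.univ.filter (fun i => i ≠ j ∧ i ≠ l), f i := by
      intro f
      rw [← Finset.sum_filter_add_sum_filter_not Finset.univ (fun i => i ≠ j ∧ i ≠ l) f, add_comm]
      congr 1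
      have : Finset.univ.filter (fun i => ¬(i ≠ j ∧ i ≠ l)) = {j, l} := by
        ext k; simp; tauto
      rw [this, Finset.sum_pair hjl]
    -- the coefficients in `W`
    let a' : Fin r → κ := fun k => e k + (if k = j then b l l * X l + b j l * X l else 0) +
      (if k = l then b j j * X j + b l j * X j else 0)
    have ha' : ∀ k, a' k ^ 2 = e k ^ 2 +
        (if k = j then (b l l * X l) ^ 2 + (b j l * X l) ^ 2 else 0) +
        (if k = l then (b j j * X j) ^ 2 + (b l j * X j) ^ 2 else 0) := by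
      intro k
      simp only [a']
      rw [add_pow_char, add_pow_char]
      congr 1
      · congr 1
        split_ifs
        · rw [add_pow_char]
        · simp
      · split_ifs
        · rw [add_pow_char]
        · simp
    have hsum : ∑ k, a' k ^ 2 * X k = ∑ k, e k ^ 2 * X k +
        ((b l l * X l) ^ 2 + (b j l * X l) ^ 2) * X j +
        ((b j j * X j) ^ 2 + (b l j * X j) ^ 2) * X l := by
      simp_rw [ha', add_mul, Finset.sum_add_distrib, ite_mul, zero_mul]
      simp [Finset.sum_ite_eq', add_mul]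
    have hc := R4_triple h2 X hX j l hjl a' (fun i => b j i + b l i) (by
      rw [hsum, ← he, hζ l, hζ j, hsplit (fun i => b l i ^ 2 * X i * X l),
        hsplit (fun i => b j i ^ 2 * X i * X j)]
      have h4 : ∑ i ∈ Finset.univ.filter (fun i => i ≠ j ∧ i ≠ l),
          (b j i + b l i) ^ 2 * (X i * (X j * X l)) =
          X l * (∑ i ∈ Finset.univ.filter (fun i => i ≠ j ∧ i ≠ l), b j i ^ 2 * X i * X j) +
          X j * (∑ i ∈ Finset.univ.filter (fun i => i ≠ j ∧ i ≠ l), b l i ^ 2 * X i * X l) := by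
        rw [Finset.mul_sum, Finset.mul_sum, ← Finset.sum_add_distrib]
        refine Finset.sum_congr rfl fun i _ => ?_
        rw [add_pow_char]
        ring
      rw [h4]
      generalize (∑ i ∈ Finset.univ.filter (fun i => i ≠ j ∧ i ≠ l), b j i ^ 2 * X i * X j) = s1
      generalize (∑ i ∈ Finset.univ.filter (fun i => i ≠ j ∧ i ≠ l), b l i ^ 2 * X i * X l) = s2
      linear_combination (b l j ^ 2 * X j ^ 2 * X l + b l l ^ 2 * X l ^ 2 * X j + X j * s2 +
        b j j ^ 2 * X j ^ 2 * X l + b j l ^ 2 * X l ^ 2 * X j + X l * s1) * h2) i hij hil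
    have := CharTwo.add_eq_zero (R := κ) |>.1 hc
    exact this
  -- an index different from `i`
  have hoth : ∀ i : Fin r, ∃ l : Fin r, i ≠ l := by
    intro i
    by_cases hi : i.val = 0
    · exact ⟨⟨1, by omega⟩, fun e => by have := congrArg Fin.val e; simp at this; omega⟩
    · exact ⟨⟨0, by omega⟩, fun e => by have := congrArg Fin.val e; simp at this; omega⟩
  choose o ho using hoth
  refine ⟨fun j => (b j j + b (o j) j) * X j, fun i => b (o i) i, fun j => ?_⟩
  have h5 : ∀ i, i ≠ j → b (o i) i = b j i := by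
    intro i hij
    by_cases h6 : o i = j
    · rw [h6]
    · exact hb (o i) j i h6 (ho i) hij
  rw [hζ j, Finset.sum_mul, ← Finset.add_sum_erase _ _ (Finset.mem_univ j),
    ← Finset.add_sum_erase (a := j) Finset.univ (fun i => b (o i) i ^ 2 * X i * X j)
      (Finset.mem_univ j)]
  have h7 : ∑ i ∈ Finset.univ.erase j, b (o i) i ^ 2 * X i * X j =
      ∑ i ∈ Finset.univ.erase j, b j i ^ 2 * X i * X j :=
    Finset.sum_congr rfl fun i hi => by rw [h5 i (Finset.ne_of_mem_erase hi)]
  rw [h7, mul_pow, add_pow_char]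
  linear_combination (- (b (o j) j ^ 2 * X j ^ 2)) * h2

end MP2619.KC
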