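import Pool.Agent.Lib.MP_2619d0_ag.KC.R2
import Pool.Agent.Lib.MP_2619d0_ag.KC.R3
import Pool.Agent.Lib.MP_2619d0_ag.KC.R4

/-! Row R5: the structure of the reduction. -/

set_option autoImplicit false

namespace MP2619.KC

variable {κ : Type*} [Field κ] {m r : ℕ}

theorem R5_semi {V : Type*} [AddCommGroup V] [Module κ V] (Q : (Fin r → κ) → V)
    (ha : ∀ v w, Q (v + w) = Q v + Q w) (hs : ∀ (s : κ) v, Q (s • v) = s ^ 2 • Q v)
    (v : Fin r → κ) : Q v = ∑ j, v j ^ 2 • Q (Pi.single j 1) := by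
  let q : (Fin r → κ) →+ V := AddMonoidHom.mk' Q ha
  have h1 : v = ∑ j, v j • (Pi.single j (1 : κ) : Fin r → κ) := by
    funext i
    simp [Finset.sum_apply, Pi.single_apply]
  have h2 : q v = ∑ j, q (v j • (Pi.single j (1 : κ) : Fin r → κ)) := by
    conv_lhs => rw [h1]
    rw [map_sum]
  change q v = _
  rw [h2]
  exact Finset.sum_congr rfl fun j _ => hs _ _

theorem R5_lin {V : Type*} [AddCommGroup V] [Module κ V] (Q : (Fin r → κ) → V)
    (ha : ∀ v w, Q (v + w) = Q v + Q w) (hs : ∀ (s : κ) v, Q (s • v) = s • Q v)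
    (h0 : ∀ j, Q (Pi.single j 1) = 0) (v : Fin r → κ) : Q v = 0 := by
  let q : (Fin r → κ) →+ V := AddMonoidHom.mk' Q ha
  have h1 : v = ∑ j, v j • (Pi.single j (1 : κ) : Fin r → κ) := by
    funext i
    simp [Finset.sum_apply, Pi.single_apply]
  have h2 : q v = ∑ j, q (v j • (Pi.single j (1 : κ) : Fin r → κ)) := by
    conv_lhs => rw [h1]
    rw [map_sum]
  change q v = _
  rw [h2]
  refine Finset.sum_eq_zero fun j _ => ?_
  change Q _ = 0
  rw [hs, h0, smul_zero]

theorem R5_main [Infinite κ] (h2 : (2 : κ) = 0) {x : Fin (m + 1 + 1) → κ}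
    {β : (Fin r → κ) →ₗ[κ] (Fin (m + 1 + 1) → κ)} {G : (Fin r → κ) → (Fin (m + 1 + 1) → κ)}
    {Γ : (Fin r → κ) → (Fin r → κ) → (Fin (m + 1 + 1) → κ)} (h : Sys x β G Γ)
    (hr : 2 ≤ r) (hm : m = 2 * r) (hx1 : x 1 ≠ 0)
    (hD : ∀ j : Fin m, ∃ D : Derivation ℤ κ κ, ∀ i, D (x i.succ.succ) = if i = j then 1 else 0) :
    ∃ (lam : (Fin r → κ) →ₗ[κ] κ) (w : Fin (m + 1 + 1) → κ),
      Dh x w = 1 ∧ Dh w w = 0 ∧ (∀ v, Dh w (β v) = 0) ∧ (∀ v, Dh (β v) w = 0) ∧
      (∀ v v', Γ v v' = lam v • β v' + lam v' • β v) ∧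
      (∀ v, G v = lam v • β v + (lam v) ^ 2 • x + Dh (β v) x • (w + Dh w x • x)) := by
  have : CharP κ 2 := CharTwo.of_one_ne_zero_of_two_eq_zero one_ne_zero h2
  obtain ⟨c1, c2, c3, c4, c5, c6, c7, c8⟩ := R1_cons h2 h
  have hΓT := R2_gamma h2 h hr (by omega)
  have hGa : ∀ v w, G (v + w) = G v + Γ v w + G w := by
    intro v w
    have h1 := h.hG v w 1
    rw [one_smul, one_smul, one_pow, one_smul] at h1
    exact h1
  have hΓ0 : ∀ v, Γ v 0 = 0 := by
    intro v
    have h1 := h.hΓa v 0 0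
    rw [add_zero] at h1
    simpa using h1
  have hG0 : G 0 = 0 := by
    have h1 := hGa 0 0
    rw [add_zero, hΓ0, add_zero] at h1
    simpa using h1
  have hGs : ∀ (s : κ) v, G (s • v) = s ^ 2 • G v := by
    intro s v
    have h1 := h.hG 0 v s
    rw [zero_add, hG0, zero_add, h.hΓc, hΓ0, smul_zero, zero_add] at h1
    exact h1
  have hΓs : ∀ v (s : κ) w, Γ v (s • w) = s • Γ v w := by
    intro v s w
    have h1 := hGa v (s • w)
    rw [h.hG, hGs] at h1
    exact (add_left_cancel (add_right_cancel h1)).symm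
  -- the semilinear forms
  have Xa : ∀ v w, Dh (β (v + w)) x = Dh (β v) x + Dh (β w) x := by
    intro v w
    rw [map_add, Dh_add_left h2]
  have Xs : ∀ (s : κ) v, Dh (β (s • v)) x = s ^ 2 • Dh (β v) x := by
    intro s v
    rw [map_smul, Dh_smul_left, smul_eq_mul]
  have Xinj : ∀ v w, Dh (β v) x = Dh (β w) x → v = w := by
    intro v w hvw
    by_contra hne
    have h1 : v + w ≠ 0 := by
      intro h3
      apply hne
      have h4 : v - w = 0 := by
        funext i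
        have h5 := congrFun h3 i
        simp only [Pi.add_apply, Pi.zero_apply, Pi.sub_apply] at h5 ⊢
        linear_combination h5 - w i * h2
      exact sub_eq_zero.1 h4
    apply h.nz _ h1
    rw [Xa, hvw]
    exact CharTwo.add_self_eq_zero _
  obtain ⟨i0, hi0⟩ : ∃ i0 : Fin r, i0 = ⟨0, by omega⟩ := ⟨_, rfl⟩
  obtain ⟨e, he⟩ : ∃ e : Fin r → (Fin r → κ), e = fun j => Pi.single j 1 := ⟨_, rfl⟩
  have hej : ∀ j, e j ≠ 0 := by
    intro j h1
    have h3 := congrFun h1 j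
    rw [he] at h3
    simp at h3
  have hX0 : ∀ j, Dh (β (e j)) x ≠ 0 := fun j => h.nz _ (hej j)
  obtain ⟨y, hy⟩ : ∃ y, y = G (e i0) := ⟨_, rfl⟩
  obtain ⟨θ, hθ⟩ : ∃ θ, θ = Dh x y := ⟨_, rfl⟩
  obtain ⟨ρ', hρ'⟩ : ∃ ρ', ρ' = Dh y x := ⟨_, rfl⟩
  have hθX : θ = Dh (β (e i0)) x := by rw [hθ, hy, h.h2]
  have hθ0 : θ ≠ 0 := by rw [hθX]; exact hX0 _
  have hyβ : ∀ w, Dh y (β w) = 0 := by
    intro w
    rw [hy]
    exact c2 _ _
  have hyy : Dh y y = 0 := by
    rw [hy]
    exact h.h6 _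
  have Ya : ∀ v w, Dh (β (v + w)) y = Dh (β v) y + Dh (β w) y := by
    intro v w
    rw [map_add, Dh_add_left h2]
  have Ys : ∀ (s : κ) v, Dh (β (s • v)) y = s ^ 2 • Dh (β v) y := by
    intro s v
    rw [map_smul, Dh_smul_left, smul_eq_mul]
  -- the decomposition
  have hdec : ∀ j, ∃ (t : Fin r → κ) (a b : κ), G (e j) = β t + a • x + b • y := fun j =>
    R2_dec h2 h hr (by omega) y hyβ (by rw [← hθ]; exact hθ0) _ (c2 _)
  choose τ ξ η hdec using hdec
  obtain ⟨X, hX⟩ : ∃ X : Fin r → κ, X = fun j => Dh (β (e j)) x := ⟨_, rfl⟩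
  obtain ⟨Y, hY⟩ : ∃ Y : Fin r → κ, Y = fun j => Dh (β (e j)) y := ⟨_, rfl⟩
  have hXj : ∀ j, Dh (β (e j)) x = X j := fun j => by rw [hX]
  have hYj : ∀ j, Dh (β (e j)) y = Y j := fun j => by rw [hY]
  have hXne : ∀ j, X j ≠ 0 := fun j => by rw [← hXj]; exact hX0 j
  have hη : ∀ j, η j * θ = X j := by
    intro j
    have h1 := h.h2 (e j)
    rw [hdec, Dh_add_right, Dh_add_right, Dh_smul_right, Dh_smul_right, h.h1, h.h0, ← hθ,
      hXj] at h1
    linear_combination h1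
  have hη0 : ∀ j, η j ≠ 0 := by
    intro j h0
    apply hXne j
    rw [← hη, h0, zero_mul]
  have E1 : ∀ j, Dh (β (τ j)) x = ξ j * X j + η j * Y j + η j ^ 2 * ρ' := by
    intro j
    have h1 := h.h4 (e j)
    rw [hdec, Dh_add_left h2, Dh_add_left h2, Dh_smul_left, Dh_smul_left, Dh_add_right,
      Dh_add_right, Dh_smul_right, Dh_smul_right, h.h3, h.h0, ← hρ', hXj, hYj] at h1
    linear_combination h1 - η j ^ 2 * ρ' * h2
  have E2 : ∀ j, Dh (β (τ j)) y = ξ j * Y j := by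
    intro j
    have h1 := h.h6 (e j)
    rw [hdec] at h1
    simp only [Dh_add_left h2, Dh_add_right, Dh_smul_left, Dh_smul_right, h.h3, h.h0, h.h1, hyβ,
      hyy, ← hρ', ← hθ, E1] at h1
    apply mul_left_cancel₀ (hη0 j)
    linear_combination h1 - (ξ j ^ 2 * η j * θ + ξ j * η j * Y j + η j ^ 2 * ξ j * ρ') * h2 +
      ξ j ^ 2 * hη j
  choose γ hγ using fun j l => hΓT (e j) (e l)
  have E3 : ∀ j l, Dh (β (γ j l)) x = ξ l * X j + η l * Y j + ξ j * X l + η j * Y l := by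
    intro j l
    have h1 := c4 (e j) (e l)
    rw [← hγ, hdec j, hdec l] at h1
    simp only [Dh_add_right, Dh_smul_right, h.h3, hXj, hYj] at h1
    linear_combination h1
  have E4 : ∀ j l, Dh (β (γ j l)) y = ξ l * Y j + ξ j * Y l := by
    intro j l
    have h1 := c6 (e j) (e l)
    rw [← hγ, hdec j, hdec l] at h1
    simp only [Dh_add_left h2, Dh_add_right, Dh_smul_left, Dh_smul_right, h.h3, h.h0, h.h1, hyβ,
      hyy, ← hρ', ← hθ, E1, E2, E3] at h1
    apply mul_left_cancel₀ (hη0 j)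
    linear_combination h1 + (η j * Dh (β (γ j l)) y - η j * ξ l * Y j - η j ^ 2 * ξ l * ρ') * h2 -
      ξ j ^ 2 * hη l
  -- the lemma on 2-independent elements
  obtain ⟨ζ, hζ⟩ : ∃ ζ : Fin r → κ, ζ = fun j => ξ j + Y j / θ + X j * ρ' / θ ^ 2 := ⟨_, rfl⟩
  have hηθ : ∀ j, η j = X j / θ := fun j => by rw [← hη j, mul_div_cancel_right₀ _ hθ0]
  have F1 : ∀ j, Dh (β (τ j)) x = X j * ζ j := by
    intro j
    rw [E1, hζ, hηθ]
    field_simp
  have F3 : ∀ j l, Dh (β (γ j l)) x = X j * ζ l + X l * ζ j := by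
    intro j l
    rw [E3, hζ, hηθ, hηθ]
    field_simp
    linear_combination (exp := 1) (- X j * X l * ρ') * h2
  have hXsum : ∀ v, Dh (β v) x = ∑ i, v i ^ 2 * X i := by
    intro v
    have h1 := R5_semi (fun v => Dh (β v) x) Xa Xs v
    rw [hX, he]
    exact h1
  have hYsum : ∀ v, Dh (β v) y = ∑ i, v i ^ 2 * Y i := by
    intro v
    have h1 := R5_semi (fun v => Dh (β v) y) Ya Ys v
    rw [hY, he]
    exact h1
  have hind : Ind2 X := by
    have h1 := R3_ind h2 h.x0 h.h0 hx1 hD β h.h1 h.nz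
    rw [hX, he]
    exact h1
  obtain ⟨μ, ν, hμν⟩ := R4_W h2 hr X ζ hind (fun j => ⟨τ j, by rw [← F1, hXsum]⟩)
    (fun j l _ => ⟨γ j l, by rw [← F3, hXsum]⟩)
  obtain ⟨Nn, hN⟩ : ∃ Nn, Nn = ∑ i, ν i ^ 2 * X i := ⟨_, rfl⟩
  rw [← hN] at hμν
  have hNX : Dh (β ν) x = Nn := by rw [hXsum, hN]
  have T1 : ∀ j, τ j = μ j • e j + X j • ν := by
    intro j
    apply Xinj
    rw [F1, Xa, Xs, Xs, hXj, hNX, hμν, smul_eq_mul, smul_eq_mul]
    ring
  have T3 : ∀ j l, γ j l = μ l • e j + μ j • e l := by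
    intro j l
    apply Xinj
    rw [F3, Xa, Xs, Xs, hXj, hXj, hμν, hμν, smul_eq_mul, smul_eq_mul]
    linear_combination (X j * X l * Nn) * h2
  have hξ : ∀ j, ξ j = μ j ^ 2 + Nn * X j + Y j / θ + X j * ρ' / θ ^ 2 := by
    intro j
    rw [← hμν, hζ]
    linear_combination (exp := 1) (- (Y j / θ) - X j * ρ' / θ ^ 2) * h2
  -- proportionality
  have hY0 : Y i0 = ρ' := by
    rw [← hYj, hy, ← h.h4, ← hy, ← hρ']
  have hXi0 : X i0 = θ := by rw [← hXj, ← hθX]
  have P1 : ∀ j, X j ^ 2 * Dh (β ν) y = X j * (Nn + ρ' / θ ^ 2) * Y j + Y j ^ 2 / θ := by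
    intro j
    have h1 := E2 j
    rw [T1, Ya, Ys, Ys, hYj, smul_eq_mul, smul_eq_mul, hξ] at h1
    linear_combination h1
  have P2 : ∀ j l, (Nn + ρ' / θ ^ 2) * (X l * Y j + X j * Y l) = 0 := by
    intro j l
    have h1 := E4 j l
    rw [T3, Ya, Ys, Ys, hYj, hYj, smul_eq_mul, smul_eq_mul, hξ, hξ] at h1
    linear_combination - (Y j * Y l / θ) * h2 - h1
  obtain ⟨ρ, hρ⟩ : ∃ ρ, ρ = Y i0 / X i0 := ⟨_, rfl⟩
  have hYρ : ∀ j, Y j = ρ * X j := by
    intro j
    have h1 : X i0 * Y j = X j * Y i0 := by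
      by_cases h0 : Nn + ρ' / θ ^ 2 = 0
      · have a1 := P1 j
        have a2 := P1 i0
        rw [h0] at a1 a2
        apply CharTwo.sq_injective
        have a1' : Y j ^ 2 = θ * (X j ^ 2 * Dh (β ν) y) := by
          rw [a1]
          field_simp
          ring
        have a2' : Y i0 ^ 2 = θ * (X i0 ^ 2 * Dh (β ν) y) := by
          rw [a2]
          field_simp
          ring
        change (X i0 * Y j) ^ 2 = (X j * Y i0) ^ 2
        rw [mul_pow, mul_pow, a1', a2']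
        ring
      · have a1 := (mul_eq_zero.1 (P2 j i0)).resolve_left h0
        linear_combination a1 - X j * Y i0 * h2
    rw [hρ, div_mul_eq_mul_div, eq_div_iff (hXne i0)]
    linear_combination h1
  have hYv : ∀ v, Dh (β v) y = ρ * Dh (β v) x := by
    intro v
    rw [hYsum, hXsum, Finset.mul_sum]
    refine Finset.sum_congr rfl fun i _ => ?_
    rw [hYρ]
    ring
  have hQ : ρ ^ 2 / θ + ρ * ρ' / θ ^ 2 = 0 := by
    have h1 := P1 i0
    rw [hYv, hNX, hYρ] at h1
    apply mul_left_cancel₀ (pow_ne_zero 2 (hXne i0))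
    linear_combination (-1 : κ) * h1
  -- the vectors
  obtain ⟨w, hw⟩ : ∃ w, w = β ν + (ρ / θ) • x + θ⁻¹ • y := ⟨_, rfl⟩
  have hwx : Dh w x = Nn + ρ' / θ ^ 2 := by
    rw [hw, Dh_add_left h2, Dh_add_left h2, Dh_smul_left, Dh_smul_left, h.h0, ← hρ', hNX]
    field_simp
    ring
  obtain ⟨lam, hlam⟩ : ∃ lam : (Fin r → κ) →ₗ[κ] κ, lam = Fintype.linearCombination κ μ :=
    ⟨_, rfl⟩
  have hlame : ∀ j, lam (e j) = μ j := by
    intro j
    rw [hlam, he]
    simp [Fintype.linearCombination_apply_single]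
  have hΓform : ∀ v v', Γ v v' = lam v • β v' + lam v' • β v := by
    intro v v'
    have g1 : ∀ j v, Γ (e j) v - (lam (e j) • β v + lam v • β (e j)) = 0 := by
      intro j v
      refine R5_lin (fun v => Γ (e j) v - (lam (e j) • β v + lam v • β (e j))) ?_ ?_ ?_ v
      · intro v w
        simp only [h.hΓa, map_add, smul_add, add_smul]
        abel
      · intro s v
        simp only [hΓs, map_smul, smul_sub, smul_add, smul_smul, smul_eq_mul]
        rw [mul_comm (lam (e j)) s]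
      · intro l
        have h1 : (Pi.single l 1 : Fin r → κ) = e l := by rw [he]
        simp only [h1]
        rw [← hγ, T3, hlame, hlame, map_add, map_smul, map_smul]
        abel
    have g2 := R5_lin (fun v => Γ v v' - (lam v • β v' + lam v' • β v)) ?_ ?_ ?_ v
    · exact sub_eq_zero.1 g2
    · intro v w
      simp only [h.hΓc _ v', h.hΓa, map_add, smul_add, add_smul]
      abel
    · intro s v
      simp only [h.hΓc _ v', hΓs, map_smul, smul_sub, smul_add, smul_smul, smul_eq_mul]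
      rw [mul_comm (lam v') s]
    · intro l
      have h1 : (Pi.single l 1 : Fin r → κ) = e l := by rw [he]
      simp only [h1]
      exact g1 l v'
  refine ⟨lam, w, ?_, ?_, ?_, ?_, hΓform, ?_⟩
  · rw [hw, Dh_add_right, Dh_add_right, Dh_smul_right, Dh_smul_right, h.h1, h.h0, ← hθ]
    field_simp
    ring
  · rw [hw]
    simp only [Dh_add_left h2, Dh_add_right, Dh_smul_left, Dh_smul_right, h.h3, h.h0, h.h1, hyβ,
      hyy, ← hρ', ← hθ, hYv, hNX]
    field_simp
    field_simp at hQ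
    linear_combination (exp := 1) (ρ * Nn * θ ^ 2) * h2 + hQ
  · intro v
    rw [hw, Dh_add_left h2, Dh_add_left h2, Dh_smul_left, Dh_smul_left, h.h3, h.h1, hyβ]
    ring
  · intro v
    rw [hw, Dh_add_right, Dh_add_right, Dh_smul_right, Dh_smul_right, h.h3, hYv]
    field_simp
    linear_combination (exp := 1) (ρ * Dh (β v) x) * h2
  · -- G
    intro v
    have hx2 : ∀ a : κ, (a * 2) • x = 0 := by
      intro a
      rw [h2, mul_zero, zero_smul]
    have k1 := R5_semi (fun v => G v - (lam v • β v + (lam v) ^ 2 • x +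
      Dh (β v) x • (w + Dh w x • x))) ?_ ?_ v
    · have k2 : ∀ j, G (Pi.single j 1) - (lam (Pi.single j 1) • β (Pi.single j 1) +
          (lam (Pi.single j 1)) ^ 2 • x +
          Dh (β (Pi.single j 1)) x • (w + Dh w x • x)) = 0 := by
        intro j
        have h1 : (Pi.single j 1 : Fin r → κ) = e j := by rw [he]
        rw [h1, hlame, hdec, T1, hXj, hwx, hw, map_add, map_smul, map_smul, hηθ, hξ, hYρ]
        funext i
        simp only [Pi.add_apply, Pi.sub_apply, Pi.smul_apply, Pi.zero_apply, smul_eq_mul]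
        field_simp
        ring
      simp only [k2, smul_zero, Finset.sum_const_zero] at k1
      exact sub_eq_zero.1 k1
    · intro v w'
      rw [hGa, hΓform]
      simp only [Xa]
      simp only [map_add]
      funext i
      simp only [Pi.add_apply, Pi.sub_apply, Pi.smul_apply, smul_eq_mul]
      linear_combination (- lam v * lam w' * x i) * h2
    · intro s v
      rw [hGs]
      simp only [Xs]
      simp only [map_smul]
      funext i
      simp only [Pi.add_apply, Pi.sub_apply, Pi.smul_apply, smul_eq_mul]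
      ring

end MP2619.KC
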