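import Pool.Agent.Lib.MP_2619d0_ag.KC.R13d
import Pool.Agent.Lib.MP_2619d0_ag.KC.R5
import Pool.Agent.Lib.MP_2619d0_ag.KC.R10a

/-! Row R13: the critical case over the valuation ring, `m = 4`, `r = 2`. -/

set_option autoImplicit false

namespace MP2619.KC

open Pool.Agent.Lib.MP_2619d0_ag.T MP2619.K

section field

variable {κ : Type*} [Field κ] {n : ℕ}

/-- an alternating trilinear form on a space of dimension three -/
theorem R13_alt (h2 : (2 : κ) = 0) (g : Fin n → Fin n → Fin n → κ) (B1 B2 w : Fin n → κ)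
    (h : Tc g B1 B2 w = 0) (u : Fin 3 → Fin n → κ)
    (hu : ∀ a, ∃ s t b : κ, u a = s • B1 + t • B2 + b • w) : Tc g (u 0) (u 1) (u 2) = 0 := by
  have hs1 : ∀ a b, Tc g a a b = 0 := by
    intro a b
    rw [Tc_self, h2, zero_mul]
  have hs2 : ∀ a b, Tc g a b a = 0 := by
    intro a b
    rw [Tc_comm', hs1]
  have hs3 : ∀ a b, Tc g b a a = 0 := by
    intro a b
    rw [Tc_comm, hs2]
  have p1 : Tc g B1 w B2 = 0 := by rw [Tc_comm', h]
  have p2 : Tc g B2 B1 w = 0 := by rw [Tc_comm, h]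
  have p3 : Tc g B2 w B1 = 0 := by rw [Tc_comm', p2]
  have p4 : Tc g w B1 B2 = 0 := by rw [Tc_comm, p1]
  have p5 : Tc g w B2 B1 = 0 := by rw [Tc_comm', p4]
  obtain ⟨s0, t0, b0, h0⟩ := hu 0
  obtain ⟨s1, t1, b1, h1⟩ := hu 1
  obtain ⟨s2, t2, b2, h3⟩ := hu 2
  rw [h0, h1, h3]
  simp only [Tc_add_left, Tc_add_mid, Tc_add_right, Tc_smul_left, Tc_smul_mid, Tc_smul_right,
    hs1, hs2, hs3, h, p1, p2, p3, p4, p5, mul_zero, add_zero]

/-- the isotropic subspace and the squares -/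
theorem R13_hsq (h2 : (2 : κ) = 0) {N : ℕ} (hN : N + 1 = 6)
    (X B1 B2 w : Fin (N + 1) → κ)
    (hXB1 : Dh X B1 = 0) (hXB2 : Dh X B2 = 0) (hXw : Dh X w = 1)
    (hB11 : Dh B1 B1 = 0) (hB12 : Dh B1 B2 = 0) (hB21 : Dh B2 B1 = 0) (hB22 : Dh B2 B2 = 0)
    (hww : Dh w w = 0) (hwB1 : Dh w B1 = 0) (hwB2 : Dh w B2 = 0) (hB1w : Dh B1 w = 0)
    (hB2w : Dh B2 w = 0)
    (nz : ∀ s t : κ, Dh (s • B1 + t • B2) X = 0 → s = 0 ∧ t = 0)
    (c : κ) (hX : ∀ p q : κ, p ^ 2 = c * q ^ 2 → q = 0) :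
    (∀ q r, Dh q B1 = c * Dh r B1 → Dh q B2 = c * Dh r B2 → Dh r B1 = 0 ∧ Dh r B2 = 0) ∧
    ∃ (J : Fin 3 ↪o Fin (N + 1)) (v : Fin 3 → Fin (N + 1) → κ),
      (∀ a, ∃ s t b : κ, v a = s • B1 + t • B2 + b • w) ∧
      (∀ a b, v a (J b) = if a = b then 1 else 0) ∧ (∀ a i, v a i ^ 4 = v a i) := by
  classical
  obtain ⟨U, hU⟩ : ∃ U : Submodule κ (Fin (N + 1) → κ), U = Submodule.span κ {B1, B2, w} :=
    ⟨_, rfl⟩
  have hmem : ∀ u ∈ U, ∃ s t b : κ, u = s • B1 + t • B2 + b • w := by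
    intro u hu
    rw [hU, Submodule.mem_span_insert] at hu
    obtain ⟨s, z, hz, rfl⟩ := hu
    rw [Submodule.mem_span_insert] at hz
    obtain ⟨t, y, hy, rfl⟩ := hz
    obtain ⟨b, rfl⟩ := Submodule.mem_span_singleton.1 hy
    exact ⟨s, t, b, by abel⟩
  have hB1U : B1 ∈ U := by
    rw [hU]
    exact Submodule.subset_span (Set.mem_insert _ _)
  have hB2U : B2 ∈ U := by
    rw [hU]
    exact Submodule.subset_span (Set.mem_insert_of_mem _ (Set.mem_insert _ _))
  have hwU : w ∈ U := by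
    rw [hU]
    exact Submodule.subset_span (Set.mem_insert_of_mem _ (Set.mem_insert_of_mem _ rfl))
  have hiso : ∀ a ∈ U, ∀ b ∈ U, Dh a b = 0 := by
    rw [hU]
    apply R2_span h2
    rintro a (rfl | rfl | rfl) b (rfl | rfl | rfl) <;> assumption
  have hind : LinearIndependent κ ![B1, B2, w] := by
    rw [Fintype.linearIndependent_iff]
    intro a ha
    simp only [Fin.sum_univ_three, Matrix.cons_val_zero, Matrix.cons_val_one,
      Matrix.cons_val] at ha
    have e1 := congrArg (Dh X) ha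
    simp only [Dh_add_right, Dh_smul_right, hXB1, hXB2, hXw, Dh_zero_right, mul_zero, mul_one,
      zero_add] at e1
    rw [e1, zero_smul, add_zero] at ha
    obtain ⟨e3, e4⟩ := nz (a 0) (a 1) (by rw [ha, Dh_zero_left])
    intro i
    fin_cases i
    · exact e3
    · exact e4
    · exact e1
  have hfin : Module.finrank κ U = 3 := by
    have h3 := finrank_span_eq_card hind
    have h4 : Set.range ![B1, B2, w] = {B1, B2, w} := by
      ext z
      simp only [Set.mem_range, Set.mem_insert_iff, Set.mem_singleton_iff]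
      constructor
      · rintro ⟨i, rfl⟩
        fin_cases i <;> simp
      · rintro (rfl | rfl | rfl)
        · exact ⟨0, rfl⟩
        · exact ⟨1, rfl⟩
        · exact ⟨2, rfl⟩
    rw [h4, ← hU, Fintype.card_fin] at h3
    exact h3
  obtain ⟨J, v, hv1, hv2, hv3, hv4⟩ := R6_basis h2 U hiso (by omega : N + 1 = 2 * 3) hfin
  refine ⟨?_, J, v, fun a => hmem _ (hv1 a), hv2, hv3⟩
  intro q r h3 h4
  have key := R13_sq h2 U X q r c hX v hv1 hv3 J hv4 w hwU (by rw [hXw]; exact one_ne_zero) (by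
    intro u hu hxu
    obtain ⟨s, t, b, rfl⟩ := hmem u hu
    rw [Dh_add_right, Dh_add_right, Dh_smul_right, Dh_smul_right, Dh_smul_right, hXB1, hXB2,
      hXw] at hxu
    have hb : b = 0 := by linear_combination hxu
    rw [hb, zero_smul, add_zero, Dh_add_right, Dh_add_right, Dh_smul_right, Dh_smul_right,
      Dh_smul_right, Dh_smul_right, h3, h4]
    ring)
  exact ⟨key B1 hB1U hXB1, key B2 hB2U hXB2⟩

theorem R13_der {m : ℕ} (x : Fin (m + 1 + 1) → κ) (i1 : Algebra ℤ κ)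
    (h : ∀ j : Fin m, ∃ D : @Derivation ℤ κ κ _ _ _ i1 _ _,
      ∀ i : Fin m, D (x i.succ.succ) = if i = j then 1 else 0) :
    ∀ j : Fin m, ∃ D : @Derivation ℤ κ κ _ _ _ (Ring.toIntAlgebra κ) _ _,
      ∀ i : Fin m, D (x i.succ.succ) = if i = j then 1 else 0 := by
  intro j
  obtain ⟨D0, hD0⟩ := h j
  obtain ⟨D, hD⟩ := R10_conv _ (Ring.toIntAlgebra κ) D0
  exact ⟨D, fun i => by rw [hD]; exact hD0 i⟩

end field

variable {M : Type*} [Field M] (O : ValuationSubring M)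

theorem R13_main [Infinite M] {m r : ℕ}
    (c g : Fin (m + 1 + 1) → Fin (m + 1 + 1) → Fin (m + 1 + 1) → O) (π : O)
    (x : Fin (m + 1 + 1) → O) (k0 : Subfield (IsLocalRing.ResidueField O))
    (hpl : Plc O c g π x k0) (h20 : (2 : M) ≠ 0)
    (β : (Fin r → M) →ₗ[M] (Fin (m + 1 + 1) → M)) (G : (Fin r → M) → (Fin (m + 1 + 1) → M))
    (Γ : (Fin r → M) → (Fin r → M) → (Fin (m + 1 + 1) → M)) (hF : Fam O c x β G Γ)
    (hr : r = 2) (hm : m = 2 * r) : False := by
  classical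
  subst hr
  have hN : m + 1 + 1 = 6 := by omega
  have h2 := hpl.two
  have hinf := hpl.inf
  have hπ := hpl.piq
  have hπr : IsLocalRing.residue O π = 0 := by
    have h1 := congrArg (IsLocalRing.residue O) hπ
    rw [map_pow, map_ofNat, h2] at h1
    exact pow_eq_zero_iff (two_ne_zero) |>.1 h1
  have hcr : ∀ i j l, IsLocalRing.residue O (c i j l) = if i = j ∧ j = l then 1 else 0 := by
    intro i j k
    rw [hpl.cg, map_add, map_mul, hπr, zero_mul, add_zero]
    split_ifs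
    · exact map_one _
    · exact map_zero _
  obtain ⟨t, ht, htT⟩ := R11_exists O β x hF.hB
  obtain ⟨v, b, y, γ, hv, hy, hγ, hbt, hS⟩ := R11_lattice O c hcr h2 hinf x hpl.x0 hpl.hP β G Γ hF
    t ht htT
  have hD := R13_der (rv O x) (IsLocalRing.ResidueField.algebra O) (fun j => by
    obtain ⟨D0, hD0, -⟩ := hpl.der j
    exact ⟨D0, hD0⟩)
  obtain ⟨lam, w, hXw, hww, hwb, hbw, hlΓ, hlG⟩ := R5_main h2 hS (le_refl 2) hm hpl.x1 hD
  have hI := R3_ind h2 hS.x0 hS.h0 hpl.x1 hD _ hS.h1 hS.nz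
  obtain ⟨X, hX⟩ : ∃ X, X = rv O x := ⟨_, rfl⟩
  obtain ⟨B1, hB1⟩ : ∃ B1, B1 = rv O (b 0) := ⟨_, rfl⟩
  obtain ⟨B2, hB2⟩ : ∃ B2, B2 = rv O (b 1) := ⟨_, rfl⟩
  have hβ : ∀ v : Fin 2 → IsLocalRing.ResidueField O,
      redβ (fun j => rv O (b j)) v = v 0 • B1 + v 1 • B2 := by
    intro v
    rw [redβ, Fintype.linearCombination_apply, Fin.sum_univ_two, hB1, hB2]
  have hβ0 : redβ (fun j => rv O (b j)) (Pi.single 0 1) = B1 := by
    rw [hβ]
    simp
  have hβ1 : redβ (fun j => rv O (b j)) (Pi.single 1 1) = B2 := by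
    rw [hβ]
    simp
  rw [← hX] at hXw
  have hXX : Dh X X = 0 := by rw [hX]; exact hS.h0
  have hXB1 : Dh X B1 = 0 := by
    rw [← hβ0, hX]
    exact hS.h1 _
  have hXB2 : Dh X B2 = 0 := by
    rw [← hβ1, hX]
    exact hS.h1 _
  have hB11 : Dh B1 B1 = 0 := by
    rw [← hβ0]
    exact hS.h3 _ _
  have hB12 : Dh B1 B2 = 0 := by
    rw [← hβ0, ← hβ1]
    exact hS.h3 _ _
  have hB21 : Dh B2 B1 = 0 := by
    rw [← hβ0, ← hβ1]
    exact hS.h3 _ _
  have hB22 : Dh B2 B2 = 0 := by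
    rw [← hβ1]
    exact hS.h3 _ _
  have hwB1 : Dh w B1 = 0 := by
    rw [← hβ0]
    exact hwb _
  have hwB2 : Dh w B2 = 0 := by
    rw [← hβ1]
    exact hwb _
  have hB1w : Dh B1 w = 0 := by
    rw [← hβ0]
    exact hbw _
  have hB2w : Dh B2 w = 0 := by
    rw [← hβ1]
    exact hbw _
  have nz : ∀ s t : IsLocalRing.ResidueField O, Dh (s • B1 + t • B2) X = 0 → s = 0 ∧ t = 0 := by
    intro s t hst
    by_contra hne
    have h3 : (![s, t] : Fin 2 → IsLocalRing.ResidueField O) ≠ 0 := by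
      intro h
      exact hne ⟨congrFun h 0, congrFun h 1⟩
    apply hS.nz _ h3
    rw [hβ, ← hX]
    exact hst
  have dec : ∀ u, Dh u B1 = 0 → Dh u B2 = 0 →
      ∃ s t a b : IsLocalRing.ResidueField O, u = s • B1 + t • B2 + a • X + b • w := by
    intro u hu1 hu2
    obtain ⟨t, a, b', hu⟩ := R2_dec h2 hS (le_refl 2) (by omega) w hwb (by
      rw [← hX, hXw]
      exact one_ne_zero) u (by
      intro z
      rw [hβ, Dh_add_right, Dh_smul_right, Dh_smul_right, hu1, hu2, mul_zero, mul_zero, add_zero])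
    refine ⟨t 0, t 1, a, b', ?_⟩
    rw [hu, hβ, ← hX]
  have hφ0 : Dh w X ≠ 0 := by
    intro h
    have h3 := hS.hP w (by rw [← hX]; exact h)
    rw [← hX] at h3
    rw [h3, Dh_smul_right, hXX, mul_zero] at hXw
    exact zero_ne_one hXw
  -- the product `X₁ X₂` is not a square
  have hns : ∀ p q : IsLocalRing.ResidueField O, p ^ 2 = (Dh B1 X * Dh B2 X) * q ^ 2 → q = 0 := by
    intro p q hpq
    have h3 := hI (fun S => if S = ∅ then p else if S = {0, 1} then q else 0) (by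
      have hu : (Finset.univ : Finset (Finset (Fin 2))) = {∅, {0}, {1}, {0, 1}} := by decide
      rw [hu, Finset.sum_insert (by decide), Finset.sum_insert (by decide),
        Finset.sum_insert (by decide), Finset.sum_singleton]
      rw [if_pos rfl, if_neg (by decide), if_neg (by decide), if_neg (by decide),
        if_neg (by decide), if_neg (by decide), if_pos rfl, Finset.prod_empty,
        Finset.prod_pair (by decide)]
      beta_reduce
      rw [hβ0, hβ1, ← hX, hpq]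
      linear_combination (Dh B1 X * Dh B2 X * q ^ 2) * h2) {0, 1}
    rwa [if_neg (by decide), if_pos rfl] at h3
  obtain ⟨hsq, J, vv, hvv1, hvv2, hvv3⟩ := R13_hsq h2 hN X B1 B2 w hXB1 hXB2 hXw hB11 hB12 hB21
    hB22 hww hwB1 hwB2 hB1w hB2w nz _ hns
  -- the residues of the quadratic part
  have hG0 : rv O (y 0) = lam (Pi.single 0 1) • B1 + lam (Pi.single 0 1) ^ 2 • X +
      Dh B1 X • (w + Dh w X • X) := by
    have h3 := hlG (Pi.single 0 1)
    rw [hβ0, ← hX] at h3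
    rw [← h3]
    simp [redG, Fin.sum_univ_two]
  have hG1 : rv O (y 1) = lam (Pi.single 1 1) • B2 + lam (Pi.single 1 1) ^ 2 • X +
      Dh B2 X • (w + Dh w X • X) := by
    have h3 := hlG (Pi.single 1 1)
    rw [hβ1, ← hX] at h3
    rw [← h3]
    simp [redG, Fin.sum_univ_two]
  have hγ0 : rv O (γ 0 1) = lam (Pi.single 0 1) • B2 + lam (Pi.single 1 1) • B1 := by
    have h3 := hlΓ (Pi.single 0 1) (Pi.single 1 1)
    rw [hβ0, hβ1] at h3
    rw [← h3]
    simp [redΓ, Fin.sum_univ_two]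
  -- the equations over the ring
  have hinfO : Infinite O := by
    have hs : Function.Surjective (IsLocalRing.residue O) := IsLocalRing.residue_surjective
    exact Infinite.of_surjective _ hs
  have hπ0 : π ≠ 0 := by
    intro h
    rw [h, zero_pow (by norm_num)] at hπ
    have h3 := congrArg (fun z : O => (z : M)) hπ
    have h4 : (0 : M) = 2 := h3
    exact h20 h4.symm
  have hQ0 : Quad2 c x (b 0) (b 1) (y 0) (y 1) (γ 0 1) := by
    intro s p q
    apply Subtype.ext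
    have h3 := hF.hid (∑ j, (![(p : M), (q : M)] : Fin 2 → M) j • v j) (s : M)
    rw [R11_expand hF, map_sum] at h3
    simp only [map_smul, hv, redG, Fin.sum_univ_two, hy, hγ] at h3
    have h4 := Fc_cm (c := c) O.subtype (s ^ 2 • x + s • (p • b 0 + q • b 1) +
      (p ^ 2 • y 0 + q ^ 2 • y 1 + (p * q) • γ 0 1))
    refine h4.symm.trans (Eq.trans ?_ h3)
    congr 1
    funext i
    simp [iv]
  obtain ⟨a1, a2, R, hR⟩ := R13_lat O hN c g π h2 hπ hpl.cg x (b 0) (b 1) (y 0) (y 1) (γ 0 1) hQ0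
    X B1 B2 w (fun i => by rw [hX]; rfl) (fun i => by rw [hB1]; rfl) (fun i => by rw [hB2]; rfl)
    hXX hXB1 hXB2 hXw hB11 hB12 hB21 hB22 hwB1 hwB2 nz (Dh w X) (lam (Pi.single 0 1)) (by
      intro i
      exact congrFun hG0 i)
  -- the multipliers
  have hlam : lam (Pi.single 0 1) = IsLocalRing.residue O a2 ∧
      lam (Pi.single 1 1) = IsLocalRing.residue O a1 := by
    have h3 : (lam (Pi.single 1 1) - IsLocalRing.residue O a1) • B1 +
        (lam (Pi.single 0 1) - IsLocalRing.residue O a2) • B2 = 0 := by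
      have h4 : rv O (γ 0 1) = IsLocalRing.residue O a1 • B1 + IsLocalRing.residue O a2 • B2 := by
        rw [hR]
        funext i
        simp only [rv, hB1, hB2, Pi.add_apply, Pi.smul_apply, smul_eq_mul, map_add, map_mul, hπr,
          zero_mul, add_zero]
      rw [h4] at hγ0
      funext i
      have h5 := congrFun hγ0 i
      simp only [Pi.add_apply, Pi.smul_apply, smul_eq_mul, Pi.zero_apply] at h5 ⊢
      linear_combination -h5
    obtain ⟨h4, h5⟩ := nz _ _ (by rw [h3, Dh_zero_left])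
    exact ⟨sub_eq_zero.1 h5, sub_eq_zero.1 h4⟩
  have hQ1 := R13_gauge hQ0 (-a2) (-a1)
  have hγ' : γ 0 1 + (-a2) • b 1 + (-a1) • b 0 + (2 * (-a2 * -a1)) • x =
      π • (R + (π * (a1 * a2)) • x) := by
    rw [hR, ← hπ]
    funext i
    simp only [Pi.add_apply, Pi.smul_apply, smul_eq_mul]
    ring
  rw [hγ'] at hQ1
  have hB1' : ∀ i, B1 i = IsLocalRing.residue O ((b 0 + (2 * -a2) • x) i) := by
    intro i
    simp only [hB1, rv, Pi.add_apply, Pi.smul_apply, smul_eq_mul, map_add, map_mul, map_ofNat, h2,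
      zero_mul, add_zero]
  have hB2' : ∀ i, B2 i = IsLocalRing.residue O ((b 1 + (2 * -a1) • x) i) := by
    intro i
    simp only [hB2, rv, Pi.add_apply, Pi.smul_apply, smul_eq_mul, map_add, map_mul, map_ofNat, h2,
      zero_mul, add_zero]
  have hX' : ∀ i, X i = IsLocalRing.residue O (x i) := fun i => by rw [hX]; rfl
  have hG0' : ∀ i, IsLocalRing.residue O ((y 0 + (-a2) • b 0 + (-a2) ^ 2 • x) i) =
      (Dh B1 X • (w + Dh w X • X)) i := by
    intro i
    have h3 := congrFun hG0 i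
    have h4 : IsLocalRing.residue O (b 0 i) = B1 i := by rw [hB1]; rfl
    simp only [rv, Pi.add_apply, Pi.smul_apply, smul_eq_mul, hlam.1] at h3
    simp only [Pi.add_apply, Pi.smul_apply, smul_eq_mul, map_add, map_mul, map_neg, map_pow, h3,
      h4, ← hX']
    linear_combination (IsLocalRing.residue O a2 ^ 2 * X i) * h2
  have hG1' : ∀ i, IsLocalRing.residue O ((y 1 + (-a1) • b 1 + (-a1) ^ 2 • x) i) =
      (Dh B2 X • (w + Dh w X • X)) i := by
    intro i
    have h3 := congrFun hG1 i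
    have h4 : IsLocalRing.residue O (b 1 i) = B2 i := by rw [hB2]; rfl
    simp only [rv, Pi.add_apply, Pi.smul_apply, smul_eq_mul, hlam.2] at h3
    simp only [Pi.add_apply, Pi.smul_apply, smul_eq_mul, map_add, map_mul, map_neg, map_pow, h3,
      h4, ← hX']
    linear_combination (IsLocalRing.residue O a1 ^ 2 * X i) * h2
  have hfin := R13_core O c g π h2 hπ0 hπ hpl.cg x _ _ _ _ _ hQ1 X B1 B2 w hX' hB1' hB2'
    hXX hXB1 hXB2 hXw hB11 hB12 hww hwB1 hwB2 hB1w hB2w nz (Dh w X) rfl hφ0 hG0' hG1' dec hsq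
  have h3 := R13_alt h2 (cm (IsLocalRing.residue O) g) B1 B2 w hfin vv hvv1
  have h16 : ∀ a i, vv a i ^ 16 = vv a i := by
    intro a i
    calc vv a i ^ 16 = (vv a i ^ 4) ^ 4 := by ring
      _ = vv a i := by rw [hvv3, hvv3]
  refine R7_ne h2 (cm (IsLocalRing.residue O) g) ?_ ?_ (vv 0) (vv 1) (vv 2) (h16 0) (h16 1) (h16 2)
    (J 0) (J 1) (J 2) (J.strictMono (by decide)) (J.strictMono (by decide)) ?_ h3
  · intro i j l h
    change IsLocalRing.residue O (g i j l) = 0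
    rw [hpl.g0 i j l h, map_zero]
  · exact hpl.gen
  · simp only [hvv2]
    simp
  
end MP2619.KC
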