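import Pool.Agent.Lib.MP_2619d0_ag.KC.R7

/-! Row R13a: the equations of a family over a two-dimensional base, in coordinates. -/

set_option autoImplicit false

namespace MP2619.KC

open Pool.Agent.Lib.MP_2619d0_ag.T

section ring

variable {R ι : Type*} [CommRing R] [Fintype ι]

theorem R13_coef [IsDomain R] [Infinite R] (a0 a1 a2 a3 a4 a5 a6 : R)
    (h : ∀ s : R, a0 + s * a1 + s ^ 2 * a2 + s ^ 3 * a3 + s ^ 4 * a4 + s ^ 5 * a5 + s ^ 6 * a6 = 0) :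
    a0 = 0 ∧ a1 = 0 ∧ a2 = 0 ∧ a3 = 0 ∧ a4 = 0 ∧ a5 = 0 ∧ a6 = 0 := by
  have hP : (Polynomial.C a0 + Polynomial.X * Polynomial.C a1 +
      Polynomial.X ^ 2 * Polynomial.C a2 + Polynomial.X ^ 3 * Polynomial.C a3 +
      Polynomial.X ^ 4 * Polynomial.C a4 + Polynomial.X ^ 5 * Polynomial.C a5 +
      Polynomial.X ^ 6 * Polynomial.C a6 : Polynomial R) = 0 := by
    apply Polynomial.funext
    intro s
    simp only [Polynomial.eval_add, Polynomial.eval_mul, Polynomial.eval_C, Polynomial.eval_pow,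
      Polynomial.eval_X, Polynomial.eval_zero]
    exact h s
  have key : ∀ n, (Polynomial.C a0 + Polynomial.X * Polynomial.C a1 +
      Polynomial.X ^ 2 * Polynomial.C a2 + Polynomial.X ^ 3 * Polynomial.C a3 +
      Polynomial.X ^ 4 * Polynomial.C a4 + Polynomial.X ^ 5 * Polynomial.C a5 +
      Polynomial.X ^ 6 * Polynomial.C a6 : Polynomial R).coeff n = 0 := by
    intro n
    rw [hP, Polynomial.coeff_zero]
  simp only [Polynomial.coeff_add, Polynomial.coeff_mul_C, Polynomial.coeff_X_pow,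
    Polynomial.coeff_X, Polynomial.coeff_C] at key
  have e0 := key 0
  have e1 := key 1
  have e2 := key 2
  have e3 := key 3
  have e4 := key 4
  have e5 := key 5
  have e6 := key 6
  norm_num at e0 e1 e2 e3 e4 e5 e6
  exact ⟨e0, e1, e2, e3, e4, e5, e6⟩

/-- the equations -/
def Quad2 (c : ι → ι → ι → R) (x b1 b2 G1 G2 γ : ι → R) : Prop :=
  ∀ s p q : R, Fc c (s ^ 2 • x + s • (p • b1 + q • b2) +
    (p ^ 2 • G1 + q ^ 2 • G2 + (p * q) • γ)) = 0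

variable {c : ι → ι → ι → R} {x b1 b2 G1 G2 γ : ι → R}

/-- change of the parametrisation -/
theorem R13_gauge (h : Quad2 c x b1 b2 G1 G2 γ) (l1 l2 : R) :
    Quad2 c x (b1 + (2 * l1) • x) (b2 + (2 * l2) • x) (G1 + l1 • b1 + l1 ^ 2 • x)
      (G2 + l2 • b2 + l2 ^ 2 • x) (γ + l1 • b2 + l2 • b1 + (2 * (l1 * l2)) • x) := by
  intro s p q
  rw [← h (s + (l1 * p + l2 * q)) p q]
  congr 1
  funext i
  simp only [Pi.add_apply, Pi.smul_apply, smul_eq_mul]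
  ring

theorem R13_conic [IsDomain R] [Infinite R] {w q d : ι → R}
    (h : ∀ s : R, Fc c (s ^ 2 • w + s • q + d) = 0) :
    Fc c w = 0 ∧ Dc c w q = 0 ∧ Dc c w d + Dc c q w = 0 ∧ Fc c q + Tc c w q d = 0 ∧
      Dc c q d + Dc c d w = 0 ∧ Dc c d q = 0 ∧ Fc c d = 0 := by
  have key := R13_coef (Fc c d) (Dc c d q) (Dc c q d + Dc c d w) (Fc c q + Tc c w q d)
    (Dc c w d + Dc c q w) (Dc c w q) (Fc c w) (by
      intro s
      have h1 := h s
      have hT : Tc c (s ^ 2 • w) (s • q) d = s ^ 3 * Tc c w q d := by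
        rw [Tc_smul_left, Tc_smul_mid]
        ring
      rw [Fc_add, Fc_line, Dc_add_left, Dc_smul_left, Dc_smul_left, hT, Dc_add_right,
        Dc_smul_right, Dc_smul_right] at h1
      linear_combination h1)
  obtain ⟨e0, e1, e2, e3, e4, e5, e6⟩ := key
  exact ⟨e6, e5, e4, e3, e2, e1, e0⟩

/-- the coefficients of the equations -/
theorem R13_eqs [IsDomain R] [Infinite R] (h : Quad2 c x b1 b2 G1 G2 γ) :
    (Dc c x b1 = 0 ∧ Dc c x b2 = 0) ∧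
    (Dc c x G1 + Dc c b1 x = 0 ∧ Dc c x G2 + Dc c b2 x = 0 ∧ Dc c x γ + Tc c b1 b2 x = 0) ∧
    (Fc c b1 + Tc c x b1 G1 = 0 ∧ Dc c b1 b2 + (Tc c x b1 γ + Tc c x b2 G1) = 0 ∧
      Dc c b2 b1 + (Tc c x b1 G2 + Tc c x b2 γ) = 0 ∧ Fc c b2 + Tc c x b2 G2 = 0) ∧
    (Dc c b1 γ + Tc c b1 b2 G1 + Tc c G1 γ x = 0 ∧
      Dc c b2 γ + Tc c b1 b2 G2 + Tc c G2 γ x = 0) ∧
    (Dc c G1 b1 = 0 ∧ Dc c G1 b2 + Tc c G1 γ b1 = 0 ∧
      Tc c G1 G2 b1 + Dc c γ b1 + Tc c G1 γ b2 = 0 ∧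
      Tc c G1 G2 b2 + Dc c γ b2 + Tc c G2 γ b1 = 0 ∧
      Dc c G2 b1 + Tc c G2 γ b2 = 0 ∧ Dc c G2 b2 = 0) ∧
    (Fc c G1 = 0 ∧ Dc c G1 γ = 0 ∧ Dc c G1 G2 + Dc c γ G1 = 0 ∧
      Dc c G2 G1 + Dc c γ G2 = 0 ∧ Dc c G2 γ = 0 ∧ Fc c G2 = 0) := by
  have base := fun p q : R => R13_conic (fun s => h s p q)
  have hpq : ∀ p q : R, Dc c x (p • b1 + q • b2) = 0 := fun p q => (base p q).2.1
  have e5a := hpq 1 0
  have e5b := hpq 0 1
  simp only [one_smul, zero_smul, add_zero, zero_add] at e5a e5b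
  have e4 : ∀ p q : R, Dc c x (p ^ 2 • G1 + q ^ 2 • G2 + (p * q) • γ) +
      Dc c (p • b1 + q • b2) x = 0 := fun p q => (base p q).2.2.1
  have e4a := e4 1 0
  have e4b := e4 0 1
  have e4c := e4 1 1
  simp only [one_pow, one_smul, ne_eq, OfNat.ofNat_ne_zero, not_false_eq_true, zero_pow,
    zero_smul, mul_zero, zero_mul, add_zero, zero_add, mul_one] at e4a e4b e4c
  rw [Dc_add_right, Dc_add_right, Dc_add_left] at e4c
  have e4d : Dc c x γ + Tc c b1 b2 x = 0 := by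
    linear_combination e4c - e4a - e4b
  -- the others, as polynomials in `q` with `p = 1`
  have hH : ∀ s : R, ((1 : R) ^ 2 • G1 + s ^ 2 • G2 + (1 * s) • γ) = G1 + s • γ + s ^ 2 • G2 := by
    intro s
    rw [one_pow, one_smul, one_mul]
    abel
  have hB : ∀ s : R, ((1 : R) • b1 + s • b2) = b1 + s • b2 := by
    intro s
    rw [one_smul]
  have e3 := R13_coef (Fc c b1 + Tc c x b1 G1) (Dc c b1 b2 + (Tc c x b1 γ + Tc c x b2 G1))
    (Dc c b2 b1 + (Tc c x b1 G2 + Tc c x b2 γ)) (Fc c b2 + Tc c x b2 G2) 0 0 0 (by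
      intro s
      have h1 := (base 1 s).2.2.2.1
      rw [hH, hB] at h1
      simp only [Fc_add, Fc_smul, Dc_smul_left, Dc_smul_right, Tc_add_mid, Tc_add_right,
        Tc_smul_mid, Tc_smul_right] at h1
      linear_combination h1)
  have e2 := R13_coef (Dc c b1 G1 + Dc c G1 x) (Dc c b1 γ + Tc c b1 b2 G1 + Tc c G1 γ x)
    (Dc c b1 G2 + Tc c b1 b2 γ + Dc c b2 G1 + Dc c γ x + Tc c G1 G2 x)
    (Dc c b2 γ + Tc c b1 b2 G2 + Tc c γ G2 x) (Dc c b2 G2 + Dc c G2 x) 0 0 (by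
      intro s
      have h1 := (base 1 s).2.2.2.2.1
      rw [hH, hB] at h1
      simp only [Dc_add_left, Dc_add_right, Dc_smul_left, Dc_smul_right, Tc_add_left,
        Tc_add_mid, Tc_add_right, Tc_smul_left, Tc_smul_mid, Tc_smul_right] at h1
      linear_combination h1)
  have e1 := R13_coef (Dc c G1 b1) (Dc c G1 b2 + Tc c G1 γ b1)
    (Tc c G1 G2 b1 + Dc c γ b1 + Tc c G1 γ b2) (Tc c γ G2 b1 + Tc c G1 G2 b2 + Dc c γ b2)
    (Dc c G2 b1 + Tc c γ G2 b2) (Dc c G2 b2) 0 (by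
      intro s
      have h1 := (base 1 s).2.2.2.2.2.1
      rw [hH, hB] at h1
      simp only [Dc_add_left, Dc_add_right, Dc_smul_left, Dc_smul_right, Tc_add_left,
        Tc_add_mid, Tc_add_right, Tc_smul_left, Tc_smul_mid, Tc_smul_right] at h1
      linear_combination h1)
  have e0 := R13_coef (Fc c G1) (Dc c G1 γ) (Dc c G1 G2 + Dc c γ G1)
    (Fc c γ + Tc c G1 γ G2) (Dc c G2 G1 + Dc c γ G2) (Dc c G2 γ) (Fc c G2) (by
      intro s
      have h1 := (base 1 s).2.2.2.2.2.2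
      rw [hH] at h1
      simp only [Fc_add, Fc_smul, Dc_add_left, Dc_add_right, Dc_smul_left, Dc_smul_right,
        Tc_add_left, Tc_add_mid, Tc_add_right, Tc_smul_left, Tc_smul_mid, Tc_smul_right] at h1
      linear_combination h1)
  have t1 : Tc c γ G2 x = Tc c G2 γ x := Tc_comm c γ G2 x
  have t2 : Tc c γ G2 b1 = Tc c G2 γ b1 := Tc_comm c γ G2 b1
  have t3 : Tc c γ G2 b2 = Tc c G2 γ b2 := Tc_comm c γ G2 b2
  refine ⟨⟨e5a, e5b⟩, ⟨e4a, e4b, e4d⟩, ⟨e3.1, e3.2.1, e3.2.2.1, e3.2.2.2.1⟩,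
    ⟨e2.2.1, ?_⟩, ⟨e1.1, e1.2.1, e1.2.2.1, ?_, ?_, e1.2.2.2.2.2.1⟩,
    ⟨e0.1, e0.2.1, e0.2.2.1, e0.2.2.2.2.1, e0.2.2.2.2.2.1, e0.2.2.2.2.2.2⟩⟩
  · rw [← t1]
    exact e2.2.2.2.1
  · rw [← t2]
    linear_combination e1.2.2.2.1
  · rw [← t3]
    exact e1.2.2.2.2.1

end ring

end MP2619.KC
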