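import Pool.Agent.Lib.MP_2619d0_ag.KC.R13a
import Pool.Agent.Lib.MP_2619d0_ag.KC.R2

/-! Row R13b: second order consequences of the equations; linear algebra over the residue field. -/

set_option autoImplicit false

namespace MP2619.KC

open Pool.Agent.Lib.MP_2619d0_ag.T MP2619.K

section ring

variable {R ι : Type*} [CommRing R] [Fintype ι]

/-- second order consequences of the equations -/
theorem R13_exact [IsDomain R] [Infinite R] {c : ι → ι → ι → R} {x b1 b2 G1 G2 r : ι → R} {π : R}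
    (hπ : π ≠ 0) (h : Quad2 c x b1 b2 G1 G2 (π • r)) (P : (ι → R) → (ι → R) → (ι → R) → R)
    (hT : ∀ u v w, Tc c u v w = π * P u v w) (X1 X2 : R) (hX1 : X1 = Dc c b1 x)
    (hX2 : X2 = Dc c b2 x) (Gs : ι → R) (hGs : Gs = X2 • G1 + (-X1) • G2) :
    Dc c x Gs = 0 ∧ Dc c G1 Gs = π ^ 2 * (X1 * Dc c r G1) ∧
    Dc c Gs G1 = π ^ 2 * (2 * X1 * X2 * Dc c r G1 - X1 ^ 2 * Dc c r G2) ∧
    Dc c Gs b1 = π ^ 2 * (-X1 ^ 2 * P G2 r b2 + X1 * X2 * (Dc c r b1 + P G1 r b2)) ∧
    Dc c Gs b2 = π ^ 2 * (-X2 ^ 2 * P G1 r b1 + X1 * X2 * (Dc c r b2 + P G2 r b1)) ∧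
    Dc c x r + P b1 b2 x = 0 ∧ Dc c G1 r = 0 ∧
    Dc c b1 r + P b1 b2 G1 + π * P G1 r x = 0 ∧
    Dc c b2 r + P b1 b2 G2 + π * P G2 r x = 0 := by
  obtain ⟨⟨a1, a2⟩, ⟨c1, c2, c3⟩, -, ⟨d1, d2⟩, ⟨e1, e2, e3, e4, e5, e6⟩,
    ⟨f1, f2, f3, f4, f5, f6⟩⟩ := R13_eqs h
  simp only [Tc_smul_mid, Dc_smul_left, Dc_smul_right] at c3 d1 d2 e2 e3 e4 e5 f2 f3 f4 f5
  simp only [hT] at c3 d1 d2 e2 e3 e4 e5
  have hG11 : Dc c G1 G1 = 0 := by rw [Dc_self, f1, mul_zero]
  have hT1 : ∀ v, Tc c G1 G1 v = 2 * Dc c G1 v := fun v => Tc_self c G1 v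
  refine ⟨?_, ?_, ?_, ?_, ?_, ?_, ?_, ?_, ?_⟩
  · rw [hGs, Dc_add_right, Dc_smul_right, Dc_smul_right]
    linear_combination X2 * c1 - X1 * c2 + X2 * hX1 - X1 * hX2
  · rw [hGs, Dc_add_right, Dc_smul_right, Dc_smul_right, hG11]
    linear_combination (-X1) * f3
  · have t1 : Tc c G1 G2 G1 = 2 * Dc c G1 G2 := by
      rw [Tc_comm', hT1]
    rw [hGs, Dc_add_left, Dc_smul_left, Dc_smul_left, Tc_smul_left, Tc_smul_mid, t1, hG11]
    linear_combination X1 ^ 2 * f4 - 2 * X1 * X2 * f3
  · rw [hGs, Dc_add_left, Dc_smul_left, Dc_smul_left, Tc_smul_left, Tc_smul_mid, hT, e1]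
    linear_combination X1 ^ 2 * e5 - X1 * X2 * e3
  · rw [hGs, Dc_add_left, Dc_smul_left, Dc_smul_left, Tc_smul_left, Tc_smul_mid, hT, e6]
    linear_combination X2 ^ 2 * e2 - X1 * X2 * e4
  · apply mul_left_cancel₀ hπ
    linear_combination c3
  · apply mul_left_cancel₀ hπ
    linear_combination f2
  · apply mul_left_cancel₀ hπ
    linear_combination d1
  · apply mul_left_cancel₀ hπ
    linear_combination d2

end ring

section field

variable {κ : Type*} [Field κ] {n : ℕ}

/-- the kernel of four linear forms in six variables -/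
theorem R13_kernel (h2 : (2 : κ) = 0) (hn : n = 6) (x b1 b2 w : Fin n → κ)
    (hxx : Dh x x = 0) (hxb1 : Dh x b1 = 0) (hxb2 : Dh x b2 = 0) (hxw : Dh x w = 1)
    (nz : ∀ s t : κ, Dh (s • b1 + t • b2) x = 0 → s = 0 ∧ t = 0)
    (hb11 : Dh b1 b1 = 0) (hb12 : Dh b1 b2 = 0) (hb21 : Dh b2 b1 = 0) (hb22 : Dh b2 b2 = 0)
    (hwb1 : Dh w b1 = 0) (hwb2 : Dh w b2 = 0) (u : Fin n → κ) (hxu : Dh x u = 0)
    (h1u : Dh b1 u = 0) (h2u : Dh b2 u = 0) (hwu : Dh w u = 0) :
    ∃ s t : κ, u = s • b1 + t • b2 := by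
  classical
  by_contra hcon
  -- four independent vectors
  have hq : LinearIndependent κ ![x, b1, b2, w] := by
    rw [Fintype.linearIndependent_iff]
    intro a ha
    simp only [Fin.sum_univ_four, Matrix.cons_val_zero, Matrix.cons_val_one,
      Matrix.cons_val] at ha
    have e1 := congrArg (Dh x) ha
    simp only [Dh_add_right, Dh_smul_right, hxx, hxb1, hxb2, hxw, Dh_zero_right, mul_zero, mul_one,
      zero_add] at e1
    rw [e1, zero_smul, add_zero] at ha
    have e2 := congrArg (fun v => Dh v x) ha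
    simp only [Dh_zero_left] at e2
    rw [add_assoc, Dh_add_left h2, Dh_smul_left, hxx, mul_zero, zero_add] at e2
    obtain ⟨e3, e4⟩ := nz _ _ e2
    rw [e3, e4, zero_smul, zero_smul, add_zero, add_zero] at ha
    have e5 : a 0 = 0 := by
      rcases smul_eq_zero.1 ha with h | h
      · exact h
      · exfalso
        rw [h, Dh_zero_left] at hxw
        exact zero_ne_one hxw
    intro i
    fin_cases i
    · exact e5
    · exact e3
    · exact e4
    · exact e1
  -- three independent vectors in the kernel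
  have hb : LinearIndependent κ ![b1, b2, u] := by
    rw [Fintype.linearIndependent_iff]
    intro a ha
    simp only [Fin.sum_univ_three, Matrix.cons_val_zero, Matrix.cons_val_one,
      Matrix.cons_val] at ha
    have e1 : a 2 = 0 := by
      by_contra hne
      apply hcon
      refine ⟨-(a 2)⁻¹ * a 0, -(a 2)⁻¹ * a 1, ?_⟩
      have e2 : a 2 • u = -(a 0 • b1) - a 1 • b2 := by
        rw [← sub_eq_zero, ← ha]
        abel
      have e3 : u = (a 2)⁻¹ • (a 2 • u) := by
        rw [smul_smul, inv_mul_cancel₀ hne, one_smul]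
      rw [e3, e2, smul_sub, smul_neg, smul_smul, smul_smul, neg_mul, neg_mul, neg_smul, neg_smul]
      abel
    rw [e1, zero_smul, add_zero] at ha
    obtain ⟨e3, e4⟩ := nz (a 0) (a 1) (by rw [ha, Dh_zero_left])
    intro i
    fin_cases i
    · exact e3
    · exact e4
    · exact e1
  let T : Submodule κ (Fin n → κ) := Submodule.span κ (Set.range ![b1, b2, u])
  have hT : Module.finrank κ T = 3 := by
    have h3 := finrank_span_eq_card hb
    rwa [Fintype.card_fin] at h3
  have horth : ∀ j : Fin 4, ∀ t ∈ T, ∑ i, (![x, b1, b2, w] j i) ^ 2 * t i = 0 := by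
    intro j t ht
    induction ht using Submodule.span_induction with
    | mem t ht =>
      obtain ⟨k, rfl⟩ := ht
      fin_cases j <;> fin_cases k <;> assumption
    | zero => simp
    | add a b _ _ ha hb =>
      simp only [Pi.add_apply, mul_add, Finset.sum_add_distrib, ha, hb, add_zero]
    | smul s a _ ha =>
      have h3 : ∀ i, (![x, b1, b2, w] j i) ^ 2 * (s • a) i =
          s * ((![x, b1, b2, w] j i) ^ 2 * a i) := by
        intro i
        rw [Pi.smul_apply, smul_eq_mul]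
        ring
      simp only [h3, ← Finset.mul_sum, ha, mul_zero]
  have h3 := K6_orth T _ (K6_sq h2 _ hq) horth
  rw [hT] at h3
  omega

/-- a vector whose products with the part of `U` orthogonal to `x` are, up to a factor which is not a
square, the products with another vector -/
theorem R13_sq (h2 : (2 : κ) = 0) {s : ℕ} (U : Submodule κ (Fin n → κ)) (x Q r : Fin n → κ)
    (X : κ) (hX : ∀ p q : κ, p ^ 2 = X * q ^ 2 → q = 0) (w : Fin s → Fin n → κ)
    (hw : ∀ a, w a ∈ U) (hw4 : ∀ a i, w a i ^ 4 = w a i) (J : Fin s → Fin n)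
    (hU : ∀ u ∈ U, u = ∑ a, u (J a) • w a) (u0 : Fin n → κ) (hu0 : u0 ∈ U)
    (hxu0 : Dh x u0 ≠ 0)
    (hQ : ∀ u ∈ U, Dh x u = 0 → Dh Q u = X * Dh r u) (u : Fin n → κ) (hu : u ∈ U)
    (hxu : Dh x u = 0) : Dh r u = 0 := by
  classical
  have : CharP κ 2 := CharTwo.of_one_ne_zero_of_two_eq_zero one_ne_zero h2
  obtain ⟨sq, hsq⟩ : ∃ sq : (Fin n → κ) → Fin s → κ, ∀ v a, sq v a = ∑ i, v i * w a i ^ 2 :=
    ⟨_, fun _ _ => rfl⟩
  have hsqD : ∀ v a, Dh v (w a) = sq v a ^ 2 := by
    intro v a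
    rw [hsq, Dh, show (∑ i, v i * w a i ^ 2) ^ 2 = ∑ i, (v i * w a i ^ 2) ^ 2 from
      sum_pow_char 2 _ _]
    refine Finset.sum_congr rfl fun i _ => ?_
    conv_lhs => rw [← hw4 a i]
    ring
  -- a basis vector which is not orthogonal to `x`
  obtain ⟨e, he⟩ : ∃ e, Dh x (w e) ≠ 0 := by
    by_contra hcon
    push Not at hcon
    apply hxu0
    have hsum : ∀ (f : Finset (Fin s)) (d : Fin s → κ), Dh x (∑ a ∈ f, d a • w a) = 0 := by
      intro f d
      induction f using Finset.induction_on with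
      | empty => rw [Finset.sum_empty, Dh_zero_right]
      | insert a f ha ih => rw [Finset.sum_insert ha, Dh_add_right, Dh_smul_right, hcon, ih,
          mul_zero, zero_add]
    rw [hU u0 hu0]
    exact hsum _ _
  have key : ∀ a, Dh r (Dh x (w e) • w a + Dh x (w a) • w e) = 0 := by
    intro a
    have h3 : Dh x (Dh x (w e) • w a + Dh x (w a) • w e) = 0 := by
      rw [Dh_add_right, Dh_smul_right, Dh_smul_right]
      linear_combination (Dh x (w e) * Dh x (w a)) * h2
    have h4 := hQ _ (U.add_mem (U.smul_mem _ (hw a)) (U.smul_mem _ (hw e))) h3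
    have h5 : ∀ v, Dh v (Dh x (w e) • w a + Dh x (w a) • w e) =
        (sq x e * sq v a + sq x a * sq v e) ^ 2 := by
      intro v
      rw [Dh_add_right, Dh_smul_right, Dh_smul_right, hsqD, hsqD, hsqD, hsqD]
      linear_combination (-(sq x e * sq v a * (sq x a * sq v e))) * h2
    rw [h5, h5] at h4
    rw [h5, hX _ _ h4]
    ring
  -- write `u` as a combination
  have h3 := hU u hu
  have hlin : ∀ v : Fin n → κ, Dh v u = ∑ a, u (J a) * Dh v (w a) := by
    intro v
    have hsum : ∀ (f : Finset (Fin s)), Dh v (∑ a ∈ f, u (J a) • w a) =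
        ∑ a ∈ f, u (J a) * Dh v (w a) := by
      intro f
      induction f using Finset.induction_on with
      | empty => rw [Finset.sum_empty, Finset.sum_empty, Dh_zero_right]
      | insert a f ha ih => rw [Finset.sum_insert ha, Finset.sum_insert ha, Dh_add_right,
          Dh_smul_right, ih]
    conv_lhs => rw [h3]
    exact hsum _
  have h4 : ∀ a, Dh x (w e) * Dh r (w a) = Dh x (w a) * Dh r (w e) := by
    intro a
    have h5 := key a
    rw [Dh_add_right, Dh_smul_right, Dh_smul_right] at h5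
    linear_combination h5 - (Dh x (w a) * Dh r (w e)) * h2
  have h5 : Dh x (w e) * Dh r u = 0 := by
    rw [hlin r, Finset.mul_sum]
    have h6 : ∀ a, Dh x (w e) * (u (J a) * Dh r (w a)) = (u (J a) * Dh x (w a)) * Dh r (w e) := by
      intro a
      linear_combination u (J a) * h4 a
    rw [Finset.sum_congr rfl fun a _ => h6 a, ← Finset.sum_mul, ← hlin x, hxu, zero_mul]
  exact (mul_eq_zero.1 h5).resolve_left he

end field

end MP2619.KC
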