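import Pool.Agent.Lib.MP_2619d0_ag.KC.R13b
import Pool.Agent.Lib.MP_2619d0_ag.KC.Defs2
import Pool.Agent.Lib.MP_2619d0_ag.K.K6

/-! Row R13c: the second order argument over the valuation ring. -/

set_option autoImplicit false

namespace MP2619.KC

open Pool.Agent.Lib.MP_2619d0_ag.T MP2619.K

variable {M : Type*} [Field M] (O : ValuationSubring M) {n : ℕ}

/-- a vector is divisible by `π`, or a multiple of a primitive vector by a proper divisor of `π` -/
theorem R13_div (π : O) (w : Fin n → O) :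
    (∃ r : Fin n → O, w = π • r) ∨ ∃ (ε η : O) (z : Fin n → O) (i : Fin n), ε ≠ 0 ∧ w = ε • z ∧
      z i = 1 ∧ π = ε * η ∧ IsLocalRing.residue O η = 0 := by
  classical
  by_cases hw : w = 0
  · exact Or.inl ⟨0, by rw [hw, smul_zero]⟩
  have hw' : (fun i => (w i : M)) ≠ 0 := by
    intro h
    apply hw
    funext i
    exact Subtype.ext (congrFun h i)
  obtain ⟨g, z, i, hg, hz, hgz⟩ := K6_scale O _ hw'
  have h1 : (w i : M) = g := by
    have h2 := congrFun hgz i
    simp only [Pi.smul_apply, smul_eq_mul, hz] at h2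
    rw [h2]
    exact mul_one g
  have hwz : w = w i • z := by
    funext j
    apply Subtype.ext
    have h2 := congrFun hgz j
    simp only [Pi.smul_apply, smul_eq_mul] at h2
    rw [h2, Pi.smul_apply, smul_eq_mul]
    change g * (z j : M) = (w i : M) * (z j : M)
    rw [h1]
  have hwi : w i ≠ 0 := by
    intro h
    apply hg
    rw [← h1, h]
    rfl
  rcases ValuationRing.dvd_total π (w i) with h | h
  · obtain ⟨t, ht⟩ := h
    left
    refine ⟨t • z, ?_⟩
    rw [smul_smul, ← ht]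
    exact hwz
  · obtain ⟨η, hη⟩ := h
    by_cases hη0 : IsLocalRing.residue O η = 0
    · exact Or.inr ⟨w i, η, z, i, hwi, hwz, hz, hη, hη0⟩
    · left
      have hu : IsUnit η := by
        by_contra h6
        apply hη0
        rw [IsLocalRing.residue_eq_zero_iff, IsLocalRing.mem_maximalIdeal, mem_nonunits_iff]
        exact h6
      obtain ⟨u, hu⟩ := hu
      refine ⟨((u⁻¹ : Oˣ) : O) • z, ?_⟩
      have h3 : π * ((u⁻¹ : Oˣ) : O) = w i := by
        rw [hη, ← hu, mul_assoc, Units.mul_inv, mul_one]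
      rw [smul_smul, h3]
      exact hwz

/-- the trilinear form is divisible by `π` -/
theorem R13_T {R : Type*} [CommRing R] (c g : Fin n → Fin n → Fin n → R) (π : R) (hπ : π ^ 2 = 2)
    (hc : ∀ i j l, c i j l = (if i = j ∧ j = l then 1 else 0) + π * g i j l) (u v w : Fin n → R) :
    Tc c u v w = π * (Tc g u v w + 3 * π * ∑ i, u i * v i * w i) := by
  classical
  have h1 : Tc c u v w = Tc (fun i j l => if i = j ∧ j = l then (1 : R) else 0) u v w +
      π * Tc g u v w := by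
    unfold Tc
    simp only [Finset.mul_sum, ← Finset.sum_add_distrib]
    refine Finset.sum_congr rfl fun i _ => Finset.sum_congr rfl fun j _ =>
      Finset.sum_congr rfl fun l _ => ?_
    rw [hc]
    ring
  have h2 : Tc (fun i j l => if i = j ∧ j = l then (1 : R) else 0) u v w =
      6 * ∑ i, u i * v i * w i := by
    unfold Tc
    rw [Finset.mul_sum]
    refine Finset.sum_congr rfl fun i _ => ?_
    rw [Finset.sum_eq_single i, Finset.sum_eq_single i]
    · beta_reduce
      rw [if_pos ⟨rfl, rfl⟩]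
      ring
    · intro l _ hl
      beta_reduce
      rw [if_neg (fun h => hl h.2.symm), zero_mul]
    · intro h
      exact absurd (Finset.mem_univ _) h
    · intro j _ hj
      refine Finset.sum_eq_zero fun l _ => ?_
      beta_reduce
      rw [if_neg (fun h => hj h.1.symm), zero_mul]
    · intro h
      exact absurd (Finset.mem_univ _) h
  rw [h1, h2]
  linear_combination (-3 * ∑ i, u i * v i * w i) * hπ

theorem R13_core [Infinite O] {N : ℕ} (c g : Fin (N + 1) → Fin (N + 1) → Fin (N + 1) → O) (π : O)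
    (h2 : (2 : IsLocalRing.ResidueField O) = 0) (hπ0 : π ≠ 0) (hπ : π ^ 2 = 2)
    (hcg : ∀ i j l, c i j l = (if i = j ∧ j = l then 1 else 0) + π * g i j l)
    (x b1 b2 G1 G2 r : Fin (N + 1) → O) (hQ : Quad2 c x b1 b2 G1 G2 (π • r))
    (X B1 B2 w : Fin (N + 1) → IsLocalRing.ResidueField O)
    (hX : ∀ i, X i = IsLocalRing.residue O (x i)) (hB1 : ∀ i, B1 i = IsLocalRing.residue O (b1 i))
    (hB2 : ∀ i, B2 i = IsLocalRing.residue O (b2 i))
    (hXX : Dh X X = 0) (hXB1 : Dh X B1 = 0) (hXB2 : Dh X B2 = 0) (hXw : Dh X w = 1)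
    (hB11 : Dh B1 B1 = 0) (hB12 : Dh B1 B2 = 0) (hww : Dh w w = 0)
    (hwB1 : Dh w B1 = 0) (hwB2 : Dh w B2 = 0) (hB1w : Dh B1 w = 0) (hB2w : Dh B2 w = 0)
    (nz : ∀ s t : IsLocalRing.ResidueField O, Dh (s • B1 + t • B2) X = 0 → s = 0 ∧ t = 0)
    (φ : IsLocalRing.ResidueField O) (hφ : φ = Dh w X) (hφ0 : φ ≠ 0)
    (hG1 : ∀ i, IsLocalRing.residue O (G1 i) = (Dh B1 X • (w + φ • X)) i)
    (hG2 : ∀ i, IsLocalRing.residue O (G2 i) = (Dh B2 X • (w + φ • X)) i)
    (dec : ∀ u, Dh u B1 = 0 → Dh u B2 = 0 →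
      ∃ s t a b : IsLocalRing.ResidueField O, u = s • B1 + t • B2 + a • X + b • w)
    (hsq : ∀ q r, Dh q B1 = Dh B1 X * Dh B2 X * Dh r B1 → Dh q B2 = Dh B1 X * Dh B2 X * Dh r B2 →
      Dh r B1 = 0 ∧ Dh r B2 = 0) :
    Tc (cm (IsLocalRing.residue O) g) B1 B2 w = 0 := by
  classical
  have hπr : IsLocalRing.residue O π = 0 := by
    have h1 := congrArg (IsLocalRing.residue O) hπ
    rw [map_pow, map_ofNat, h2] at h1
    exact pow_eq_zero_iff (two_ne_zero) |>.1 h1
  have hcr : ∀ i j l, IsLocalRing.residue O (c i j l) = if i = j ∧ j = l then 1 else 0 := by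
    intro i j k
    rw [hcg, map_add, map_mul, hπr, zero_mul, add_zero]
    split_ifs
    · exact map_one _
    · exact map_zero _
  have hD : ∀ (u v : Fin (N + 1) → O) (U V : Fin (N + 1) → IsLocalRing.ResidueField O),
      (∀ i, U i = IsLocalRing.residue O (u i)) → (∀ i, V i = IsLocalRing.residue O (v i)) →
      IsLocalRing.residue O (Dc c u v) = Dh U V := by
    intro u v U V hU hV
    rw [K6_resD O c hcr h2, Dh]
    refine Finset.sum_congr rfl fun i _ => ?_
    rw [hU, hV]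
  obtain ⟨P, hPd⟩ : ∃ P : (Fin (N + 1) → O) → (Fin (N + 1) → O) → (Fin (N + 1) → O) → O,
    P = fun u v w => Tc g u v w + 3 * π * ∑ i, u i * v i * w i := ⟨_, rfl⟩
  have hT : ∀ u v w, Tc c u v w = π * P u v w := by
    intro u v w
    rw [hPd]
    exact R13_T c g π hπ hcg u v w
  have hPr : ∀ (u v w : Fin (N + 1) → O) (U V W : Fin (N + 1) → IsLocalRing.ResidueField O),
      (∀ i, U i = IsLocalRing.residue O (u i)) → (∀ i, V i = IsLocalRing.residue O (v i)) →
      (∀ i, W i = IsLocalRing.residue O (w i)) →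
      IsLocalRing.residue O (P u v w) = Tc (cm (IsLocalRing.residue O) g) U V W := by
    intro u v w U V W hU hV hW
    rw [hPd]
    simp only
    rw [map_add, map_mul, map_mul, hπr, mul_zero, zero_mul, add_zero, ← Tc_cm, funext hU,
      funext hV, funext hW]
  obtain ⟨f, hf⟩ : ∃ f, f = w + φ • X := ⟨_, rfl⟩
  rw [← hf] at hG1 hG2
  obtain ⟨X1, hX1⟩ : ∃ X1, X1 = Dc c b1 x := ⟨_, rfl⟩
  obtain ⟨X2, hX2⟩ : ∃ X2, X2 = Dc c b2 x := ⟨_, rfl⟩
  have hX1r : IsLocalRing.residue O X1 = Dh B1 X := by rw [hX1, hD _ _ _ _ hB1 hX]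
  have hX2r : IsLocalRing.residue O X2 = Dh B2 X := by rw [hX2, hD _ _ _ _ hB2 hX]
  have hX10 : Dh B1 X ≠ 0 := by
    intro h
    have h1 := (nz 1 0 (by rw [one_smul, zero_smul, add_zero, h])).1
    exact one_ne_zero h1
  obtain ⟨Gs, hGs⟩ : ∃ Gs, Gs = X2 • G1 + (-X1) • G2 := ⟨_, rfl⟩
  obtain ⟨k1, k2, k3, k4, k5, k6, k7, k8, k9⟩ := R13_exact hπ0 hQ P hT X1 X2 hX1 hX2 Gs hGs
  have hG1' : ∀ i, (Dh B1 X • f) i = IsLocalRing.residue O (G1 i) := fun i => (hG1 i).symm
  have hG2' : ∀ i, (Dh B2 X • f) i = IsLocalRing.residue O (G2 i) := fun i => (hG2 i).symm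
  rcases R13_div O π Gs with ⟨q, hq⟩ | ⟨ε, η, z, i, hε, hz, hzi, hη, hη0⟩
  · -- `Gs = π q`
    obtain ⟨Q, hQd⟩ : ∃ Q : Fin (N + 1) → IsLocalRing.ResidueField O,
      ∀ i, Q i = IsLocalRing.residue O (q i) := ⟨_, fun _ => rfl⟩
    obtain ⟨Rr, hRd⟩ : ∃ Rr : Fin (N + 1) → IsLocalRing.ResidueField O,
      ∀ i, Rr i = IsLocalRing.residue O (r i) := ⟨_, fun _ => rfl⟩
    have hπ2 : π ^ 2 ≠ 0 := pow_ne_zero 2 hπ0
    rw [hq, Dc_smul_left] at k4 k5
    have k4' := congrArg (IsLocalRing.residue O) (mul_left_cancel₀ hπ2 k4)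
    have k5' := congrArg (IsLocalRing.residue O) (mul_left_cancel₀ hπ2 k5)
    rw [map_add, map_mul, map_mul, map_neg, map_pow, map_mul, map_add, hX1r, hX2r,
      hD _ _ _ _ hQd hB1, hD _ _ _ _ hRd hB1, hPr _ _ _ _ _ _ hG2' hRd hB2,
      hPr _ _ _ _ _ _ hG1' hRd hB2, Tc_smul_left, Tc_smul_left] at k4'
    rw [map_add, map_mul, map_mul, map_neg, map_pow, map_mul, map_add, hX1r, hX2r,
      hD _ _ _ _ hQd hB2, hD _ _ _ _ hRd hB2, hPr _ _ _ _ _ _ hG1' hRd hB1,
      hPr _ _ _ _ _ _ hG2' hRd hB1, Tc_smul_left, Tc_smul_left] at k5'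
    obtain ⟨l1, l2⟩ := hsq Q Rr (by rw [k4']; ring) (by rw [k5']; ring)
    obtain ⟨s, t, a, b, hR⟩ := dec Rr l1 l2
    have k6' := congrArg (IsLocalRing.residue O) k6
    have k7' := congrArg (IsLocalRing.residue O) k7
    have k8' := congrArg (IsLocalRing.residue O) k8
    rw [map_add, map_zero, hD _ _ _ _ hX hRd, hPr _ _ _ _ _ _ hB1 hB2 hX] at k6'
    rw [map_zero, hD _ _ _ _ hG1' hRd, Dh_smul_left] at k7'
    have k7'' : Dh f Rr = 0 := (mul_eq_zero.1 k7').resolve_left (pow_ne_zero 2 hX10)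
    rw [map_add, map_add, map_mul, hπr, zero_mul, map_zero, add_zero, hD _ _ _ _ hB1 hRd,
      hPr _ _ _ _ _ _ hB1 hB2 hG1', Tc_smul_right] at k8'
    rw [hR] at k6' k7'' k8'
    rw [Dh_add_right, Dh_add_right, Dh_add_right, Dh_smul_right, Dh_smul_right, Dh_smul_right,
      Dh_smul_right, hXB1, hXB2, hXX, hXw] at k6'
    rw [hf, Dh_add_left h2, Dh_smul_left, Dh_add_right, Dh_add_right, Dh_add_right,
      Dh_smul_right, Dh_smul_right, Dh_smul_right, Dh_smul_right, Dh_add_right, Dh_add_right,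
      Dh_add_right, Dh_smul_right, Dh_smul_right, Dh_smul_right, Dh_smul_right, hXB1, hXB2, hXX,
      hXw, hwB1, hwB2, ← hφ, hww] at k7''
    rw [Dh_add_right, Dh_add_right, Dh_add_right, Dh_smul_right, Dh_smul_right, Dh_smul_right,
      Dh_smul_right, hB11, hB12, hB1w, hf, Tc_add_right, Tc_smul_right] at k8'
    have e1 : a + φ * b = 0 := by
      apply (mul_eq_zero.1 (_ : φ * (a + φ * b) = 0)).resolve_left hφ0
      linear_combination k7''
    have e2 : Dh B1 X * Tc (cm (IsLocalRing.residue O) g) B1 B2 w = 0 := by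
      linear_combination k8' - Dh B1 X * e1 - φ * Dh B1 X * k6' + (φ * Dh B1 X * b) * h2
    exact (mul_eq_zero.1 e2).resolve_left hX10
  · -- impossible
    exfalso
    obtain ⟨Z, hZ⟩ : ∃ Z : Fin (N + 1) → IsLocalRing.ResidueField O,
      ∀ i, Z i = IsLocalRing.residue O (z i) := ⟨_, fun _ => rfl⟩
    have hε2 : ε ^ 2 ≠ 0 := pow_ne_zero 2 hε
    rw [hz, Dc_smul_right] at k1
    have m1 : Dh X Z = 0 := by
      rw [← hD _ _ _ _ hX hZ, (mul_eq_zero.1 k1).resolve_left hε, map_zero]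
    have m2 : Dh f Z = 0 := by
      rw [hz, Dc_smul_right, hη] at k2
      have h3 : Dc c G1 z = η * (ε * η * (X1 * Dc c r G1)) := by
        apply mul_left_cancel₀ hε
        linear_combination k2
      have h4 := congrArg (IsLocalRing.residue O) h3
      rw [map_mul, hη0, zero_mul, hD _ _ _ _ hG1' hZ, Dh_smul_left] at h4
      exact (mul_eq_zero.1 h4).resolve_left (pow_ne_zero 2 hX10)
    have m3 : Dh Z f = 0 := by
      rw [hz, Dc_smul_left, hη] at k3
      have h3 : Dc c z G1 = η * (η * (2 * X1 * X2 * Dc c r G1 - X1 ^ 2 * Dc c r G2)) := by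
        apply mul_left_cancel₀ hε2
        linear_combination k3
      have h4 := congrArg (IsLocalRing.residue O) h3
      rw [map_mul, hη0, zero_mul, hD _ _ _ _ hZ hG1', Dh_smul_right] at h4
      exact (mul_eq_zero.1 h4).resolve_left hX10
    have m4 : Dh Z B1 = 0 := by
      rw [hz, Dc_smul_left, hη] at k4
      have h3 : Dc c z b1 = η * (η * (-X1 ^ 2 * P G2 r b2 +
          X1 * X2 * (Dc c r b1 + P G1 r b2))) := by
        apply mul_left_cancel₀ hε2
        linear_combination k4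
      have h4 := congrArg (IsLocalRing.residue O) h3
      rwa [map_mul, hη0, zero_mul, hD _ _ _ _ hZ hB1] at h4
    have m5 : Dh Z B2 = 0 := by
      rw [hz, Dc_smul_left, hη] at k5
      have h3 : Dc c z b2 = η * (η * (-X2 ^ 2 * P G1 r b1 +
          X1 * X2 * (Dc c r b2 + P G2 r b1))) := by
        apply mul_left_cancel₀ hε2
        linear_combination k5
      have h4 := congrArg (IsLocalRing.residue O) h3
      rwa [map_mul, hη0, zero_mul, hD _ _ _ _ hZ hB2] at h4
    obtain ⟨s, t, a, b, hZd⟩ := dec Z m4 m5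
    rw [hZd] at m1 m2
    rw [Dh_add_right, Dh_add_right, Dh_add_right, Dh_smul_right, Dh_smul_right, Dh_smul_right,
      Dh_smul_right, hXB1, hXB2, hXX, hXw] at m1
    have hb : b = 0 := by linear_combination m1
    rw [hf, Dh_add_left h2, Dh_smul_left, Dh_add_right, Dh_add_right, Dh_add_right,
      Dh_smul_right, Dh_smul_right, Dh_smul_right, Dh_smul_right, Dh_add_right, Dh_add_right,
      Dh_add_right, Dh_smul_right, Dh_smul_right, Dh_smul_right, Dh_smul_right, hXB1, hXB2, hXX,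
      hXw, hwB1, hwB2, ← hφ, hww, hb] at m2
    have ha : a = 0 := by
      apply (mul_eq_zero.1 (_ : φ * a = 0)).resolve_left hφ0
      linear_combination m2
    rw [ha, hb, zero_smul, zero_smul, add_zero, add_zero] at hZd
    have m6 : Dh Z w = 0 := by
      rw [hZd, Dh_add_left h2, Dh_smul_left, Dh_smul_left, hB1w, hB2w]
      ring
    rw [hf, Dh_add_right, Dh_smul_right, m6, zero_add] at m3
    have m7 := (mul_eq_zero.1 m3).resolve_left hφ0
    rw [hZd] at m7
    obtain ⟨hs, ht⟩ := nz s t m7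
    rw [hs, ht, zero_smul, zero_smul, add_zero] at hZd
    have m8 := congrFun hZd i
    rw [hZ, hzi, map_one, Pi.zero_apply] at m8
    exact one_ne_zero m8

end MP2619.KC
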