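import Pool.Agent.Lib.MP_2619d0_ag.KC.R13c
import Pool.Agent.Lib.MP_2619d0_ag.KC.R11b

/-! Row R13d: the lattice step. -/

set_option autoImplicit false

namespace MP2619.KC

open Pool.Agent.Lib.MP_2619d0_ag.T MP2619.K

variable {M : Type*} [Field M] (O : ValuationSubring M) {n : ℕ}

/-- a two by two minor which does not vanish -/
theorem R13_minor {κ : Type*} [Field κ] (B1 B2 X : Fin n → κ)
    (nz : ∀ s t : κ, Dh (s • B1 + t • B2) X = 0 → s = 0 ∧ t = 0) :
    ∃ i j, B1 i * B2 j - B1 j * B2 i ≠ 0 := by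
  classical
  by_contra hcon
  push Not at hcon
  have h1 : B1 ≠ 0 := by
    intro h
    have h3 := (nz 1 0 (by rw [h, smul_zero, zero_smul, add_zero, Dh_zero_left])).1
    exact one_ne_zero h3
  obtain ⟨i, hi⟩ := Function.ne_iff.1 h1
  rw [Pi.zero_apply] at hi
  have h2 : (-(B2 i)) • B1 + B1 i • B2 = 0 := by
    funext j
    simp only [Pi.add_apply, Pi.smul_apply, smul_eq_mul, Pi.zero_apply]
    linear_combination hcon i j
  exact hi (nz _ _ (by rw [h2, Dh_zero_left])).2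

/-- the lattice step: `γ` is in the lattice generated by `b1`, `b2`, modulo `π` -/
theorem R13_lat [Infinite O] {N : ℕ} (hN : N + 1 = 6)
    (c g : Fin (N + 1) → Fin (N + 1) → Fin (N + 1) → O) (π : O)
    (h2 : (2 : IsLocalRing.ResidueField O) = 0) (hπ : π ^ 2 = 2)
    (hcg : ∀ i j l, c i j l = (if i = j ∧ j = l then 1 else 0) + π * g i j l)
    (x b1 b2 G1 G2 γ : Fin (N + 1) → O) (hQ : Quad2 c x b1 b2 G1 G2 γ)
    (X B1 B2 w : Fin (N + 1) → IsLocalRing.ResidueField O)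
    (hX : ∀ i, X i = IsLocalRing.residue O (x i)) (hB1 : ∀ i, B1 i = IsLocalRing.residue O (b1 i))
    (hB2 : ∀ i, B2 i = IsLocalRing.residue O (b2 i))
    (hXX : Dh X X = 0) (hXB1 : Dh X B1 = 0) (hXB2 : Dh X B2 = 0) (hXw : Dh X w = 1)
    (hB11 : Dh B1 B1 = 0) (hB12 : Dh B1 B2 = 0) (hB21 : Dh B2 B1 = 0) (hB22 : Dh B2 B2 = 0)
    (hwB1 : Dh w B1 = 0) (hwB2 : Dh w B2 = 0)
    (nz : ∀ s t : IsLocalRing.ResidueField O, Dh (s • B1 + t • B2) X = 0 → s = 0 ∧ t = 0)
    (φ lam : IsLocalRing.ResidueField O)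
    (hG1 : ∀ i, IsLocalRing.residue O (G1 i) =
      (lam • B1 + lam ^ 2 • X + Dh B1 X • (w + φ • X)) i) :
    ∃ (a1 a2 : O) (r : Fin (N + 1) → O), γ = a1 • b1 + a2 • b2 + π • r := by
  classical
  have hπr : IsLocalRing.residue O π = 0 := by
    have h1 := congrArg (IsLocalRing.residue O) hπ
    rw [map_pow, map_ofNat, h2] at h1
    exact pow_eq_zero_iff (two_ne_zero) |>.1 h1
  have hcr : ∀ i j l, IsLocalRing.residue O (c i j l) = if i = j ∧ j = l then 1 else 0 := by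
    intro i j k
    rw [hcg, map_add, map_mul, hπr, zero_mul, add_zero]
    split_ifs
    · exact map_one _
    · exact map_zero _
  have hD : ∀ (u v : Fin (N + 1) → O) (U V : Fin (N + 1) → IsLocalRing.ResidueField O),
      (∀ i, U i = IsLocalRing.residue O (u i)) → (∀ i, V i = IsLocalRing.residue O (v i)) →
      IsLocalRing.residue O (Dc c u v) = Dh U V := by
    intro u v U V hU hV
    rw [K6_resD O c hcr h2, Dh]
    refine Finset.sum_congr rfl fun i _ => ?_
    rw [hU, hV]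
  obtain ⟨P, hPd⟩ : ∃ P : (Fin (N + 1) → O) → (Fin (N + 1) → O) → (Fin (N + 1) → O) → O,
    P = fun u v w => Tc g u v w + 3 * π * ∑ i, u i * v i * w i := ⟨_, rfl⟩
  have hT : ∀ u v w, Tc c u v w = π * P u v w := by
    intro u v w
    rw [hPd]
    exact R13_T c g π hπ hcg u v w
  obtain ⟨⟨q1, q2⟩, ⟨q3, q4, q5⟩, ⟨q6, q7, q8, q9⟩, ⟨q10, q11⟩, ⟨q12, q13, q14, q15, q16, q17⟩,
    ⟨q18, q19, q20, q21, q22, q23⟩⟩ := R13_eqs hQ
  simp only [hT] at q5 q6 q7 q8 q9 q10 q11 q13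
  obtain ⟨i, j, hij⟩ := R13_minor B1 B2 X nz
  -- the determinant is a unit
  have hu : IsUnit (b1 i * b2 j - b1 j * b2 i) := by
    by_contra h6
    apply hij
    rw [hB1, hB2, hB1, hB2, ← map_mul, ← map_mul, ← map_sub, IsLocalRing.residue_eq_zero_iff,
      IsLocalRing.mem_maximalIdeal, mem_nonunits_iff]
    exact h6
  obtain ⟨u, hu⟩ := hu
  have huu : ((u⁻¹ : Oˣ) : O) * (b1 i * b2 j - b1 j * b2 i) = 1 := by
    rw [← hu, Units.inv_mul]
  obtain ⟨v, hv⟩ : ∃ v : O, v = ((u⁻¹ : Oˣ) : O) := ⟨_, rfl⟩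
  rw [← hv] at huu
  obtain ⟨a1, ha1⟩ : ∃ a1, a1 = v * (γ i * b2 j - γ j * b2 i) := ⟨_, rfl⟩
  obtain ⟨a2, ha2⟩ : ∃ a2, a2 = v * (b1 i * γ j - b1 j * γ i) := ⟨_, rfl⟩
  obtain ⟨d, hd⟩ : ∃ d : Fin (N + 1) → O, d = γ + (-a1) • b1 + (-a2) • b2 := ⟨_, rfl⟩
  have hdi : d i = 0 := by
    rw [hd, ha1, ha2]
    simp only [Pi.add_apply, Pi.smul_apply, smul_eq_mul]
    linear_combination (-γ i) * huu
  have hdj : d j = 0 := by
    rw [hd, ha1, ha2]
    simp only [Pi.add_apply, Pi.smul_apply, smul_eq_mul]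
    linear_combination (-γ j) * huu
  have hDd : ∀ y, Dc c y d = Dc c y γ - a1 * Dc c y b1 - a2 * Dc c y b2 := by
    intro y
    rw [hd, Dc_add_right, Dc_add_right, Dc_smul_right, Dc_smul_right]
    ring
  rcases R13_div O π d with ⟨r, hr⟩ | ⟨ε, η, z, k, hε, hz, hzk, hη, hη0⟩
  · refine ⟨a1, a2, r, ?_⟩
    rw [← hr, hd]
    funext l
    simp only [Pi.add_apply, Pi.smul_apply, smul_eq_mul]
    ring
  · exfalso
    obtain ⟨Z, hZ⟩ : ∃ Z : Fin (N + 1) → IsLocalRing.ResidueField O,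
      ∀ i, Z i = IsLocalRing.residue O (z i) := ⟨_, fun _ => rfl⟩
    have hdiv : ∀ (y : Fin (N + 1) → O) (e : O), Dc c y d = π * e →
        IsLocalRing.residue O (Dc c y z) = 0 := by
      intro y e he
      rw [hz, Dc_smul_right, hη] at he
      have h3 : Dc c y z = η * e := by
        apply mul_left_cancel₀ hε
        linear_combination he
      rw [h3, map_mul, hη0, zero_mul]
    have m1 : Dh X Z = 0 := by
      rw [← hD x z X Z hX hZ]
      refine hdiv x (-P b1 b2 x) ?_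
      rw [hDd, q1, q2]
      linear_combination q5
    have m2 : Dh B1 Z = 0 := by
      rw [← hD b1 z B1 Z hB1 hZ]
      refine hdiv b1 (-P b1 b2 G1 - P G1 γ x + a1 * (3 * P x b1 G1) +
        a2 * (P x b1 γ + P x b2 G1)) ?_
      rw [hDd, Dc_self]
      linear_combination q10 - 3 * a1 * q6 - a2 * q7
    have m3 : Dh B2 Z = 0 := by
      rw [← hD b2 z B2 Z hB2 hZ]
      refine hdiv b2 (-P b1 b2 G2 - P G2 γ x + a2 * (3 * P x b2 G2) +
        a1 * (P x b1 G2 + P x b2 γ)) ?_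
      rw [hDd, Dc_self]
      linear_combination q11 - 3 * a2 * q9 - a1 * q8
    have m4 : Dh w Z = 0 := by
      have h3 : ∀ i, (lam • B1 + lam ^ 2 • X + Dh B1 X • (w + φ • X)) i =
          IsLocalRing.residue O (G1 i) := fun i => (hG1 i).symm
      have h4 : Dh (lam • B1 + lam ^ 2 • X + Dh B1 X • (w + φ • X)) Z = 0 := by
        rw [← hD G1 z _ Z h3 hZ]
        refine hdiv G1 (a2 * P G1 γ b1) ?_
        rw [hDd, q12, q19]
        linear_combination (-a2) * q13
      rw [Dh_add_left h2, Dh_add_left h2, Dh_smul_left, Dh_smul_left, Dh_smul_left,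
        Dh_add_left h2, Dh_smul_left, m1, m2, mul_zero, mul_zero, mul_zero, add_zero, zero_add,
        add_zero] at h4
      have hX10 : Dh B1 X ≠ 0 := by
        intro h
        have h1 := (nz 1 0 (by rw [one_smul, zero_smul, add_zero, h])).1
        exact one_ne_zero h1
      exact (mul_eq_zero.1 h4).resolve_left (pow_ne_zero 2 hX10)
    obtain ⟨s, t, hst⟩ := R13_kernel h2 hN X B1 B2 w hXX hXB1 hXB2 hXw nz hB11 hB12 hB21 hB22
      hwB1 hwB2 Z m1 m2 m3 m4
    have hzi : z i = 0 := by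
      have h3 := congrFun hz i
      rw [hdi, Pi.smul_apply, smul_eq_mul] at h3
      exact (mul_eq_zero.1 h3.symm).resolve_left hε
    have hzj : z j = 0 := by
      have h3 := congrFun hz j
      rw [hdj, Pi.smul_apply, smul_eq_mul] at h3
      exact (mul_eq_zero.1 h3.symm).resolve_left hε
    have e1 := congrFun hst i
    have e2 := congrFun hst j
    simp only [Pi.add_apply, Pi.smul_apply, smul_eq_mul] at e1 e2
    rw [hZ, hzi, map_zero] at e1
    rw [hZ, hzj, map_zero] at e2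
    have hs : s = 0 := by
      apply (mul_eq_zero.1 (_ : (B1 i * B2 j - B1 j * B2 i) * s = 0)).resolve_left hij
      linear_combination B2 i * e2 - B2 j * e1
    have ht : t = 0 := by
      apply (mul_eq_zero.1 (_ : (B1 i * B2 j - B1 j * B2 i) * t = 0)).resolve_left hij
      linear_combination B1 j * e1 - B1 i * e2
    rw [hs, ht, zero_smul, zero_smul, add_zero] at hst
    have m8 := congrFun hst k
    rw [hZ, hzk, map_one, Pi.zero_apply] at m8
    exact one_ne_zero m8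

end MP2619.KC
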