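import Pool.Agent.Lib.MP_2619d0_ag.KC.Defs
import Pool.Agent.Lib.MP_2619d0_ag.K.K6a

/-! Row R6: maximal totally isotropic subspaces are defined over the field of four elements. -/

set_option autoImplicit false

namespace MP2619.KC

variable {κ : Type*} [Field κ] {n s : ℕ}

/-- the vectors orthogonal to the squares of a subspace -/
def R6_T (U : Submodule κ (Fin n → κ)) : Submodule κ (Fin n → κ) where
  carrier := {b | ∀ a ∈ U, Dh a b = 0}
  zero_mem' := by
    intro a _
    simp [Dh]
  add_mem' := by
    intro b c hb hc a ha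
    have h1 : Dh a (b + c) = Dh a b + Dh a c := by
      simp only [Dh, Pi.add_apply, mul_add, Finset.sum_add_distrib]
    rw [h1, hb a ha, hc a ha, add_zero]
  smul_mem' := by
    intro c b hb a ha
    have h1 : Dh a (c • b) = c * Dh a b := by
      simp only [Dh, Pi.smul_apply, smul_eq_mul, Finset.mul_sum]
      exact Finset.sum_congr rfl fun i _ => by ring
    rw [h1, hb a ha, mul_zero]

theorem R6_T_eq (h2 : (2 : κ) = 0) (U : Submodule κ (Fin n → κ))
    (hU : ∀ a ∈ U, ∀ b ∈ U, Dh a b = 0) (hn : n = 2 * s) (hs : Module.finrank κ U = s) :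
    U = R6_T U := by
  have hle : U ≤ R6_T U := fun b hb a ha => hU a ha b hb
  let b := Module.finBasis κ U
  have h1 : LinearIndependent κ (fun j => (b j : Fin n → κ)) :=
    b.linearIndependent.map' U.subtype (Submodule.ker_subtype _)
  have h3 := K.K6_orth (R6_T U) _ (K.K6_sq h2 _ h1) (fun j t ht => ht _ (b j).2)
  refine Submodule.eq_of_le_of_finrank_le hle ?_
  omega

theorem R6_frob (h2 : (2 : κ) = 0) (U : Submodule κ (Fin n → κ))
    (hU : ∀ a ∈ U, ∀ b ∈ U, Dh a b = 0) (hn : n = 2 * s) (hs : Module.finrank κ U = s)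
    (u : Fin n → κ) (hu : u ∈ U) : (fun i => u i ^ 4) ∈ U := by
  have : CharP κ 2 := CharTwo.of_one_ne_zero_of_two_eq_zero one_ne_zero h2
  rw [R6_T_eq h2 U hU hn hs]
  intro a ha
  have h1 := hU u hu a ha
  have h3 : Dh a (fun i => u i ^ 4) = Dh u a ^ 2 := by
    unfold Dh
    rw [show (∑ i, u i ^ 2 * a i) ^ 2 = ∑ i, (u i ^ 2 * a i) ^ 2 from sum_pow_char 2 _ _]
    exact Finset.sum_congr rfl fun i _ => by ring
  rw [h3, h1]
  ring

/-- an echelon set of coordinates for a subspace -/
theorem R6_echelon (U : Submodule κ (Fin n → κ)) (hs : Module.finrank κ U = s) :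
    ∃ J : Fin s ↪o Fin n, ∀ u ∈ U, (∀ a, u (J a) = 0) → u = 0 := by
  classical
  let φ : Fin n → Module.Dual κ U := fun i => (LinearMap.proj i).comp U.subtype
  obtain ⟨S, -, -, hspan, hli⟩ := exists_linearIndepOn_extension (K := κ) (v := φ)
    (linearIndepOn_empty κ φ) (Set.empty_subset (Set.univ : Set (Fin n)))
  have hker : ∀ u ∈ U, (∀ i ∈ S, u i = 0) → u = 0 := by
    intro u hu h
    funext i
    have h1 : φ i ∈ Submodule.span κ (φ '' S) := hspan ⟨i, Set.mem_univ i, rfl⟩
    have h2 : ∀ f ∈ Submodule.span κ (φ '' S), f ⟨u, hu⟩ = 0 := by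
      intro f hf
      induction hf using Submodule.span_induction with
      | mem f hf =>
        obtain ⟨j, hj, rfl⟩ := hf
        exact h j hj
      | zero => rfl
      | add f g _ _ hf hg => rw [LinearMap.add_apply, hf, hg, add_zero]
      | smul c f _ hf => rw [LinearMap.smul_apply, hf, smul_zero]
    exact h2 _ h1
  have hc1 : Fintype.card S ≤ s := by
    have h1 := hli.fintype_card_le_finrank
    rwa [Subspace.dual_finrank_eq, hs] at h1
  have hc2 : s ≤ Fintype.card S := by
    let P : U →ₗ[κ] (S → κ) := LinearMap.pi fun i => φ i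
    have hP : Function.Injective P := by
      rw [← LinearMap.ker_eq_bot, LinearMap.ker_eq_bot']
      intro u hu
      apply Subtype.ext
      exact hker u u.2 fun i hi => congrFun hu ⟨i, hi⟩
    have h1 := LinearMap.finrank_le_finrank_of_injective hP
    rwa [Module.finrank_fintype_fun_eq_card, hs] at h1
  have hc : S.toFinset.card = s := by
    rw [Set.toFinset_card]
    omega
  refine ⟨S.toFinset.orderEmbOfFin hc, fun u hu h => hker u hu fun i hi => ?_⟩
  have h1 : i ∈ Set.range (S.toFinset.orderEmbOfFin hc) := by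
    rw [Finset.range_orderEmbOfFin]
    simpa using hi
  obtain ⟨a, rfl⟩ := h1
  exact h a

/-- A totally isotropic subspace of dimension half has a basis with coordinates in the field of four
elements, in echelon form. -/
theorem R6_basis (h2 : (2 : κ) = 0) (U : Submodule κ (Fin n → κ))
    (hU : ∀ a ∈ U, ∀ b ∈ U, Dh a b = 0) (hn : n = 2 * s) (hs : Module.finrank κ U = s) :
    ∃ (J : Fin s ↪o Fin n) (w : Fin s → Fin n → κ), (∀ a, w a ∈ U) ∧
      (∀ a b, w a (J b) = if a = b then 1 else 0) ∧ (∀ a i, w a i ^ 4 = w a i) ∧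
      ∀ u ∈ U, u = ∑ a, u (J a) • w a := by
  classical
  obtain ⟨J, hJ⟩ := R6_echelon U hs
  let P : U →ₗ[κ] (Fin s → κ) := LinearMap.pi fun a => (LinearMap.proj (J a)).comp U.subtype
  have hP : Function.Injective P := by
    rw [← LinearMap.ker_eq_bot, LinearMap.ker_eq_bot']
    intro u hu
    apply Subtype.ext
    exact hJ u u.2 fun a => congrFun hu a
  have hPs : Function.Surjective P := by
    rw [← LinearMap.injective_iff_surjective_of_finrank_eq_finrank
      (by rw [hs, Module.finrank_fin_fun])]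
    exact hP
  choose w hw using fun a : Fin s => hPs (Pi.single a 1)
  have hwJ : ∀ a b, (w a : Fin n → κ) (J b) = if a = b then 1 else 0 := by
    intro a b
    have h1 : (w a : Fin n → κ) (J b) = (Pi.single a (1 : κ) : Fin s → κ) b := congrFun (hw a) b
    rw [h1, Pi.single_apply]
    by_cases h : a = b
    · rw [if_pos h, if_pos h.symm]
    · rw [if_neg h, if_neg (Ne.symm h)]
  refine ⟨J, fun a => w a, fun a => (w a).2, hwJ, ?_, ?_⟩
  · intro a
    have h1 := R6_frob h2 U hU hn hs (w a) (w a).2
    have h3 := hJ _ (U.sub_mem h1 (w a).2) (by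
      intro b
      rw [Pi.sub_apply, hwJ a b]
      split_ifs <;> simp)
    intro i
    have h4 := congrFun h3 i
    rw [Pi.sub_apply, Pi.zero_apply, sub_eq_zero] at h4
    exact h4
  · intro u hu
    have h1 : u - ∑ a, u (J a) • (w a : Fin n → κ) ∈ U :=
      U.sub_mem hu (U.sum_mem fun a _ => U.smul_mem _ (w a).2)
    have h3 := hJ _ h1 (by
      intro b
      rw [Pi.sub_apply, Finset.sum_apply]
      simp only [Pi.smul_apply, smul_eq_mul, hwJ]
      simp)
    exact sub_eq_zero.1 h3

end MP2619.KC
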